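import Mathlib

/-!
# Dart nets: finite balanced straight-line networks in the plane, with rays to infinity

Auxiliary file for MP_b48dd4_gt.
-/

namespace Pool.Agent.Lib.Pb48dd4

open Finset
open scoped Classical

noncomputable section

/-! ### Planar vector algebra -/

/-- Real inner product on `ℂ`. -/
def dot (a b : ℂ) : ℝ := a.re * b.re + a.im * b.im

/-- Cross product on `ℂ`. -/
def crs (a b : ℂ) : ℝ := a.re * b.im - a.im * b.re

lemma dot_comm (a b : ℂ) : dot a b = dot b a := by unfold dot; ring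

lemma dot_add_left (a b c : ℂ) : dot (a + b) c = dot a c + dot b c := by
  unfold dot; simp; ring

lemma dot_add_right (a b c : ℂ) : dot a (b + c) = dot a b + dot a c := by
  unfold dot; simp; ring

lemma dot_sub_left (a b c : ℂ) : dot (a - b) c = dot a c - dot b c := by
  unfold dot; simp; ring

lemma dot_sub_right (a b c : ℂ) : dot a (b - c) = dot a b - dot a c := by
  unfold dot; simp; ring

@[simp] lemma dot_neg_left (a b : ℂ) : dot (-a) b = -dot a b := by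
  unfold dot; simp; ring

@[simp] lemma dot_neg_right (a b : ℂ) : dot a (-b) = -dot a b := by
  unfold dot; simp; ring

@[simp] lemma dot_zero_left (b : ℂ) : dot 0 b = 0 := by unfold dot; simp

@[simp] lemma dot_zero_right (b : ℂ) : dot b 0 = 0 := by unfold dot; simp

lemma dot_smul_left (r : ℝ) (a b : ℂ) : dot (r • a) b = r * dot a b := by
  unfold dot; simp; ring

lemma dot_smul_right (r : ℝ) (a b : ℂ) : dot a (r • b) = r * dot a b := by
  unfold dot; simp; ring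

lemma dot_self (a : ℂ) : dot a a = ‖a‖ ^ 2 := by
  rw [Complex.sq_norm, Complex.normSq_apply]; rfl

lemma dot_sum_left {α : Type*} (s : Finset α) (f : α → ℂ) (b : ℂ) :
    dot (∑ i ∈ s, f i) b = ∑ i ∈ s, dot (f i) b := by
  unfold dot
  rw [Complex.re_sum, Complex.im_sum, Finset.sum_mul, Finset.sum_mul, ← Finset.sum_add_distrib]

lemma dot_sum_right {α : Type*} (s : Finset α) (f : α → ℂ) (b : ℂ) :
    dot b (∑ i ∈ s, f i) = ∑ i ∈ s, dot b (f i) := by
  rw [dot_comm, dot_sum_left]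
  exact Finset.sum_congr rfl fun i _ => dot_comm _ _

lemma crs_add_left (a b c : ℂ) : crs (a + b) c = crs a c + crs b c := by
  unfold crs; simp; ring

lemma crs_add_right (a b c : ℂ) : crs a (b + c) = crs a b + crs a c := by
  unfold crs; simp; ring

lemma crs_sub_left (a b c : ℂ) : crs (a - b) c = crs a c - crs b c := by
  unfold crs; simp; ring

lemma crs_sub_right (a b c : ℂ) : crs a (b - c) = crs a b - crs a c := by
  unfold crs; simp; ring

@[simp] lemma crs_neg_left (a b : ℂ) : crs (-a) b = -crs a b := by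
  unfold crs; simp; ring

@[simp] lemma crs_neg_right (a b : ℂ) : crs a (-b) = -crs a b := by
  unfold crs; simp; ring

lemma crs_smul_left (r : ℝ) (a b : ℂ) : crs (r • a) b = r * crs a b := by
  unfold crs; simp; ring

lemma crs_smul_right (r : ℝ) (a b : ℂ) : crs a (r • b) = r * crs a b := by
  unfold crs; simp; ring

@[simp] lemma crs_self (a : ℂ) : crs a a = 0 := by unfold crs; ring

lemma crs_comm (a b : ℂ) : crs a b = -crs b a := by unfold crs; ring

lemma dot_sq_add_crs_sq (a b : ℂ) : dot a b ^ 2 + crs a b ^ 2 = ‖a‖ ^ 2 * ‖b‖ ^ 2 := by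
  rw [Complex.sq_norm, Complex.sq_norm, Complex.normSq_apply, Complex.normSq_apply]
  unfold dot crs
  ring

lemma abs_dot_le (a b : ℂ) : |dot a b| ≤ ‖a‖ * ‖b‖ := by
  apply abs_le_of_sq_le_sq _ (by positivity)
  have := dot_sq_add_crs_sq a b
  nlinarith [sq_nonneg (crs a b)]

lemma dot_le (a b : ℂ) : dot a b ≤ ‖a‖ * ‖b‖ := (le_abs_self _).trans (abs_dot_le a b)

lemma neg_le_dot (a b : ℂ) : -(‖a‖ * ‖b‖) ≤ dot a b := (abs_le.mp (abs_dot_le a b)).1

lemma norm_sub_sq' (a b : ℂ) : ‖a - b‖ ^ 2 = ‖a‖ ^ 2 + ‖b‖ ^ 2 - 2 * dot a b := by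
  rw [← dot_self, ← dot_self, ← dot_self, dot_sub_left, dot_sub_right, dot_sub_right,
    dot_comm b a]
  ring

lemma norm_add_sq' (a b : ℂ) : ‖a + b‖ ^ 2 = ‖a‖ ^ 2 + ‖b‖ ^ 2 + 2 * dot a b := by
  rw [← dot_self, ← dot_self, ← dot_self, dot_add_left, dot_add_right, dot_add_right,
    dot_comm b a]
  ring

/-- For unit vectors `1 - ⟨a,b⟩ = ‖a-b‖²/2`. -/
lemma one_sub_dot {a b : ℂ} (ha : ‖a‖ = 1) (hb : ‖b‖ = 1) :
    1 - dot a b = ‖a - b‖ ^ 2 / 2 := by
  rw [norm_sub_sq', ha, hb]; ring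

/-- Normalised vector. -/
def nrm (w : ℂ) : ℂ := (‖w‖)⁻¹ • w

lemma norm_nrm {w : ℂ} (hw : w ≠ 0) : ‖nrm w‖ = 1 := by
  unfold nrm
  rw [norm_smul, norm_inv, norm_norm, inv_mul_cancel₀ (norm_ne_zero_iff.mpr hw)]

@[simp] lemma nrm_zero : nrm 0 = 0 := by unfold nrm; simp

lemma norm_nrm_le (w : ℂ) : ‖nrm w‖ ≤ 1 := by
  by_cases h : w = 0
  · simp [h]
  · exact (norm_nrm h).le

lemma norm_smul_nrm (w : ℂ) : ‖w‖ • nrm w = w := by
  by_cases h : w = 0
  · simp [h]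
  · unfold nrm
    rw [smul_smul, mul_inv_cancel₀ (norm_ne_zero_iff.mpr h), one_smul]

lemma dot_nrm_self {w : ℂ} : dot (nrm w) w = ‖w‖ := by
  unfold nrm
  rw [dot_smul_left, dot_self]
  by_cases h : w = 0
  · simp [h]
  · have := norm_ne_zero_iff.mpr h
    field_simp

/-- Monotonicity of the unit direction map. -/
lemma nrm_mono (x y : ℂ) : 0 ≤ dot (nrm y - nrm x) (y - x) := by
  rw [dot_sub_left, dot_sub_right, dot_sub_right, dot_nrm_self, dot_nrm_self]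
  have h1 : dot (nrm y) x ≤ ‖x‖ := by
    refine (dot_le _ _).trans ?_
    exact mul_le_of_le_one_left (norm_nonneg _) (norm_nrm_le y)
  have h2 : dot (nrm x) y ≤ ‖y‖ := by
    refine (dot_le _ _).trans ?_
    exact mul_le_of_le_one_left (norm_nonneg _) (norm_nrm_le x)
  linarith

/-! ### Dart nets -/

/-- A finite balanced straight-line network in the plane with rays to infinity, described by its
darts (directed half-edges). A dart fixed by `rev` is a ray to infinity; the other darts come in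
pairs `d`, `rev d`, the two directions of an edge. -/
structure DartNet (ι δ : Type) [Fintype ι] [Fintype δ] where
  z : ι → ℂ
  src : δ → ι
  dir : δ → ℂ
  rev : δ → δ
  len : δ → ℝ
  z_inj : Function.Injective z
  norm_dir : ∀ d, ‖dir d‖ = 1
  rev_rev : ∀ d, rev (rev d) = d
  len_pos : ∀ d, rev d ≠ d → 0 < len d
  z_rev : ∀ d, rev d ≠ d → z (src (rev d)) = z (src d) + len d • dir d
  dir_rev : ∀ d, rev d ≠ d → dir (rev d) = -dir d
  bal : ∀ v, ∑ d with src d = v, dir d = 0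
  has : ∀ v, ∃ d, src d = v

variable {ι δ : Type} [Fintype ι] [Fintype δ]

namespace DartNet

variable (𝒩 : DartNet ι δ)

/-- Darts starting in `S`. -/
def darts (S : Finset ι) : Finset δ := univ.filter fun d => 𝒩.src d ∈ S

/-- Boundary darts of `S`: rays from `S` and darts leaving `S`. -/
def bd (S : Finset ι) : Finset δ :=
  univ.filter fun d => 𝒩.src d ∈ S ∧ (𝒩.rev d = d ∨ 𝒩.src (𝒩.rev d) ∉ S)

/-- Interior darts of `S`. -/
def inn (S : Finset ι) : Finset δ :=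
  univ.filter fun d => 𝒩.src d ∈ S ∧ 𝒩.rev d ≠ d ∧ 𝒩.src (𝒩.rev d) ∈ S

/-- Number of boundary darts. -/
def N (S : Finset ι) : ℕ := (𝒩.bd S).card

/-- Genuine vertices: not all darts parallel. -/
def genuine (v : ι) : Prop :=
  ∃ d d', 𝒩.src d = v ∧ 𝒩.src d' = v ∧ crs (𝒩.dir d) (𝒩.dir d') ≠ 0

/-- Number of genuine vertices in `S`. -/
def g (S : Finset ι) : ℕ := (S.filter 𝒩.genuine).card

lemma mem_darts {S : Finset ι} {d : δ} : d ∈ 𝒩.darts S ↔ 𝒩.src d ∈ S := by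
  simp [darts]

lemma mem_bd {S : Finset ι} {d : δ} :
    d ∈ 𝒩.bd S ↔ 𝒩.src d ∈ S ∧ (𝒩.rev d = d ∨ 𝒩.src (𝒩.rev d) ∉ S) := by
  simp [bd]

lemma mem_inn {S : Finset ι} {d : δ} :
    d ∈ 𝒩.inn S ↔ 𝒩.src d ∈ S ∧ 𝒩.rev d ≠ d ∧ 𝒩.src (𝒩.rev d) ∈ S := by
  simp [inn]

lemma mem_bd_univ {d : δ} : d ∈ 𝒩.bd univ ↔ 𝒩.rev d = d := by
  simp [bd]

lemma mem_inn_univ {d : δ} : d ∈ 𝒩.inn univ ↔ 𝒩.rev d ≠ d := by
  simp [inn]

lemma rev_ne {d : δ} (h : 𝒩.rev d ≠ d) : 𝒩.rev (𝒩.rev d) ≠ 𝒩.rev d := by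
  rw [𝒩.rev_rev]; exact fun h' => h h'.symm

lemma rev_inj : Function.Injective 𝒩.rev := by
  intro a b h
  rw [← 𝒩.rev_rev a, h, 𝒩.rev_rev]

lemma sum_darts (S : Finset ι) (f : δ → ℝ) :
    ∑ d ∈ 𝒩.darts S, f d = ∑ d ∈ 𝒩.bd S, f d + ∑ d ∈ 𝒩.inn S, f d := by
  rw [← Finset.sum_union]
  · apply Finset.sum_congr _ fun _ _ => rfl
    ext d
    rw [Finset.mem_union, mem_darts, mem_bd, mem_inn]
    tauto
  · rw [Finset.disjoint_left]
    intro d hd hd'
    rw [mem_bd] at hd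
    rw [mem_inn] at hd'
    tauto

lemma sum_inn_rev (S : Finset ι) (f : δ → ℝ) :
    ∑ d ∈ 𝒩.inn S, f (𝒩.rev d) = ∑ d ∈ 𝒩.inn S, f d := by
  apply Finset.sum_bij (fun d _ => 𝒩.rev d)
  · intro d hd
    rw [mem_inn] at hd ⊢
    exact ⟨hd.2.2, 𝒩.rev_ne hd.2.1, by rw [𝒩.rev_rev]; exact hd.1⟩
  · intro a _ b _ h
    exact 𝒩.rev_inj h
  · intro d hd
    refine ⟨𝒩.rev d, ?_, 𝒩.rev_rev d⟩
    rw [mem_inn] at hd ⊢
    exact ⟨hd.2.2, 𝒩.rev_ne hd.2.1, by rw [𝒩.rev_rev]; exact hd.1⟩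
  · intro _ _; rfl

/-- Balance tested against a vertex field. -/
lemma sum_darts_field (S : Finset ι) (φ : ι → ℂ) :
    ∑ d ∈ 𝒩.darts S, dot (φ (𝒩.src d)) (𝒩.dir d) = 0 := by
  have h1 : ∑ d ∈ 𝒩.darts S, dot (φ (𝒩.src d)) (𝒩.dir d) =
      ∑ v ∈ S, ∑ d ∈ (𝒩.darts S).filter (fun d => 𝒩.src d = v),
        dot (φ (𝒩.src d)) (𝒩.dir d) := by
    symm
    apply Finset.sum_fiberwise_of_maps_to
    intro d hd
    exact (𝒩.mem_darts).mp hd
  rw [h1]
  apply Finset.sum_eq_zero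
  intro v hv
  have h2 : (𝒩.darts S).filter (fun d => 𝒩.src d = v) = univ.filter (fun d => 𝒩.src d = v) := by
    ext d
    simp only [Finset.mem_filter, mem_darts, Finset.mem_univ, true_and]
    constructor
    · rintro ⟨_, h⟩; exact h
    · intro h; exact ⟨by rw [h]; exact hv, h⟩
  rw [h2]
  have h3 : ∑ d ∈ univ.filter (fun d => 𝒩.src d = v), dot (φ (𝒩.src d)) (𝒩.dir d) =
      ∑ d ∈ univ.filter (fun d => 𝒩.src d = v), dot (φ v) (𝒩.dir d) := by
    apply Finset.sum_congr rfl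
    intro d hd
    rw [(Finset.mem_filter.mp hd).2]
  rw [h3, ← dot_sum_right, 𝒩.bal v]
  simp

/-- First variation formula. -/
lemma first_variation (S : Finset ι) (φ : ι → ℂ) :
    ∑ d ∈ 𝒩.bd S, dot (φ (𝒩.src d)) (𝒩.dir d) =
      (1 / 2) * ∑ d ∈ 𝒩.inn S, dot (φ (𝒩.src (𝒩.rev d)) - φ (𝒩.src d)) (𝒩.dir d) := by
  have h1 := 𝒩.sum_darts_field S φ
  rw [sum_darts] at h1
  have h2 := 𝒩.sum_inn_rev S (fun d => dot (φ (𝒩.src d)) (𝒩.dir d))
  have h3 : ∑ d ∈ 𝒩.inn S, dot (φ (𝒩.src (𝒩.rev d))) (𝒩.dir (𝒩.rev d)) =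
      - ∑ d ∈ 𝒩.inn S, dot (φ (𝒩.src (𝒩.rev d))) (𝒩.dir d) := by
    rw [← Finset.sum_neg_distrib]
    apply Finset.sum_congr rfl
    intro d hd
    rw [𝒩.dir_rev d (𝒩.mem_inn.mp hd).2.1, dot_neg_right]
  rw [h3] at h2
  have h4 : ∑ d ∈ 𝒩.inn S, dot (φ (𝒩.src (𝒩.rev d)) - φ (𝒩.src d)) (𝒩.dir d) =
      ∑ d ∈ 𝒩.inn S, dot (φ (𝒩.src (𝒩.rev d))) (𝒩.dir d) -
        ∑ d ∈ 𝒩.inn S, dot (φ (𝒩.src d)) (𝒩.dir d) := by
    rw [← Finset.sum_sub_distrib]
    apply Finset.sum_congr rfl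
    intro d _
    rw [dot_sub_left]
  rw [h4]
  linarith

/-- Force balance. -/
lemma sum_bd (S : Finset ι) (e : ℂ) : ∑ d ∈ 𝒩.bd S, dot e (𝒩.dir d) = 0 := by
  have := 𝒩.first_variation S (fun _ => e)
  simpa using this

lemma sum_bd' (S : Finset ι) : ∑ d ∈ 𝒩.bd S, 𝒩.dir d = 0 := by
  have h1 := 𝒩.sum_bd S 1
  have h2 := 𝒩.sum_bd S Complex.I
  rw [← dot_sum_right] at h1 h2
  apply Complex.ext
  · simpa [dot] using h1
  · simpa [dot] using h2

/-- Flux lemma, positive interior case. -/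
lemma flux_pos {d : δ} (hd : 𝒩.rev d ≠ d) (n : ℂ) (h : 0 < dot n (𝒩.dir d)) :
    dot n (𝒩.dir d) ≤ (1 / 2) * ∑ b ∈ 𝒩.bd univ, |dot n (𝒩.dir b)| := by
  set c := dot n (𝒩.z (𝒩.src d)) with hc
  set W : Finset ι := univ.filter (fun v => c < dot n (𝒩.z v)) with hW
  have mW : ∀ v, v ∈ W ↔ c < dot n (𝒩.z v) := fun v => by simp [hW]
  -- the reversed dart is in the boundary of W
  have hrev : 𝒩.rev d ∈ 𝒩.bd W := by
    rw [mem_bd, 𝒩.rev_rev, mW, mW, 𝒩.z_rev d hd, dot_add_right, dot_smul_right]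
    refine ⟨?_, Or.inr (by simp [hc])⟩
    have := 𝒩.len_pos d hd
    nlinarith [mul_pos this h]
  have hbal := 𝒩.sum_bd W n
  -- split
  have h1 : ∑ b ∈ 𝒩.bd W, dot n (𝒩.dir b) =
      ∑ b ∈ 𝒩.bd W, max (dot n (𝒩.dir b)) 0 - ∑ b ∈ 𝒩.bd W, max (-dot n (𝒩.dir b)) 0 := by
    rw [← Finset.sum_sub_distrib]
    apply Finset.sum_congr rfl
    intro b _
    rcases le_total 0 (dot n (𝒩.dir b)) with h | h
    · rw [max_eq_left h, max_eq_right (by linarith)]; ring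
    · rw [max_eq_right h, max_eq_left (by linarith)]; ring
  have h2 : dot n (𝒩.dir d) ≤ ∑ b ∈ 𝒩.bd W, max (-dot n (𝒩.dir b)) 0 := by
    have := Finset.single_le_sum (f := fun b => max (-dot n (𝒩.dir b)) 0)
      (fun b _ => le_max_right _ _) hrev
    rw [𝒩.dir_rev d hd, dot_neg_right, neg_neg, max_eq_left h.le] at this
    exact this
  -- positive part only from rays
  have h3 : ∑ b ∈ 𝒩.bd W, max (dot n (𝒩.dir b)) 0 ≤
      ∑ b ∈ 𝒩.bd univ, max (dot n (𝒩.dir b)) 0 := by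
    have h4 : ∑ b ∈ 𝒩.bd W, max (dot n (𝒩.dir b)) 0 =
        ∑ b ∈ (𝒩.bd W).filter (fun b => 𝒩.rev b = b), max (dot n (𝒩.dir b)) 0 := by
      symm
      apply Finset.sum_subset (Finset.filter_subset _ _)
      intro b hb hb'
      rw [Finset.mem_filter, not_and] at hb'
      have hbne := hb' hb
      rw [mem_bd] at hb
      have hbout : 𝒩.src (𝒩.rev b) ∉ W := by tauto
      rw [mW, 𝒩.z_rev b hbne, dot_add_right, dot_smul_right, not_lt] at hbout
      have hbin := (mW _).mp hb.1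
      have hl := 𝒩.len_pos b hbne
      apply max_eq_right
      by_contra hcon
      push Not at hcon
      nlinarith [mul_pos hl hcon]
    rw [h4]
    apply Finset.sum_le_sum_of_subset_of_nonneg
    · intro b hb
      rw [Finset.mem_filter] at hb
      rw [mem_bd_univ]
      exact hb.2
    · intro b _ _
      exact le_max_right _ _
  have h5 : ∑ b ∈ 𝒩.bd univ, max (dot n (𝒩.dir b)) 0 =
      (1 / 2) * ∑ b ∈ 𝒩.bd univ, |dot n (𝒩.dir b)| := by
    have h6 : ∑ b ∈ 𝒩.bd univ, |dot n (𝒩.dir b)| =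
        2 * ∑ b ∈ 𝒩.bd univ, max (dot n (𝒩.dir b)) 0 - ∑ b ∈ 𝒩.bd univ, dot n (𝒩.dir b) := by
      rw [Finset.mul_sum, ← Finset.sum_sub_distrib]
      apply Finset.sum_congr rfl
      intro b _
      rcases le_total 0 (dot n (𝒩.dir b)) with h | h
      · rw [max_eq_left h, abs_of_nonneg h]; ring
      · rw [max_eq_right h, abs_of_nonpos h]; ring
    rw [h6, 𝒩.sum_bd univ n]
    ring
  linarith

/-- Flux lemma. -/
lemma flux (d : δ) (n : ℂ) :
    |dot n (𝒩.dir d)| ≤ (1 / 2) * ∑ b ∈ 𝒩.bd univ, |dot n (𝒩.dir b)| := by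
  by_cases hd : 𝒩.rev d = d
  · have hmem : d ∈ 𝒩.bd univ := 𝒩.mem_bd_univ.mpr hd
    have h1 := 𝒩.sum_bd univ n
    rw [← Finset.add_sum_erase _ _ hmem] at h1
    have h2 : |dot n (𝒩.dir d)| ≤ ∑ b ∈ (𝒩.bd univ).erase d, |dot n (𝒩.dir b)| := by
      have : dot n (𝒩.dir d) = - ∑ b ∈ (𝒩.bd univ).erase d, dot n (𝒩.dir b) := by linarith
      rw [this, abs_neg]
      exact Finset.abs_sum_le_sum_abs _ _
    rw [← Finset.add_sum_erase _ _ hmem]
    linarith
  · rcases lt_trichotomy (dot n (𝒩.dir d)) 0 with h | h | h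
    · have h1 := 𝒩.flux_pos (𝒩.rev_ne hd) n (by
        rw [𝒩.dir_rev d hd, dot_neg_right]; linarith)
      rw [𝒩.dir_rev d hd, dot_neg_right] at h1
      rw [abs_of_neg h]
      exact h1
    · rw [h, abs_zero]
      positivity
    · rw [abs_of_pos h]
      exact 𝒩.flux_pos hd n h

/-- The degree of a vertex is at most the number of rays. -/
lemma degree_le (v : ι) :
    (univ.filter fun d => 𝒩.src d = v).card ≤ 𝒩.N univ := by
  set φ : ι → ℂ := fun w => nrm (𝒩.z w - 𝒩.z v) with hφ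
  have hFV := 𝒩.first_variation univ φ
  -- interior darts at `v`
  set A := (𝒩.inn univ).filter (fun d => 𝒩.src d = v) with hA
  set B := (𝒩.bd univ).filter (fun d => 𝒩.src d = v) with hB
  have hcard : (univ.filter fun d => 𝒩.src d = v).card = A.card + B.card := by
    rw [← Finset.card_union_of_disjoint]
    · congr 1
      ext d
      simp only [hA, hB, Finset.mem_union, Finset.mem_filter, mem_inn_univ, mem_bd_univ,
        Finset.mem_univ, true_and]
      tauto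
    · rw [Finset.disjoint_left]
      intro d hd hd'
      simp only [hA, hB, Finset.mem_filter, mem_inn_univ, mem_bd_univ] at hd hd'
      tauto
  -- each interior term is nonnegative
  have hnn : ∀ d ∈ 𝒩.inn univ, 0 ≤ dot (φ (𝒩.src (𝒩.rev d)) - φ (𝒩.src d)) (𝒩.dir d) := by
    intro d hd
    have hne := 𝒩.mem_inn_univ.mp hd
    have hl := 𝒩.len_pos d hne
    have h := nrm_mono (𝒩.z (𝒩.src d) - 𝒩.z v) (𝒩.z (𝒩.src (𝒩.rev d)) - 𝒩.z v)
    have e : 𝒩.z (𝒩.src (𝒩.rev d)) - 𝒩.z v - (𝒩.z (𝒩.src d) - 𝒩.z v) =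
        𝒩.len d • 𝒩.dir d := by
      rw [𝒩.z_rev d hne]; ring
    rw [e, dot_smul_right] at h
    exact nonneg_of_mul_nonneg_right (by linarith) hl |>.trans_eq rfl
  have hone : ∀ d ∈ A, dot (φ (𝒩.src (𝒩.rev d)) - φ (𝒩.src d)) (𝒩.dir d) = 1 := by
    intro d hd
    rw [hA, Finset.mem_filter, mem_inn_univ] at hd
    have hl := 𝒩.len_pos d hd.1
    have e1 : φ (𝒩.src d) = 0 := by simp [hφ, hd.2]
    have e2 : φ (𝒩.src (𝒩.rev d)) = 𝒩.dir d := by
      simp only [hφ]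
      rw [𝒩.z_rev d hd.1, hd.2, add_sub_cancel_left]
      unfold nrm
      rw [norm_smul, 𝒩.norm_dir, mul_one, Real.norm_eq_abs, abs_of_pos hl, smul_smul,
        inv_mul_cancel₀ hl.ne', one_smul]
    rw [e1, e2, sub_zero, dot_self, 𝒩.norm_dir]
    norm_num
  set A' := (𝒩.inn univ).filter (fun d => 𝒩.src (𝒩.rev d) = v) with hA'
  have hone' : ∀ d ∈ A', dot (φ (𝒩.src (𝒩.rev d)) - φ (𝒩.src d)) (𝒩.dir d) = 1 := by
    intro d hd
    rw [hA', Finset.mem_filter, mem_inn_univ] at hd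
    have hd' : 𝒩.rev d ∈ A := by
      rw [hA, Finset.mem_filter, mem_inn_univ]
      exact ⟨𝒩.rev_ne hd.1, hd.2⟩
    have := hone _ hd'
    rw [𝒩.rev_rev, 𝒩.dir_rev d hd.1, dot_neg_right, dot_sub_left] at this
    rw [dot_sub_left]
    linarith
  have hcardA : A'.card = A.card := by
    apply Finset.card_bij (fun d _ => 𝒩.rev d)
    · intro d hd
      rw [hA', Finset.mem_filter, mem_inn_univ] at hd
      rw [hA, Finset.mem_filter, mem_inn_univ]
      exact ⟨𝒩.rev_ne hd.1, hd.2⟩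
    · intro a _ b _ h
      exact 𝒩.rev_inj h
    · intro d hd
      rw [hA, Finset.mem_filter, mem_inn_univ] at hd
      refine ⟨𝒩.rev d, ?_, 𝒩.rev_rev d⟩
      rw [hA', Finset.mem_filter, mem_inn_univ]
      exact ⟨𝒩.rev_ne hd.1, by rw [𝒩.rev_rev]; exact hd.2⟩
  have hdisj : Disjoint A A' := by
    rw [Finset.disjoint_left]
    intro d hd hd'
    rw [hA, Finset.mem_filter, mem_inn_univ] at hd
    rw [hA', Finset.mem_filter, mem_inn_univ] at hd'
    have h1 := 𝒩.z_rev d hd.1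
    rw [hd.2, hd'.2] at h1
    have h2 : 𝒩.len d • 𝒩.dir d = 0 := by
      have := congrArg (fun t => t - 𝒩.z v) h1
      simpa using this.symm
    have h3 : ‖𝒩.len d • 𝒩.dir d‖ = 𝒩.len d := by
      rw [norm_smul, 𝒩.norm_dir, mul_one, Real.norm_eq_abs, abs_of_pos (𝒩.len_pos d hd.1)]
    rw [h2, norm_zero] at h3
    exact absurd h3.symm (𝒩.len_pos d hd.1).ne'
  have hlow : (2 * A.card : ℝ) ≤
      ∑ d ∈ 𝒩.inn univ, dot (φ (𝒩.src (𝒩.rev d)) - φ (𝒩.src d)) (𝒩.dir d) := by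
    have hsub : A ∪ A' ⊆ 𝒩.inn univ :=
      Finset.union_subset (Finset.filter_subset _ _) (Finset.filter_subset _ _)
    have h1 := Finset.sum_le_sum_of_subset_of_nonneg hsub
      (f := fun d => dot (φ (𝒩.src (𝒩.rev d)) - φ (𝒩.src d)) (𝒩.dir d))
      (fun d hd _ => hnn d hd)
    rw [Finset.sum_union hdisj, Finset.sum_congr rfl hone, Finset.sum_congr rfl hone'] at h1
    simp only [Finset.sum_const, nsmul_eq_mul, mul_one] at h1
    rw [hcardA] at h1
    linarith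
  have hup : ∑ d ∈ 𝒩.bd univ, dot (φ (𝒩.src d)) (𝒩.dir d) ≤
      ((𝒩.bd univ).card : ℝ) - B.card := by
    have h1 : ∑ d ∈ 𝒩.bd univ, dot (φ (𝒩.src d)) (𝒩.dir d) =
        ∑ d ∈ B, dot (φ (𝒩.src d)) (𝒩.dir d) +
        ∑ d ∈ (𝒩.bd univ).filter (fun d => ¬ 𝒩.src d = v), dot (φ (𝒩.src d)) (𝒩.dir d) := by
      rw [hB, Finset.sum_filter_add_sum_filter_not]
    have h2 : ∑ d ∈ B, dot (φ (𝒩.src d)) (𝒩.dir d) = 0 := by
      apply Finset.sum_eq_zero
      intro d hd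
      rw [hB, Finset.mem_filter] at hd
      simp [hφ, hd.2]
    have h3 : ∑ d ∈ (𝒩.bd univ).filter (fun d => ¬ 𝒩.src d = v),
        dot (φ (𝒩.src d)) (𝒩.dir d) ≤
        (((𝒩.bd univ).filter (fun d => ¬ 𝒩.src d = v)).card : ℝ) := by
      rw [← nsmul_one, ← Finset.sum_const]
      apply Finset.sum_le_sum
      intro d _
      refine (dot_le _ _).trans ?_
      rw [𝒩.norm_dir, mul_one]
      exact norm_nrm_le _
    have h4 : B.card + ((𝒩.bd univ).filter (fun d => ¬ 𝒩.src d = v)).card =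
        (𝒩.bd univ).card := by
      rw [hB]
      exact Finset.card_filter_add_card_filter_not _
    have h5 : (B.card : ℝ) + (((𝒩.bd univ).filter (fun d => ¬ 𝒩.src d = v)).card : ℝ) =
        ((𝒩.bd univ).card : ℝ) := by exact_mod_cast h4
    linarith
  have : (A.card + B.card : ℝ) ≤ (𝒩.bd univ).card := by linarith
  rw [hcard]
  unfold N
  exact_mod_cast this

end DartNet

end

end Pool.Agent.Lib.Pb48dd4
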