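import Pool.Agent.Lib.Pb48dd4.Cover

/-!
# The conic lemma

If many darts leave every small ball about `q`, the net is nearly radial far from `q`.

Auxiliary file for MP_b48dd4_gt.
-/

namespace Pool.Agent.Lib.Pb48dd4

open Finset MeasureTheory
open scoped Classical

noncomputable section

/-! ### The test function -/

/-- Huber function. -/
def hub (ρ : ℝ) (x : ℂ) : ℝ := if ‖x‖ ≤ ρ then ‖x‖ ^ 2 / (2 * ρ) else ‖x‖ - ρ / 2

/-- Affine function. -/
def aff (ρ l h : ℝ) (u x : ℂ) : ℝ := l * dot u x - ρ / 2 - h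

/-- Subgradient field of `max (hub ρ) (aff ρ l h u)`. -/
def fld (ρ l h : ℝ) (u x : ℂ) : ℂ :=
  if ‖x‖ ≤ ρ then ρ⁻¹ • x else if aff ρ l h u x ≤ ‖x‖ - ρ / 2 then nrm x else l • u

lemma hub_ge {ρ : ℝ} (hρ : 0 < ρ) {p : ℂ} (hp : ‖p‖ ≤ 1) (y : ℂ) :
    dot p y - ρ * ‖p‖ ^ 2 / 2 ≤ hub ρ y := by
  have h1 := dot_le p y
  have hp0 := norm_nonneg p
  have hy0 := norm_nonneg y
  unfold hub
  split_ifs with h
  · rw [le_div_iff₀ (by positivity)]
    nlinarith [sq_nonneg (‖y‖ - ρ * ‖p‖)]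
  · push Not at h
    nlinarith [mul_nonneg hρ.le (mul_self_nonneg (1 - ‖p‖)), mul_nonneg (sub_nonneg.mpr hp)
      (sub_nonneg.mpr h.le)]

lemma aff_le_hub {ρ l : ℝ} (hρ : 0 < ρ) (hl : 1 ≤ l) {u : ℂ} (hu : ‖u‖ = 1) {x : ℂ}
    (hx : ‖x‖ ≤ ρ) : aff ρ l ((l - 1) * ρ) u x ≤ hub ρ x := by
  have h1 := dot_le u x
  rw [hu, one_mul] at h1
  unfold hub aff
  rw [if_pos hx, le_div_iff₀ (by positivity)]
  nlinarith [sq_nonneg (‖x‖ - ρ), mul_nonneg (mul_nonneg (sub_nonneg.mpr hl) hρ.le)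
    (sub_nonneg.mpr hx), mul_le_mul_of_nonneg_left h1 (show 0 ≤ l * ρ by positivity)]

/-- Subgradient inequality for `F = max hub aff`. -/
lemma fld_subgradient {ρ l : ℝ} (hρ : 0 < ρ) (hl : 1 ≤ l) {u : ℂ} (hu : ‖u‖ = 1) (x y : ℂ) :
    max (hub ρ x) (aff ρ l ((l - 1) * ρ) u x) + dot (fld ρ l ((l - 1) * ρ) u x) (y - x) ≤
      max (hub ρ y) (aff ρ l ((l - 1) * ρ) u y) := by
  unfold fld
  split_ifs with h1 h2
  · rw [max_eq_left (aff_le_hub hρ hl hu h1)]
    apply le_max_of_le_left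
    have hp : ‖(ρ⁻¹ : ℝ) • x‖ ≤ 1 := by
      rw [norm_smul, norm_inv, Real.norm_eq_abs, abs_of_pos hρ, inv_mul_le_iff₀ hρ]
      linarith
    have h3 := hub_ge hρ hp y
    have h4 : hub ρ x = ‖x‖ ^ 2 / (2 * ρ) := by unfold hub; rw [if_pos h1]
    have h5 : ρ * ‖(ρ⁻¹ : ℝ) • x‖ ^ 2 / 2 = ‖x‖ ^ 2 / (2 * ρ) := by
      rw [norm_smul, norm_inv, Real.norm_eq_abs, abs_of_pos hρ]
      field_simp
    have h6 : dot ((ρ⁻¹ : ℝ) • x) x = ‖x‖ ^ 2 / ρ := by
      rw [dot_smul_left, dot_self]; field_simp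
    rw [dot_sub_right, h6, h4]
    rw [h5] at h3
    have h7 : ‖x‖ ^ 2 / ρ = 2 * (‖x‖ ^ 2 / (2 * ρ)) := by field_simp
    rw [h7]
    linarith
  · push Not at h1
    have h4 : hub ρ x = ‖x‖ - ρ / 2 := by unfold hub; rw [if_neg (not_le.mpr h1)]
    rw [h4, max_eq_left h2]
    apply le_max_of_le_left
    have hx : x ≠ 0 := by
      intro h; rw [h, norm_zero] at h1; linarith
    have h3 := hub_ge hρ (p := nrm x) (norm_nrm_le x) y
    rw [norm_nrm hx] at h3
    rw [dot_sub_right, dot_nrm_self]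
    linarith
  · push Not at h1 h2
    have h4 : hub ρ x = ‖x‖ - ρ / 2 := by unfold hub; rw [if_neg (not_le.mpr h1)]
    rw [h4, max_eq_right h2.le]
    apply le_max_of_le_right
    unfold aff
    rw [dot_smul_left, dot_sub_right]
    linarith

lemma fld_mono {ρ l : ℝ} (hρ : 0 < ρ) (hl : 1 ≤ l) {u : ℂ} (hu : ‖u‖ = 1) (x y : ℂ) :
    0 ≤ dot (fld ρ l ((l - 1) * ρ) u y - fld ρ l ((l - 1) * ρ) u x) (y - x) := by
  have h1 := fld_subgradient hρ hl hu x y
  have h2 := fld_subgradient hρ hl hu y x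
  have h3 : dot (fld ρ l ((l - 1) * ρ) u y) (x - y) =
      -dot (fld ρ l ((l - 1) * ρ) u y) (y - x) := by
    rw [← dot_neg_right, neg_sub]
  rw [dot_sub_left]
  linarith

lemma fld_norm_le {ρ l : ℝ} (hρ : 0 < ρ) (hl : 1 ≤ l) {u : ℂ} (hu : ‖u‖ = 1) (x : ℂ) :
    ‖fld ρ l ((l - 1) * ρ) u x‖ ≤ l := by
  unfold fld
  split_ifs with h1 h2
  · refine le_trans ?_ hl
    rw [norm_smul, norm_inv, Real.norm_eq_abs, abs_of_pos hρ, inv_mul_le_iff₀ hρ]
    linarith
  · exact (norm_nrm_le x).trans hl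
  · rw [norm_smul, hu, mul_one, Real.norm_eq_abs, abs_of_nonneg (by linarith)]

/-- A point of norm `ρ` on a segment. -/
lemma exists_norm_eq {ρ : ℝ} {x τ : ℂ} {t : ℝ} (ht : 0 ≤ t) (h1 : ‖x‖ ≤ ρ)
    (h2 : ρ ≤ ‖x + t • τ‖) : ∃ s ∈ Set.Icc 0 t, ‖x + s • τ‖ = ρ := by
  have hcont : ContinuousOn (fun s : ℝ => ‖x + s • τ‖) (Set.Icc 0 t) := by fun_prop
  have := intermediate_value_Icc ht hcont
  obtain ⟨s, hs, hs'⟩ := this ⟨by simpa using h1, h2⟩
  exact ⟨s, hs, hs'⟩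

lemma exists_norm_eq' {ρ : ℝ} {x τ : ℂ} {t : ℝ} (ht : 0 ≤ t) (h1 : ρ ≤ ‖x‖)
    (h2 : ‖x + t • τ‖ ≤ ρ) : ∃ s ∈ Set.Icc 0 t, ‖x + s • τ‖ = ρ := by
  have hcont : ContinuousOn (fun s : ℝ => ‖x + s • τ‖) (Set.Icc 0 t) := by fun_prop
  have := intermediate_value_Icc' ht hcont
  obtain ⟨s, hs, hs'⟩ := this ⟨h2, by simpa using h1⟩
  exact ⟨s, hs, hs'⟩

/-- Normalised truncated radius. -/
def trad (ρ : ℝ) (x : ℂ) : ℝ := min ‖x‖ ρ / ρ

lemma trad_le_one {ρ : ℝ} (hρ : 0 < ρ) (x : ℂ) : trad ρ x ≤ 1 := by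
  unfold trad
  rw [div_le_one hρ]
  exact min_le_right _ _

/-- Key edge inequality. -/
lemma edge_ineq {ρ l : ℝ} (hρ : 0 < ρ) (hl : 1 ≤ l) {u : ℂ} (hu : ‖u‖ = 1) {x τ : ℂ}
    (hτ : ‖τ‖ = 1) {t : ℝ} (ht : 0 < t) :
    |trad ρ (x + t • τ) - trad ρ x| ≤
      dot (fld ρ l ((l - 1) * ρ) u (x + t • τ) - fld ρ l ((l - 1) * ρ) u x) τ := by
  set φ := fld ρ l ((l - 1) * ρ) u with hφ
  -- monotonicity along the line
  have hmono : ∀ s s' : ℝ, s ≤ s' → 0 ≤ dot (φ (x + s' • τ) - φ (x + s • τ)) τ := by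
    intro s s' hss
    rcases hss.eq_or_lt with h | h
    · rw [h, sub_self, dot_zero_left]
    · have h1 := fld_mono hρ hl hu (x + s • τ) (x + s' • τ)
      rw [show x + s' • τ - (x + s • τ) = (s' - s) • τ by rw [sub_smul]; ring,
        dot_smul_right] at h1
      exact nonneg_of_mul_nonneg_right h1 (by linarith)
  have hx0 : x = x + (0 : ℝ) • τ := by simp
  -- inside the ball the field is x/ρ
  have hin : ∀ y, ‖y‖ ≤ ρ → φ y = ρ⁻¹ • y := by
    intro y hy
    simp only [hφ, fld, if_pos hy]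
  have hττ : dot τ τ = 1 := by rw [dot_self, hτ]; norm_num
  rcases le_total ‖x‖ ρ with hx | hx
  · rcases le_total ‖x + t • τ‖ ρ with hy | hy
    · rw [hin _ hx, hin _ hy]
      unfold trad
      rw [min_eq_left hx, min_eq_left hy, ← sub_div, abs_div, abs_of_pos hρ,
        div_le_iff₀ hρ, ← smul_sub, add_sub_cancel_left, dot_smul_left, dot_smul_left, hττ]
      have h1 : |‖x + t • τ‖ - ‖x‖| ≤ t := by
        have := abs_norm_sub_norm_le (x + t • τ) x
        rw [add_sub_cancel_left, norm_smul, hτ, mul_one, Real.norm_eq_abs,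
          abs_of_pos ht] at this
        exact this
      have h2 : ρ⁻¹ * (t * 1) * ρ = t := by field_simp
      rw [h2]; exact h1
    · obtain ⟨s, hs, hs'⟩ := exists_norm_eq ht.le hx hy
      have h1 := hmono s t hs.2
      have h2 : dot (φ (x + s • τ) - φ x) τ = s / ρ := by
        rw [hin _ hx, hin _ hs'.le, ← smul_sub, add_sub_cancel_left, dot_smul_left,
          dot_smul_left, hττ]
        field_simp
      have h3 : dot (φ (x + t • τ) - φ x) τ =
          dot (φ (x + t • τ) - φ (x + s • τ)) τ + dot (φ (x + s • τ) - φ x) τ := by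
        rw [dot_sub_left, dot_sub_left, dot_sub_left]; ring
      rw [h3, h2]
      unfold trad
      rw [min_eq_right hy, min_eq_left hx, ← sub_div,
        abs_of_nonneg (div_nonneg (by linarith) hρ.le)]
      have h4 : ρ - ‖x‖ ≤ s := by
        have := norm_add_le x (s • τ)
        rw [hs', norm_smul, hτ, mul_one, Real.norm_eq_abs, abs_of_nonneg hs.1] at this
        linarith
      have h5 : (ρ - ‖x‖) / ρ ≤ s / ρ := div_le_div_of_nonneg_right h4 hρ.le
      linarith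
  · rcases le_total ‖x + t • τ‖ ρ with hy | hy
    · obtain ⟨s, hs, hs'⟩ := exists_norm_eq' ht.le hx hy
      have h1 := hmono 0 s hs.1
      rw [← hx0] at h1
      have h2 : dot (φ (x + t • τ) - φ (x + s • τ)) τ = (t - s) / ρ := by
        rw [hin _ hy, hin _ hs'.le, ← smul_sub,
          show x + t • τ - (x + s • τ) = (t - s) • τ by rw [sub_smul]; ring, dot_smul_left,
          dot_smul_left, hττ]
        field_simp
      have h3 : dot (φ (x + t • τ) - φ x) τ =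
          dot (φ (x + t • τ) - φ (x + s • τ)) τ + dot (φ (x + s • τ) - φ x) τ := by
        rw [dot_sub_left, dot_sub_left, dot_sub_left]; ring
      rw [h3, h2]
      unfold trad
      rw [min_eq_left hy, min_eq_right hx, ← sub_div,
        abs_of_nonpos (div_nonpos_of_nonpos_of_nonneg (by linarith) hρ.le)]
      have h4 : ρ - ‖x + t • τ‖ ≤ t - s := by
        have h5 : x + s • τ = (x + t • τ) + (-(t - s)) • τ := by
          rw [add_assoc, ← add_smul]; ring_nf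
        have := norm_add_le (x + t • τ) ((-(t - s)) • τ)
        rw [← h5, hs', norm_smul, hτ, mul_one, Real.norm_eq_abs, abs_neg,
          abs_of_nonneg (by linarith [hs.2])] at this
        linarith
      have h5 : (ρ - ‖x + t • τ‖) / ρ ≤ (t - s) / ρ := div_le_div_of_nonneg_right h4 hρ.le
      have h6 : -((‖x + t • τ‖ - ρ) / ρ) = (ρ - ‖x + t • τ‖) / ρ := by ring
      rw [h6]
      linarith
    · unfold trad
      rw [min_eq_right hy, min_eq_right hx, sub_self, abs_zero]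
      have := hmono 0 t ht.le
      rw [← hx0] at this
      exact this

/-- Edge inequality with jump at a special vertex. -/
lemma edge_ineq_jump {ρ l : ℝ} (hρ : 0 < ρ) (hl : 1 ≤ l) {u : ℂ} (hu : ‖u‖ = 1) {x τ : ℂ}
    (hτ : ‖τ‖ = 1) {t : ℝ} (ht : 0 < t) (hx : ρ < ‖x‖)
    (hL : aff ρ l ((l - 1) * ρ) u x = ‖x‖ - ρ / 2) :
    |trad ρ (x + t • τ) - trad ρ x| + (l * dot u τ - dot (nrm x) τ) ≤
      dot (fld ρ l ((l - 1) * ρ) u (x + t • τ) - fld ρ l ((l - 1) * ρ) u x) τ := by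
  set φ := fld ρ l ((l - 1) * ρ) u with hφ
  have hφx : φ x = nrm x := by
    simp only [hφ, fld, if_neg (not_le.mpr hx)]
    rw [if_pos hL.le]
  have hubx : hub ρ x = ‖x‖ - ρ / 2 := by unfold hub; rw [if_neg (not_le.mpr hx)]
  have hin : ∀ y, ‖y‖ ≤ ρ → φ y = ρ⁻¹ • y := by
    intro y hy
    simp only [hφ, fld, if_pos hy]
  have hττ : dot τ τ = 1 := by rw [dot_self, hτ]; norm_num
  -- points ahead
  have hahead : ∀ s : ℝ, 0 < s → l * dot u τ ≤ dot (φ (x + s • τ)) τ := by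
    intro s hs
    have h1 := fld_subgradient hρ hl hu (x + s • τ) x
    rw [hubx, hL, max_self, show x - (x + s • τ) = (-s) • τ by rw [neg_smul]; ring,
      dot_smul_right] at h1
    have h2 : aff ρ l ((l - 1) * ρ) u (x + s • τ) = ‖x‖ - ρ / 2 + s * (l * dot u τ) := by
      rw [← hL]
      unfold aff
      rw [dot_add_right, dot_smul_right]
      ring
    have h3 := le_max_right (hub ρ (x + s • τ)) (aff ρ l ((l - 1) * ρ) u (x + s • τ))
    rw [h2] at h3 h1
    have h4 : s * (l * dot u τ) ≤ s * dot (φ (x + s • τ)) τ := by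
      simp only [hφ]
      linarith
    exact le_of_mul_le_mul_left h4 hs
  rw [dot_sub_left, hφx]
  rcases le_total ρ ‖x + t • τ‖ with hy | hy
  · unfold trad
    rw [min_eq_right hy, min_eq_right hx.le, sub_self, abs_zero]
    have := hahead t ht
    linarith
  · obtain ⟨s, hs, hs'⟩ := exists_norm_eq' ht.le hx.le hy
    have hs0 : 0 < s := by
      rcases hs.1.eq_or_lt with h | h
      · exfalso
        rw [← h, zero_smul, add_zero] at hs'
        linarith
      · exact h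
    have h1 := hahead s hs0
    have h2 : dot (φ (x + t • τ)) τ = dot (φ (x + s • τ)) τ + (t - s) / ρ := by
      have : dot (φ (x + t • τ) - φ (x + s • τ)) τ = (t - s) / ρ := by
        rw [hin _ hy, hin _ hs'.le, ← smul_sub,
          show x + t • τ - (x + s • τ) = (t - s) • τ by rw [sub_smul]; ring, dot_smul_left,
          dot_smul_left, hττ]
        field_simp
      rw [dot_sub_left] at this
      linarith
    unfold trad
    rw [min_eq_left hy, min_eq_right hx.le, ← sub_div,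
      abs_of_nonpos (div_nonpos_of_nonpos_of_nonneg (by linarith) hρ.le)]
    have h4 : ρ - ‖x + t • τ‖ ≤ t - s := by
      have h5 : x + s • τ = (x + t • τ) + (-(t - s)) • τ := by
        rw [add_assoc, ← add_smul]; ring_nf
      have := norm_add_le (x + t • τ) ((-(t - s)) • τ)
      rw [← h5, hs', norm_smul, hτ, mul_one, Real.norm_eq_abs, abs_neg,
        abs_of_nonneg (by linarith [hs.2])] at this
      linarith
    have h5 : (ρ - ‖x + t • τ‖) / ρ ≤ (t - s) / ρ := div_le_div_of_nonneg_right h4 hρ.le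
    have h6 : -((‖x + t • τ‖ - ρ) / ρ) = (ρ - ‖x + t • τ‖) / ρ := by ring
    rw [h6]
    linarith

/-- Choice of the unit vector `u`. -/
lemma exists_u {l κ : ℝ} (hl : 1 ≤ l) (hκ0 : 0 ≤ κ) (hκ : κ ≤ (l - 1) / 2) {a τ : ℂ}
    (ha : ‖a‖ = 1) (hτ : ‖τ‖ = 1) :
    ∃ u : ℂ, ‖u‖ = 1 ∧ l * dot u a = 1 + κ ∧
      Real.sqrt (l - 1) * |crs a τ| - κ ≤ l * dot u τ - dot a τ := by
  obtain ⟨b, hb1, hb2, hb3⟩ : ∃ b : ℂ, ‖b‖ = 1 ∧ dot a b = 0 ∧ dot b τ = |crs a τ| := by
    have hn : ‖Complex.I * a‖ = 1 := by rw [norm_mul, Complex.norm_I, one_mul, ha]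
    have h1 : dot a (Complex.I * a) = 0 := by unfold dot; simp; ring
    have h2 : dot (Complex.I * a) τ = crs a τ := by unfold dot crs; simp; ring
    rcases le_total 0 (crs a τ) with h | h
    · exact ⟨Complex.I * a, hn, h1, by rw [h2, abs_of_nonneg h]⟩
    · exact ⟨-(Complex.I * a), by rw [norm_neg, hn], by rw [dot_neg_right, h1, neg_zero],
        by rw [dot_neg_left, h2, abs_of_nonpos h]⟩
  have hl0 : 0 < l := by linarith
  set α := (1 + κ) / l with hα
  have hα0 : 0 ≤ α := by positivity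
  have hα1 : α ≤ 1 := by
    rw [hα, div_le_one hl0]; linarith
  have hsq : 0 ≤ 1 - α ^ 2 := by nlinarith
  set β := Real.sqrt (1 - α ^ 2) with hβ
  have hβsq : β ^ 2 = 1 - α ^ 2 := Real.sq_sqrt hsq
  have hβ0 : 0 ≤ β := Real.sqrt_nonneg _
  have hlα : l * α = 1 + κ := by rw [hα]; field_simp
  refine ⟨α • a + β • b, ?_, ?_, ?_⟩
  · have : ‖α • a + β • b‖ ^ 2 = 1 := by
      rw [norm_add_sq', norm_smul, norm_smul, ha, hb1, dot_smul_left, dot_smul_right, hb2,
        Real.norm_eq_abs, Real.norm_eq_abs, mul_one, mul_one, sq_abs, sq_abs, hβsq]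
      ring
    have h0 := norm_nonneg (α • a + β • b)
    nlinarith
  · rw [dot_add_left, dot_smul_left, dot_smul_left, dot_self, ha, dot_comm b a, hb2, ← hlα]
    ring
  · rw [dot_add_left, dot_smul_left, dot_smul_left, hb3]
    have h1 : -1 ≤ dot a τ := by
      have := neg_le_dot a τ
      rw [ha, hτ] at this
      linarith
    have h2 : Real.sqrt (l - 1) ≤ l * β := by
      apply Real.sqrt_le_iff.mpr
      refine ⟨by positivity, ?_⟩
      rw [mul_pow, hβsq]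
      have : l ^ 2 * (1 - α ^ 2) = l ^ 2 - (l * α) ^ 2 := by ring
      rw [this, hlα]
      nlinarith
    have h3 : Real.sqrt (l - 1) * |crs a τ| ≤ l * β * |crs a τ| :=
      mul_le_mul_of_nonneg_right h2 (abs_nonneg _)
    have h4 : l * (α * dot a τ + β * |crs a τ|) - dot a τ =
        (l * α) * dot a τ + l * β * |crs a τ| - dot a τ := by ring
    rw [h4, hlα]
    nlinarith

variable {ι δ : Type} [Fintype ι] [Fintype δ]

namespace DartNet

variable (𝒩 : DartNet ι δ)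

/-- Vertices in the open ball of radius `s` about `q`. -/
def ball (q : ℂ) (s : ℝ) : Finset ι := univ.filter fun v => ‖𝒩.z v - q‖ < s

lemma mem_ball {q : ℂ} {s : ℝ} {v : ι} : v ∈ 𝒩.ball q s ↔ ‖𝒩.z v - q‖ < s := by
  simp [ball]

/-- Number of darts leaving a ball. -/
lemma N_ball (q : ℂ) (s : ℝ) :
    (𝒩.N (𝒩.ball q s) : ℝ) =
      ∑ d ∈ 𝒩.bd univ, (if ‖𝒩.z (𝒩.src d) - q‖ < s then (1 : ℝ) else 0) +
      ∑ d ∈ 𝒩.inn univ, (if ‖𝒩.z (𝒩.src d) - q‖ < s ∧
        s ≤ ‖𝒩.z (𝒩.src (𝒩.rev d)) - q‖ then (1 : ℝ) else 0) := by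
  unfold N
  rw [Finset.sum_ite, Finset.sum_ite]
  simp only [Finset.sum_const, mul_zero, add_zero, nsmul_eq_mul, mul_one]
  rw [← Nat.cast_add, ← Finset.card_union_of_disjoint]
  · congr 2
    ext d
    simp only [mem_bd, mem_ball, Finset.mem_union, Finset.mem_filter, mem_bd_univ, mem_inn_univ,
      not_lt]
    by_cases hd : 𝒩.rev d = d
    · simp [hd]
    · simp [hd]
  · rw [Finset.disjoint_left]
    intro d hd hd'
    simp only [Finset.mem_filter, mem_bd_univ, mem_inn_univ] at hd hd'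
    exact hd'.1 hd.1

/-- The conic lemma. -/
theorem conic {q : ℂ} {c ρ : ℝ} (hc : 0 < c) (hcρ : c ≤ ρ)
    (hcov : ∀ s, c < s → s ≤ ρ → 𝒩.N univ ≤ 𝒩.N (𝒩.ball q s)) (d₀ : δ)
    (hd₀ : 2 * ρ ≤ ‖𝒩.z (𝒩.src d₀) - q‖) :
    |crs (𝒩.z (𝒩.src d₀) - q) (𝒩.dir d₀)| ≤
      (2 * (𝒩.N univ : ℝ) + 1) * Real.sqrt (c / ρ) * ‖𝒩.z (𝒩.src d₀) - q‖ := by
  have hρ : 0 < ρ := lt_of_lt_of_le hc hcρ
  set n : ℝ := (𝒩.N univ : ℝ) with hn
  have hn0 : 0 ≤ n := by positivity
  set w : ι → ℂ := fun v => 𝒩.z v - q with hw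
  set x := w (𝒩.src d₀) with hx
  set r := ‖x‖ with hr
  have hr2 : 2 * ρ ≤ r := hd₀
  have hr0 : 0 < r := by linarith
  have hx0 : x ≠ 0 := norm_pos_iff.mp hr0
  set l := 1 + c / ρ with hl
  have hcρ0 : 0 < c / ρ := by positivity
  have hl1 : 1 ≤ l := by rw [hl]; linarith
  set κ := (l - 1) * ρ / r with hκ
  have hκ0 : 0 ≤ κ := by
    rw [hκ]; apply div_nonneg _ hr0.le; apply mul_nonneg (by linarith) hρ.le
  have hκ1 : κ ≤ (l - 1) / 2 := by
    rw [hκ, div_le_iff₀ hr0]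
    nlinarith
  obtain ⟨u, hu, hua, hujump⟩ := exists_u hl1 hκ0 hκ1 (norm_nrm hx0) (𝒩.norm_dir d₀)
  -- affine function at x
  have hL : aff ρ l ((l - 1) * ρ) u x = ‖x‖ - ρ / 2 := by
    unfold aff
    have h1 : dot u x = r * dot u (nrm x) := by
      conv_lhs => rw [← norm_smul_nrm x]
      rw [dot_smul_right]
    have h2 : l * dot u x = r * (1 + κ) := by
      rw [h1, ← hua]; ring
    have h3 : r * κ = (l - 1) * ρ := by
      rw [hκ]; field_simp
    rw [h2, mul_add, h3]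
    ring
  set φ : ι → ℂ := fun v => fld ρ l ((l - 1) * ρ) u (w v) with hφ
  have hFV := 𝒩.first_variation univ φ
  -- interior terms
  have hval : ∀ d, 𝒩.rev d ≠ d → |trad ρ (w (𝒩.src (𝒩.rev d))) - trad ρ (w (𝒩.src d))| ≤
      dot (φ (𝒩.src (𝒩.rev d)) - φ (𝒩.src d)) (𝒩.dir d) := by
    intro d hd
    have h1 := edge_ineq hρ hl1 hu (x := w (𝒩.src d)) (𝒩.norm_dir d) (𝒩.len_pos d hd)
    have h2 : w (𝒩.src d) + 𝒩.len d • 𝒩.dir d = w (𝒩.src (𝒩.rev d)) := by
      simp only [hw]; rw [𝒩.z_rev d hd]; ring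
    rw [h2] at h1
    exact h1
  have hvalb : ∀ d, 1 - trad ρ (w (𝒩.src d)) ≤ l - dot (φ (𝒩.src d)) (𝒩.dir d) := by
    intro d
    by_cases hin : ‖w (𝒩.src d)‖ ≤ ρ
    · have h1 : φ (𝒩.src d) = ρ⁻¹ • w (𝒩.src d) := by
        simp only [hφ, fld, if_pos hin]
      have h2 := dot_le (φ (𝒩.src d)) (𝒩.dir d)
      rw [𝒩.norm_dir, mul_one, h1, norm_smul, norm_inv, Real.norm_eq_abs, abs_of_pos hρ] at h2
      unfold trad
      rw [min_eq_left hin, h1]
      have h3 : ρ⁻¹ * ‖w (𝒩.src d)‖ = ‖w (𝒩.src d)‖ / ρ := by field_simp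
      rw [h3] at h2
      linarith
    · push Not at hin
      have h2 := dot_le (φ (𝒩.src d)) (𝒩.dir d)
      rw [𝒩.norm_dir, mul_one] at h2
      have h3 := fld_norm_le hρ hl1 hu (w (𝒩.src d))
      unfold trad
      rw [min_eq_right hin.le, div_self hρ.ne']
      simp only [hφ] at h2 ⊢
      linarith
  -- coverage
  have hcover : n * (1 - c / ρ) ≤ ∑ d ∈ 𝒩.bd univ, (1 - trad ρ (w (𝒩.src d))) +
      (1 / 2) * ∑ d ∈ 𝒩.inn univ,
        |trad ρ (w (𝒩.src (𝒩.rev d))) - trad ρ (w (𝒩.src d))| := by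
    -- intervals indexed by darts
    set a : δ → ℝ := fun d => ‖w (𝒩.src d)‖ with ha
    set b : δ → ℝ := fun d => if 𝒩.rev d = d then max ρ ‖w (𝒩.src d)‖ else
      max ‖w (𝒩.src d)‖ ‖w (𝒩.src (𝒩.rev d))‖ with hb
    have hab : ∀ d ∈ (univ : Finset δ), a d ≤ b d := by
      intro d _
      simp only [ha, hb]
      split_ifs
      · exact le_max_right _ _
      · exact le_max_left _ _
    have h1 := le_cover (univ : Finset δ) a b (fun _ => 1) hab c ρ n hcρ (fun x => x)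
      (fun _ => 1) (fun x => hasDerivAt_id x) continuous_const (fun _ _ => zero_le_one) (by
        intro s hs1 hs2
        have h2 : n ≤ (𝒩.N (𝒩.ball q s) : ℝ) := by
          rw [hn]; exact_mod_cast hcov s hs1 hs2
        refine h2.trans ?_
        rw [𝒩.N_ball]
        have h3 : (univ : Finset δ) = 𝒩.bd univ ∪ 𝒩.inn univ := by
          ext d
          simp only [Finset.mem_univ, Finset.mem_union, mem_bd_univ, mem_inn_univ, true_iff]
          exact em _
        have h4 : Disjoint (𝒩.bd univ) (𝒩.inn univ) := by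
          rw [Finset.disjoint_left]
          intro d hd hd'
          exact (𝒩.mem_inn_univ.mp hd') (𝒩.mem_bd_univ.mp hd)
        rw [h3, Finset.sum_union h4]
        apply add_le_add
        · apply Finset.sum_le_sum
          intro d hd
          have hd' := 𝒩.mem_bd_univ.mp hd
          simp only [ha, hb, if_pos hd', hw]
          split_ifs with h5 h6 h6
          · exact le_rfl
          · exact absurd ⟨h5, hs2.trans (le_max_left _ _)⟩ h6
          · exact zero_le_one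
          · exact le_rfl
        · apply Finset.sum_le_sum
          intro d hd
          have hd' := 𝒩.mem_inn_univ.mp hd
          simp only [ha, hb, if_neg hd', hw]
          split_ifs with h5 h6 h6
          · exact le_rfl
          · exact absurd ⟨h5.1, h5.2.trans (le_max_right _ _)⟩ h6
          · exact zero_le_one
          · exact le_rfl)
    have h3 : (univ : Finset δ) = 𝒩.bd univ ∪ 𝒩.inn univ := by
      ext d
      simp only [Finset.mem_univ, Finset.mem_union, mem_bd_univ, mem_inn_univ, true_iff]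
      exact em _
    have h4 : Disjoint (𝒩.bd univ) (𝒩.inn univ) := by
      rw [Finset.disjoint_left]
      intro d hd hd'
      exact (𝒩.mem_inn_univ.mp hd') (𝒩.mem_bd_univ.mp hd)
    rw [h3, Finset.sum_union h4] at h1
    -- bound each term
    have hb1 : ∑ d ∈ 𝒩.bd univ, 1 * (clamp c ρ (b d) - clamp c ρ (a d)) ≤
        ρ * ∑ d ∈ 𝒩.bd univ, (1 - trad ρ (w (𝒩.src d))) := by
      rw [Finset.mul_sum]
      apply Finset.sum_le_sum
      intro d hd
      have hd' := 𝒩.mem_bd_univ.mp hd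
      have e1 : clamp c ρ (b d) ≤ ρ := (clamp_mem hcρ _).2
      have e2 : min ‖w (𝒩.src d)‖ ρ ≤ clamp c ρ (a d) := le_max_right _ _
      have e3 : ρ * (1 - trad ρ (w (𝒩.src d))) = ρ - min ‖w (𝒩.src d)‖ ρ := by
        unfold trad; field_simp
      rw [e3]
      linarith
    have hb2 : ∑ d ∈ 𝒩.inn univ, 1 * (clamp c ρ (b d) - clamp c ρ (a d)) ≤
        ρ * ((1 / 2) * ∑ d ∈ 𝒩.inn univ,
          |trad ρ (w (𝒩.src (𝒩.rev d))) - trad ρ (w (𝒩.src d))|) := by
      have e1 : ∀ d ∈ 𝒩.inn univ, 1 * (clamp c ρ (b d) - clamp c ρ (a d)) ≤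
          ρ * max 0 (trad ρ (w (𝒩.src (𝒩.rev d))) - trad ρ (w (𝒩.src d))) := by
        intro d hd
        have hd' := 𝒩.mem_inn_univ.mp hd
        simp only [hb, if_neg hd', ha, one_mul]
        rcases le_total ‖w (𝒩.src (𝒩.rev d))‖ ‖w (𝒩.src d)‖ with h | h
        · rw [max_eq_left h, sub_self]
          positivity
        · rw [max_eq_right h]
          have e2 : ρ * (trad ρ (w (𝒩.src (𝒩.rev d))) - trad ρ (w (𝒩.src d))) =
              min ‖w (𝒩.src (𝒩.rev d))‖ ρ - min ‖w (𝒩.src d)‖ ρ := by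
            unfold trad; field_simp
          have e3 : clamp c ρ ‖w (𝒩.src (𝒩.rev d))‖ - clamp c ρ ‖w (𝒩.src d)‖ ≤
              min ‖w (𝒩.src (𝒩.rev d))‖ ρ - min ‖w (𝒩.src d)‖ ρ := by
            unfold clamp
            have e4 : min ‖w (𝒩.src d)‖ ρ ≤ min ‖w (𝒩.src (𝒩.rev d))‖ ρ :=
              min_le_min h le_rfl
            rcases le_total c (min ‖w (𝒩.src (𝒩.rev d))‖ ρ) with h5 | h5
            · rw [max_eq_right h5]
              have := le_max_right c (min ‖w (𝒩.src d)‖ ρ)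
              linarith
            · rw [max_eq_left h5, max_eq_left (e4.trans h5), sub_self]
              linarith
          have e5 : ρ * (trad ρ (w (𝒩.src (𝒩.rev d))) - trad ρ (w (𝒩.src d))) ≤
              ρ * max 0 (trad ρ (w (𝒩.src (𝒩.rev d))) - trad ρ (w (𝒩.src d))) :=
            mul_le_mul_of_nonneg_left (le_max_right _ _) hρ.le
          linarith
      refine (Finset.sum_le_sum e1).trans ?_
      rw [← Finset.mul_sum]
      apply mul_le_mul_of_nonneg_left _ hρ.le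
      have e6 := 𝒩.sum_inn_rev univ
        (fun d => max 0 (trad ρ (w (𝒩.src (𝒩.rev d))) - trad ρ (w (𝒩.src d))))
      simp only [𝒩.rev_rev] at e6
      have e7 : ∑ d ∈ 𝒩.inn univ, |trad ρ (w (𝒩.src (𝒩.rev d))) - trad ρ (w (𝒩.src d))| =
          ∑ d ∈ 𝒩.inn univ, max 0 (trad ρ (w (𝒩.src (𝒩.rev d))) - trad ρ (w (𝒩.src d))) +
          ∑ d ∈ 𝒩.inn univ, max 0 (trad ρ (w (𝒩.src d)) - trad ρ (w (𝒩.src (𝒩.rev d)))) := by
        rw [← Finset.sum_add_distrib]
        apply Finset.sum_congr rfl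
        intro d _
        rcases le_total (trad ρ (w (𝒩.src d))) (trad ρ (w (𝒩.src (𝒩.rev d)))) with h | h
        · rw [abs_of_nonneg (by linarith), max_eq_right (by linarith),
            max_eq_left (by linarith)]; ring
        · rw [abs_of_nonpos (by linarith), max_eq_left (by linarith),
            max_eq_right (by linarith)]; ring
      rw [e7]
      linarith
    have h5 : n * (ρ - c) ≤ ρ * (∑ d ∈ 𝒩.bd univ, (1 - trad ρ (w (𝒩.src d))) +
        (1 / 2) * ∑ d ∈ 𝒩.inn univ,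
          |trad ρ (w (𝒩.src (𝒩.rev d))) - trad ρ (w (𝒩.src d))|) := by
      rw [mul_add]
      linarith
    have h6 : n * (1 - c / ρ) = n * (ρ - c) / ρ := by field_simp
    rw [h6, div_le_iff₀ hρ]
    linarith
  -- the jump term
  set J := l * dot u (𝒩.dir d₀) - dot (nrm x) (𝒩.dir d₀) with hJ
  have hρx : ρ < ‖x‖ := by rw [← hr]; linarith
  have htotal : n * (1 - c / ρ) + J ≤ l * n := by
    by_cases hd : 𝒩.rev d₀ = d₀
    · have hmem : d₀ ∈ 𝒩.bd univ := 𝒩.mem_bd_univ.mpr hd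
      have hspec : (1 - trad ρ (w (𝒩.src d₀))) + J ≤
          l - dot (φ (𝒩.src d₀)) (𝒩.dir d₀) := by
        have h1 : φ (𝒩.src d₀) = nrm x := by
          simp only [hφ, fld]
          rw [← hx, if_neg (not_le.mpr hρx), if_pos hL.le]
        have h2 : trad ρ (w (𝒩.src d₀)) = 1 := by
          unfold trad
          rw [← hx, min_eq_right hρx.le, div_self hρ.ne']
        have h3 : dot u (𝒩.dir d₀) ≤ 1 := by
          have := dot_le u (𝒩.dir d₀)
          rw [hu, 𝒩.norm_dir] at this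
          linarith
        rw [h1, h2, hJ]
        nlinarith
      have h1 : ∑ d ∈ 𝒩.bd univ, (1 - trad ρ (w (𝒩.src d))) + J ≤
          ∑ d ∈ 𝒩.bd univ, (l - dot (φ (𝒩.src d)) (𝒩.dir d)) := by
        rw [← Finset.add_sum_erase _ _ hmem, ← Finset.add_sum_erase (𝒩.bd univ)
          (fun d => l - dot (φ (𝒩.src d)) (𝒩.dir d)) hmem]
        have := Finset.sum_le_sum (s := (𝒩.bd univ).erase d₀) (fun d _ => hvalb d)
        linarith
      have h2 : ∑ d ∈ 𝒩.inn univ, |trad ρ (w (𝒩.src (𝒩.rev d))) - trad ρ (w (𝒩.src d))| ≤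
          ∑ d ∈ 𝒩.inn univ, dot (φ (𝒩.src (𝒩.rev d)) - φ (𝒩.src d)) (𝒩.dir d) :=
        Finset.sum_le_sum fun d hd => hval d (𝒩.mem_inn_univ.mp hd)
      have h3 : ∑ d ∈ 𝒩.bd univ, (l - dot (φ (𝒩.src d)) (𝒩.dir d)) =
          l * n - ∑ d ∈ 𝒩.bd univ, dot (φ (𝒩.src d)) (𝒩.dir d) := by
        rw [Finset.sum_sub_distrib, Finset.sum_const, nsmul_eq_mul, hn]
        unfold N; ring
      linarith
    · have hmem : d₀ ∈ 𝒩.inn univ := 𝒩.mem_inn_univ.mpr hd
      have hmem' : 𝒩.rev d₀ ∈ 𝒩.inn univ := 𝒩.mem_inn_univ.mpr (𝒩.rev_ne hd)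
      have hspec : |trad ρ (w (𝒩.src (𝒩.rev d₀))) - trad ρ (w (𝒩.src d₀))| + J ≤
          dot (φ (𝒩.src (𝒩.rev d₀)) - φ (𝒩.src d₀)) (𝒩.dir d₀) := by
        have h1 := edge_ineq_jump hρ hl1 hu (x := x) (𝒩.norm_dir d₀) (𝒩.len_pos d₀ hd)
          hρx hL
        have h2 : x + 𝒩.len d₀ • 𝒩.dir d₀ = w (𝒩.src (𝒩.rev d₀)) := by
          simp only [hx, hw]; rw [𝒩.z_rev d₀ hd]; ring
        rw [h2] at h1
        exact h1
      have hspec' : |trad ρ (w (𝒩.src (𝒩.rev (𝒩.rev d₀)))) - trad ρ (w (𝒩.src (𝒩.rev d₀)))|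
          + J ≤ dot (φ (𝒩.src (𝒩.rev (𝒩.rev d₀))) - φ (𝒩.src (𝒩.rev d₀)))
            (𝒩.dir (𝒩.rev d₀)) := by
        rw [𝒩.rev_rev, 𝒩.dir_rev d₀ hd, dot_neg_right, abs_sub_comm]
        rw [dot_sub_left] at hspec ⊢
        linarith
      have h2 : ∑ d ∈ 𝒩.inn univ, |trad ρ (w (𝒩.src (𝒩.rev d))) - trad ρ (w (𝒩.src d))|
          + 2 * J ≤
          ∑ d ∈ 𝒩.inn univ, dot (φ (𝒩.src (𝒩.rev d)) - φ (𝒩.src d)) (𝒩.dir d) := by
        have hmem2 : 𝒩.rev d₀ ∈ (𝒩.inn univ).erase d₀ :=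
          Finset.mem_erase.mpr ⟨hd, hmem'⟩
        rw [← Finset.add_sum_erase _ _ hmem, ← Finset.add_sum_erase _ _ hmem2,
          ← Finset.add_sum_erase (𝒩.inn univ)
          (fun d => dot (φ (𝒩.src (𝒩.rev d)) - φ (𝒩.src d)) (𝒩.dir d)) hmem,
          ← Finset.add_sum_erase ((𝒩.inn univ).erase d₀)
          (fun d => dot (φ (𝒩.src (𝒩.rev d)) - φ (𝒩.src d)) (𝒩.dir d)) hmem2]
        have := Finset.sum_le_sum (s := ((𝒩.inn univ).erase d₀).erase (𝒩.rev d₀))
          (fun d hd' => hval d (𝒩.mem_inn_univ.mp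
            (Finset.mem_of_mem_erase (Finset.mem_of_mem_erase hd'))))
        linarith
      have h1 : ∑ d ∈ 𝒩.bd univ, (1 - trad ρ (w (𝒩.src d))) ≤
          ∑ d ∈ 𝒩.bd univ, (l - dot (φ (𝒩.src d)) (𝒩.dir d)) :=
        Finset.sum_le_sum fun d _ => hvalb d
      have h3 : ∑ d ∈ 𝒩.bd univ, (l - dot (φ (𝒩.src d)) (𝒩.dir d)) =
          l * n - ∑ d ∈ 𝒩.bd univ, dot (φ (𝒩.src d)) (𝒩.dir d) := by
        rw [Finset.sum_sub_distrib, Finset.sum_const, nsmul_eq_mul, hn]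
        unfold N; ring
      linarith
  -- conclusion
  have hlc : l - 1 = c / ρ := by rw [hl]; ring
  have h1 : Real.sqrt (c / ρ) * |crs (nrm x) (𝒩.dir d₀)| ≤
      (2 * n + 1) * (c / ρ) := by
    rw [← hlc] at *
    have : Real.sqrt (l - 1) * |crs (nrm x) (𝒩.dir d₀)| ≤ J + κ := by linarith
    nlinarith
  have hsq : Real.sqrt (c / ρ) * Real.sqrt (c / ρ) = c / ρ := Real.mul_self_sqrt hcρ0.le
  have hsqpos : 0 < Real.sqrt (c / ρ) := Real.sqrt_pos.mpr hcρ0
  have h2 : |crs (nrm x) (𝒩.dir d₀)| ≤ (2 * n + 1) * Real.sqrt (c / ρ) := by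
    have : Real.sqrt (c / ρ) * |crs (nrm x) (𝒩.dir d₀)| ≤
        Real.sqrt (c / ρ) * ((2 * n + 1) * Real.sqrt (c / ρ)) := by
      rw [show Real.sqrt (c / ρ) * ((2 * n + 1) * Real.sqrt (c / ρ)) =
        (2 * n + 1) * (Real.sqrt (c / ρ) * Real.sqrt (c / ρ)) by ring, hsq]
      exact h1
    exact le_of_mul_le_mul_left this hsqpos
  have h3 : |crs x (𝒩.dir d₀)| = r * |crs (nrm x) (𝒩.dir d₀)| := by
    conv_lhs => rw [← norm_smul_nrm x]
    rw [crs_smul_left, abs_mul, abs_of_pos hr0]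
  show |crs x (𝒩.dir d₀)| ≤ _
  rw [h3]
  calc r * |crs (nrm x) (𝒩.dir d₀)| ≤ r * ((2 * n + 1) * Real.sqrt (c / ρ)) :=
        mul_le_mul_of_nonneg_left h2 hr0.le
    _ = (2 * n + 1) * Real.sqrt (c / ρ) * ‖𝒩.z (𝒩.src d₀) - q‖ := by
        rw [hr]; ring

end DartNet

end

end Pool.Agent.Lib.Pb48dd4
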