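import Pool.Agent.Lib.Pb48dd4.Basic

/-!
# Coverage counting by integration

Auxiliary file for MP_b48dd4_gt.
-/

namespace Pool.Agent.Lib.Pb48dd4

open Finset MeasureTheory
open scoped Classical

noncomputable section

/-- Projection onto `[lo, hi]`. -/
def clamp (lo hi x : ℝ) : ℝ := max lo (min x hi)

lemma clamp_mem {lo hi : ℝ} (h : lo ≤ hi) (x : ℝ) : clamp lo hi x ∈ Set.Icc lo hi :=
  ⟨le_max_left _ _, max_le h (min_le_right _ _)⟩

lemma clamp_of_le {lo hi x : ℝ} (h : x ≤ lo) : clamp lo hi x = lo := by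
  unfold clamp
  exact max_eq_left ((min_le_left _ _).trans h)

lemma clamp_of_ge {lo hi x : ℝ} (hlh : lo ≤ hi) (h : hi ≤ x) : clamp lo hi x = hi := by
  unfold clamp
  rw [min_eq_right h, max_eq_right hlh]

lemma clamp_of_mem {lo hi x : ℝ} (h1 : lo ≤ x) (h2 : x ≤ hi) : clamp lo hi x = x := by
  unfold clamp
  rw [min_eq_left h2, max_eq_right h1]

lemma clamp_mono {lo hi x y : ℝ} (h : x ≤ y) : clamp lo hi x ≤ clamp lo hi y :=
  max_le_max le_rfl (min_le_min h le_rfl)

lemma integral_single (a b w lo hi : ℝ) (hab : a ≤ b) (hlh : lo ≤ hi) (H g : ℝ → ℝ)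
    (hH : ∀ x, HasDerivAt H (g x) x) (hg : Continuous g) :
    ∫ x in lo..hi, (if a < x ∧ x ≤ b then w else 0) * g x =
      w * (H (clamp lo hi b) - H (clamp lo hi a)) := by
  have h1 : ∀ x, (if a < x ∧ x ≤ b then w else 0) * g x =
      (Set.Ioc a b).indicator (fun x => w * g x) x := by
    intro x
    rw [Set.indicator_apply]
    by_cases h : a < x ∧ x ≤ b
    · rw [if_pos h, if_pos (show x ∈ Set.Ioc a b from h)]
    · rw [if_neg h, if_neg (show ¬ x ∈ Set.Ioc a b from h), zero_mul]
  simp_rw [h1]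
  rw [intervalIntegral.integral_of_le hlh, setIntegral_indicator measurableSet_Ioc,
    Set.Ioc_inter_Ioc]
  have hFTC : ∀ s t : ℝ, ∫ x in s..t, w * g x = w * (H t - H s) := by
    intro s t
    rw [intervalIntegral.integral_const_mul,
      intervalIntegral.integral_eq_sub_of_hasDerivAt (fun x _ => hH x)
        (hg.intervalIntegrable _ _)]
  by_cases hcase : max lo a ≤ min hi b
  · have e1 : clamp lo hi b = min hi b := by
      unfold clamp
      rw [min_comm b hi]
      exact max_eq_right ((le_max_left _ _).trans hcase)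
    have e2 : clamp lo hi a = max lo a := by
      unfold clamp
      rw [min_eq_left (((le_max_right _ _).trans hcase).trans (min_le_left _ _))]
    rw [e1, e2, ← hFTC, intervalIntegral.integral_of_le hcase]
  · push Not at hcase
    rw [show (lo ⊔ a : ℝ) = max lo a from rfl, show (hi ⊓ b : ℝ) = min hi b from rfl,
      Set.Ioc_eq_empty (not_lt.mpr hcase.le), Measure.restrict_empty, integral_zero_measure]
    have : clamp lo hi b = clamp lo hi a := by
      rcases lt_max_iff.mp hcase with h | h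
      · rcases min_lt_iff.mp h with h' | h'
        · linarith
        · rw [clamp_of_le h'.le, clamp_of_le (hab.trans h'.le)]
      · rcases min_lt_iff.mp h with h' | h'
        · rw [clamp_of_ge hlh h'.le, clamp_of_ge hlh (h'.le.trans hab)]
        · linarith
    rw [this]; ring

lemma intervalIntegrable_single (a b w lo hi : ℝ) (g : ℝ → ℝ) (hg : Continuous g) :
    IntervalIntegrable (fun x => (if a < x ∧ x ≤ b then w else 0) * g x) volume lo hi := by
  have h1 : (fun x => (if a < x ∧ x ≤ b then w else 0) * g x) =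
      (Set.Ioc a b).indicator (fun x => w * g x) := by
    funext x
    rw [Set.indicator_apply]
    by_cases h : a < x ∧ x ≤ b
    · rw [if_pos h, if_pos (show x ∈ Set.Ioc a b from h)]
    · rw [if_neg h, if_neg (show ¬ x ∈ Set.Ioc a b from h), zero_mul]
  rw [h1]
  rw [intervalIntegrable_iff]
  apply Integrable.indicator _ measurableSet_Ioc
  exact (intervalIntegrable_iff.mp ((continuous_const.mul hg).intervalIntegrable lo hi))

/-- Integrating the weighted coverage of finitely many intervals. -/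
lemma integral_cover {κ : Type*} (T : Finset κ) (a b w : κ → ℝ) (hab : ∀ j ∈ T, a j ≤ b j)
    (lo hi : ℝ) (hlh : lo ≤ hi) (H g : ℝ → ℝ) (hH : ∀ x, HasDerivAt H (g x) x)
    (hg : Continuous g) :
    ∫ x in lo..hi, (∑ j ∈ T, if a j < x ∧ x ≤ b j then w j else 0) * g x =
      ∑ j ∈ T, w j * (H (clamp lo hi (b j)) - H (clamp lo hi (a j))) := by
  simp_rw [Finset.sum_mul]
  rw [intervalIntegral.integral_finsetSum]
  · apply Finset.sum_congr rfl
    intro j hj
    exact integral_single _ _ _ _ _ (hab j hj) hlh H g hH hg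
  · intro j _
    exact intervalIntegrable_single _ _ _ _ _ g hg

lemma intervalIntegrable_cover {κ : Type*} (T : Finset κ) (a b w : κ → ℝ)
    (lo hi : ℝ) (g : ℝ → ℝ) (hg : Continuous g) :
    IntervalIntegrable (fun x => (∑ j ∈ T, if a j < x ∧ x ≤ b j then w j else 0) * g x)
      volume lo hi := by
  simp_rw [Finset.sum_mul]
  have := IntervalIntegrable.sum (μ := volume) (a := lo) (b := hi) T
    (f := fun j x => (if a j < x ∧ x ≤ b j then w j else 0) * g x)
    (fun j _ => intervalIntegrable_single _ _ _ _ _ g hg)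
  have e : (fun x => ∑ j ∈ T, (if a j < x ∧ x ≤ b j then w j else 0) * g x) =
      ∑ j ∈ T, fun x => (if a j < x ∧ x ≤ b j then w j else 0) * g x := by
    funext x
    rw [Finset.sum_apply]
  rw [e]
  exact this

/-- Lower bound. -/
lemma le_cover {κ : Type*} (T : Finset κ) (a b w : κ → ℝ) (hab : ∀ j ∈ T, a j ≤ b j)
    (lo hi K : ℝ) (hlh : lo ≤ hi) (H g : ℝ → ℝ) (hH : ∀ x, HasDerivAt H (g x) x)
    (hg : Continuous g) (hg0 : ∀ x ∈ Set.Icc lo hi, 0 ≤ g x)
    (hcov : ∀ x, lo < x → x ≤ hi → K ≤ ∑ j ∈ T, if a j < x ∧ x ≤ b j then w j else 0) :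
    K * (H hi - H lo) ≤ ∑ j ∈ T, w j * (H (clamp lo hi (b j)) - H (clamp lo hi (a j))) := by
  rw [← integral_cover T a b w hab lo hi hlh H g hH hg]
  have h1 : K * (H hi - H lo) = ∫ x in lo..hi, K * g x := by
    rw [intervalIntegral.integral_const_mul,
      intervalIntegral.integral_eq_sub_of_hasDerivAt (fun x _ => hH x)
        (hg.intervalIntegrable _ _)]
  rw [h1]
  apply intervalIntegral.integral_mono_on_of_le_Ioo hlh
    ((continuous_const.mul hg).intervalIntegrable _ _)
    (intervalIntegrable_cover T a b w lo hi g hg)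
  intro x hx
  exact mul_le_mul_of_nonneg_right (hcov x hx.1 hx.2.le) (hg0 x ⟨hx.1.le, hx.2.le⟩)

/-- Upper bound. -/
lemma cover_le {κ : Type*} (T : Finset κ) (a b w : κ → ℝ) (hab : ∀ j ∈ T, a j ≤ b j)
    (lo hi K : ℝ) (hlh : lo ≤ hi) (H g : ℝ → ℝ) (hH : ∀ x, HasDerivAt H (g x) x)
    (hg : Continuous g) (hg0 : ∀ x ∈ Set.Icc lo hi, 0 ≤ g x)
    (hcov : ∀ x, lo < x → x ≤ hi → ∑ j ∈ T, (if a j < x ∧ x ≤ b j then w j else 0) ≤ K) :
    ∑ j ∈ T, w j * (H (clamp lo hi (b j)) - H (clamp lo hi (a j))) ≤ K * (H hi - H lo) := by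
  rw [← integral_cover T a b w hab lo hi hlh H g hH hg]
  have h1 : K * (H hi - H lo) = ∫ x in lo..hi, K * g x := by
    rw [intervalIntegral.integral_const_mul,
      intervalIntegral.integral_eq_sub_of_hasDerivAt (fun x _ => hH x)
        (hg.intervalIntegrable _ _)]
  rw [h1]
  apply intervalIntegral.integral_mono_on_of_le_Ioo hlh
    (intervalIntegrable_cover T a b w lo hi g hg)
    ((continuous_const.mul hg).intervalIntegrable _ _)
  intro x hx
  exact mul_le_mul_of_nonneg_right (hcov x hx.1 hx.2.le) (hg0 x ⟨hx.1.le, hx.2.le⟩)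

end

end Pool.Agent.Lib.Pb48dd4
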