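import Mathlib

/-!
# Geodesic nets and multinets in the Euclidean plane

Definitions for MP_b48dd4_gt.
-/

namespace Pool.Agent.Lib.Pb48dd4

open scoped Classical

noncomputable section

/-- The Euclidean plane. -/
abbrev Plane : Type := EuclideanSpace ℝ (Fin 2)

/-- The unit vector pointing from `p` to `q`. -/
def unitVec (p q : Plane) : Plane := ‖q - p‖⁻¹ • (q - p)

/-- A finite graph in the plane with integer weights on its edges, drawn with straight segments:
`V` is its finite set of vertices (points of the plane) and `w p q` is the weight of the edge
joining `p` and `q`, with `w p q = 0` when `p` and `q` are not joined by an edge. -/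
structure Drawing where
  V : Finset Plane
  w : Plane → Plane → ℕ
  symm : ∀ p q, w p q = w q p
  loopless : ∀ p, w p p = 0
  supported : ∀ p q, w p q ≠ 0 → p ∈ V

namespace Drawing

variable (D : Drawing)

/-- `Imb(p)`: the sum of the unit vectors at `p` along the edges at `p`, with their weights. -/
def Imb (p : Plane) : Plane := ∑ q ∈ D.V, (D.w p q : ℝ) • unitVec p q

/-- The degree: the number of edges at `p`. -/
def degree (p : Plane) : ℕ := (D.V.filter fun q => D.w p q ≠ 0).card

/-- The balanced vertices. -/
def balanced : Finset Plane := D.V.filter fun p => D.Imb p = 0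

/-- The unbalanced vertices. -/
def unbalanced : Finset Plane := D.V.filter fun p => D.Imb p ≠ 0

/-- The total imbalance. -/
def totalImbalance : ℝ := ∑ p ∈ D.unbalanced, ‖D.Imb p‖

/-- `D` is a geodesic multinet: distinct edges meet at most in a common endpoint, every vertex
has degree at least `1` and every balanced vertex has degree at least `3`. It is a geodesic net
when moreover all weights are at most `1`. -/
structure IsGeodesicMultinet : Prop where
  embedded : ∀ p q r s, D.w p q ≠ 0 → D.w r s ≠ 0 → ({p, q} : Set Plane) ≠ {r, s} →
    segment ℝ p q ∩ segment ℝ r s ⊆ {p, q} ∩ {r, s}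
  degree_pos : ∀ p ∈ D.V, 1 ≤ D.degree p
  degree_balanced : ∀ p ∈ D.balanced, 3 ≤ D.degree p

end Drawing

end

end Pool.Agent.Lib.Pb48dd4
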