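import Pool.Agent.Lib.Pb48dd4.Basic

/-!
# The far lemma: radial bundles outside a ball do not interact

Auxiliary file for MP_b48dd4_gt.
-/

namespace Pool.Agent.Lib.Pb48dd4

open Finset
open scoped Classical

noncomputable section

/-- Scale pigeonhole. -/
lemma exists_gap_scale {α : Type*} (B : Finset α) (f : α → ℂ) (θ₀ K : ℝ) (hθ : 0 < θ₀)
    (hK : 1 ≤ K) :
    ∃ j ≤ B.card ^ 2, ∀ b ∈ B, ∀ b' ∈ B,
      ‖f b - f b'‖ ≤ K ^ j * θ₀ ∨ K ^ (j + 1) * θ₀ < ‖f b - f b'‖ := by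
  by_contra hcon
  push Not at hcon
  have hch : ∀ j : ℕ, ∃ p : α × α, j ∈ Finset.range (B.card ^ 2 + 1) →
      p ∈ B ×ˢ B ∧ K ^ j * θ₀ < ‖f p.1 - f p.2‖ ∧ ‖f p.1 - f p.2‖ ≤ K ^ (j + 1) * θ₀ := by
    intro j
    by_cases hj : j ∈ Finset.range (B.card ^ 2 + 1)
    · obtain ⟨b, hb, b', hb', h1, h2⟩ := hcon j (by
        rw [Finset.mem_range] at hj; omega)
      exact ⟨(b, b'), fun _ => ⟨Finset.mem_product.mpr ⟨hb, hb'⟩, h1, h2⟩⟩
    · obtain ⟨b, hb, b', hb', h1, h2⟩ := hcon 0 (Nat.zero_le _)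
      exact ⟨(b, b'), fun h => absurd h hj⟩
  choose p hp using hch
  have hlt : (B ×ˢ B).card < (Finset.range (B.card ^ 2 + 1)).card := by
    rw [Finset.card_product, Finset.card_range]
    nlinarith
  obtain ⟨i, hi, j, hj, hij, hpij⟩ := Finset.exists_ne_map_eq_of_card_lt_of_maps_to hlt
    (f := p) (fun j hj => (hp j hj).1)
  wlog hlt' : i < j generalizing i j
  · exact this j hj i hi hij.symm hpij.symm (lt_of_le_of_ne (not_lt.mp hlt') hij.symm)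
  have h1 := (hp i hi).2.2
  have h2 := (hp j hj).2.1
  rw [hpij] at h1
  have h3 : K ^ (i + 1) * θ₀ ≤ K ^ j * θ₀ :=
    mul_le_mul_of_nonneg_right (pow_le_pow_right₀ hK hlt') hθ.le
  linarith

variable {ι δ : Type} [Fintype ι] [Fintype δ]

namespace DartNet

variable (𝒩 : DartNet ι δ)

/-- Outward darts with respect to the centre `q`. -/
def Out (q : ℂ) (d : δ) : Prop := 0 < dot (𝒩.z (𝒩.src d) - q) (𝒩.dir d)

/-- The net is `ε`-radial with respect to `q` at all vertices of `O`, which is closed under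
outward darts. -/
structure Far (q : ℂ) (ε : ℝ) (O : Finset ι) : Prop where
  ne : ∀ v ∈ O, 𝒩.z v ≠ q
  rad : ∀ d, 𝒩.src d ∈ O →
    |crs (𝒩.z (𝒩.src d) - q) (𝒩.dir d)| ≤ ε * ‖𝒩.z (𝒩.src d) - q‖
  clo : ∀ d, 𝒩.src d ∈ O → 𝒩.rev d ≠ d → 𝒩.Out q d → 𝒩.src (𝒩.rev d) ∈ O

variable {𝒩} {q : ℂ} {ε : ℝ} {O : Finset ι}

lemma Far.coords (h : 𝒩.Far q ε O) {d : δ} (hd : 𝒩.src d ∈ O) :
    ‖nrm (𝒩.z (𝒩.src d) - q)‖ = 1 ∧
    dot (nrm (𝒩.z (𝒩.src d) - q)) (𝒩.dir d) ^ 2 + crs (nrm (𝒩.z (𝒩.src d) - q)) (𝒩.dir d) ^ 2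
      = 1 ∧
    |crs (nrm (𝒩.z (𝒩.src d) - q)) (𝒩.dir d)| ≤ ε ∧
    (𝒩.Out q d ↔ 0 < dot (nrm (𝒩.z (𝒩.src d) - q)) (𝒩.dir d)) := by
  have hne : 𝒩.z (𝒩.src d) - q ≠ 0 := sub_ne_zero.mpr (h.ne _ hd)
  have hpos : 0 < ‖𝒩.z (𝒩.src d) - q‖ := norm_pos_iff.mpr hne
  refine ⟨norm_nrm hne, ?_, ?_, ?_⟩
  · rw [dot_sq_add_crs_sq, norm_nrm hne, 𝒩.norm_dir]; norm_num
  · unfold nrm
    rw [crs_smul_left, abs_mul, abs_of_pos (inv_pos.mpr hpos), inv_mul_le_iff₀ hpos]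
    have := h.rad d hd
    linarith
  · unfold Out nrm
    rw [dot_smul_left]
    constructor
    · intro h'; positivity
    · intro h'
      exact (pos_iff_pos_of_mul_pos h').mp (inv_pos.mpr hpos)

lemma Far.out_dot (h : 𝒩.Far q ε O) {d : δ} (hd : 𝒩.src d ∈ O) (ho : 𝒩.Out q d) :
    1 - ε ^ 2 ≤ dot (nrm (𝒩.z (𝒩.src d) - q)) (𝒩.dir d) := by
  obtain ⟨h1, h2, h3, h4⟩ := h.coords hd
  have h5 := h4.mp ho
  have h6 : crs (nrm (𝒩.z (𝒩.src d) - q)) (𝒩.dir d) ^ 2 ≤ ε ^ 2 := by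
    rw [← sq_abs (crs _ _)]
    exact pow_le_pow_left₀ (abs_nonneg _) h3 2
  have h7 : dot (nrm (𝒩.z (𝒩.src d) - q)) (𝒩.dir d) ≤ 1 := by
    have := dot_le (nrm (𝒩.z (𝒩.src d) - q)) (𝒩.dir d)
    rw [h1, 𝒩.norm_dir] at this
    linarith
  nlinarith

lemma Far.in_dot (h : 𝒩.Far q ε O) {d : δ} (hd : 𝒩.src d ∈ O) (ho : ¬ 𝒩.Out q d) :
    dot (nrm (𝒩.z (𝒩.src d) - q)) (𝒩.dir d) ≤ -(1 - ε ^ 2) := by
  obtain ⟨h1, h2, h3, h4⟩ := h.coords hd
  have h5 : dot (nrm (𝒩.z (𝒩.src d) - q)) (𝒩.dir d) ≤ 0 := by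
    by_contra hcon
    push Not at hcon
    exact ho (h4.mpr hcon)
  have h6 : crs (nrm (𝒩.z (𝒩.src d) - q)) (𝒩.dir d) ^ 2 ≤ ε ^ 2 := by
    rw [← sq_abs (crs _ _)]
    exact pow_le_pow_left₀ (abs_nonneg _) h3 2
  have h7 : -1 ≤ dot (nrm (𝒩.z (𝒩.src d) - q)) (𝒩.dir d) := by
    have := neg_le_dot (nrm (𝒩.z (𝒩.src d) - q)) (𝒩.dir d)
    rw [h1, 𝒩.norm_dir] at this
    linarith
  nlinarith

lemma Far.out_near (h : 𝒩.Far q ε O) (hε : 0 ≤ ε) {d : δ} (hd : 𝒩.src d ∈ O)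
    (ho : 𝒩.Out q d) : ‖𝒩.dir d - nrm (𝒩.z (𝒩.src d) - q)‖ ≤ 2 * ε := by
  have h1 := (h.coords hd).1
  have h2 := h.out_dot hd ho
  apply le_of_sq_le_sq _ (by positivity)
  rw [norm_sub_sq', h1, 𝒩.norm_dir, dot_comm]
  nlinarith [sq_nonneg ε]

lemma Far.in_near (h : 𝒩.Far q ε O) (hε : 0 ≤ ε) {d : δ} (hd : 𝒩.src d ∈ O)
    (ho : ¬ 𝒩.Out q d) : ‖𝒩.dir d + nrm (𝒩.z (𝒩.src d) - q)‖ ≤ 2 * ε := by
  have h1 := (h.coords hd).1
  have h2 := h.in_dot hd ho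
  apply le_of_sq_le_sq _ (by positivity)
  rw [norm_add_sq', h1, 𝒩.norm_dir, dot_comm]
  nlinarith [sq_nonneg ε]

/-- At a vertex of `O` there are at most as many inward as outward darts. -/
lemma Far.card_in_le (h : 𝒩.Far q ε O) (hN : (𝒩.N univ : ℝ) * ε ^ 2 < 1) {v : ι}
    (hv : v ∈ O) :
    (univ.filter fun d => 𝒩.src d = v ∧ ¬ 𝒩.Out q d).card ≤
      (univ.filter fun d => 𝒩.src d = v ∧ 𝒩.Out q d).card := by
  set A := univ.filter fun d => 𝒩.src d = v ∧ ¬ 𝒩.Out q d with hA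
  set B := univ.filter fun d => 𝒩.src d = v ∧ 𝒩.Out q d with hB
  have hsum : ∑ d ∈ univ.filter (fun d => 𝒩.src d = v), dot (nrm (𝒩.z v - q)) (𝒩.dir d) = 0 := by
    rw [← dot_sum_right, 𝒩.bal v, dot_zero_right]
  have hsplit : ∑ d ∈ univ.filter (fun d => 𝒩.src d = v), dot (nrm (𝒩.z v - q)) (𝒩.dir d) =
      ∑ d ∈ B, dot (nrm (𝒩.z v - q)) (𝒩.dir d) + ∑ d ∈ A, dot (nrm (𝒩.z v - q)) (𝒩.dir d) := by
    rw [← Finset.sum_filter_add_sum_filter_not (univ.filter (fun d => 𝒩.src d = v))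
      (fun d => 𝒩.Out q d), hA, hB, Finset.filter_filter, Finset.filter_filter]
  have h1 : ∑ d ∈ B, dot (nrm (𝒩.z v - q)) (𝒩.dir d) ≤ B.card := by
    rw [← nsmul_one, ← Finset.sum_const]
    apply Finset.sum_le_sum
    intro d _
    have := dot_le (nrm (𝒩.z v - q)) (𝒩.dir d)
    rw [𝒩.norm_dir, mul_one] at this
    exact this.trans (norm_nrm_le _)
  have h2 : ∑ d ∈ A, dot (nrm (𝒩.z v - q)) (𝒩.dir d) ≤ -(A.card * (1 - ε ^ 2)) := by
    have : ∑ d ∈ A, dot (nrm (𝒩.z v - q)) (𝒩.dir d) ≤ ∑ d ∈ A, -(1 - ε ^ 2) := by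
      apply Finset.sum_le_sum
      intro d hd
      rw [hA, Finset.mem_filter] at hd
      have := h.in_dot (d := d) (by rw [hd.2.1]; exact hv) hd.2.2
      rw [hd.2.1] at this
      exact this
    rw [Finset.sum_const, nsmul_eq_mul] at this
    linarith
  have h3 : (A.card : ℝ) ≤ 𝒩.N univ := by
    have : A.card ≤ (univ.filter fun d => 𝒩.src d = v).card := by
      apply Finset.card_le_card
      intro d hd
      rw [hA, Finset.mem_filter] at hd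
      rw [Finset.mem_filter]
      exact ⟨hd.1, hd.2.1⟩
    exact_mod_cast this.trans (𝒩.degree_le v)
  by_contra hcon
  push Not at hcon
  have h4 : (B.card : ℝ) + 1 ≤ A.card := by exact_mod_cast hcon
  have h5 : (A.card : ℝ) * ε ^ 2 ≤ 𝒩.N univ * ε ^ 2 :=
    mul_le_mul_of_nonneg_right h3 (sq_nonneg _)
  nlinarith

/-- Subset of `O` closed under outward darts. -/
def OutClosed (𝒩 : DartNet ι δ) (q : ℂ) (S : Finset ι) : Prop :=
  ∀ d, 𝒩.src d ∈ S → 𝒩.rev d ≠ d → 𝒩.Out q d → 𝒩.src (𝒩.rev d) ∈ S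

/-- Outward rays from `S`. -/
def raysOf (𝒩 : DartNet ι δ) (q : ℂ) (S : Finset ι) : Finset δ :=
  univ.filter fun d => 𝒩.src d ∈ S ∧ 𝒩.Out q d ∧ 𝒩.rev d = d

/-- Outward edges from `S`. -/
def radOf (𝒩 : DartNet ι δ) (q : ℂ) (S : Finset ι) : Finset δ :=
  univ.filter fun d => 𝒩.src d ∈ S ∧ 𝒩.Out q d ∧ 𝒩.rev d ≠ d

/-- Inward darts at `S` which are not reversals of outward edges from `S`. -/
def freeOf (𝒩 : DartNet ι δ) (q : ℂ) (S : Finset ι) : Finset δ :=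
  (univ.filter fun d => 𝒩.src d ∈ S ∧ ¬ 𝒩.Out q d) \ (𝒩.radOf q S).image 𝒩.rev

lemma rev_not_out {d : δ} (hne : 𝒩.rev d ≠ d) (ho : 𝒩.Out q d) : ¬ 𝒩.Out q (𝒩.rev d) := by
  unfold Out at ho ⊢
  have hl := 𝒩.len_pos d hne
  rw [𝒩.z_rev d hne, 𝒩.dir_rev d hne, dot_neg_right,
    show 𝒩.z (𝒩.src d) + 𝒩.len d • 𝒩.dir d - q =
      (𝒩.z (𝒩.src d) - q) + 𝒩.len d • 𝒩.dir d by ring, dot_add_left, dot_smul_left,
    dot_self, 𝒩.norm_dir]
  linarith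

lemma rev_norm_lt {d : δ} (hne : 𝒩.rev d ≠ d) (ho : 𝒩.Out q d) :
    ‖𝒩.z (𝒩.src d) - q‖ < ‖𝒩.z (𝒩.src (𝒩.rev d)) - q‖ := by
  unfold Out at ho
  have hl := 𝒩.len_pos d hne
  apply lt_of_pow_lt_pow_left₀ 2 (norm_nonneg _)
  rw [𝒩.z_rev d hne, show 𝒩.z (𝒩.src d) + 𝒩.len d • 𝒩.dir d - q =
      (𝒩.z (𝒩.src d) - q) + 𝒩.len d • 𝒩.dir d by ring, norm_add_sq', dot_smul_right,
      norm_smul, 𝒩.norm_dir, Real.norm_eq_abs, abs_of_pos hl]
  nlinarith [mul_pos hl ho]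

lemma image_rad_subset {S : Finset ι} (hS : 𝒩.OutClosed q S) :
    (𝒩.radOf q S).image 𝒩.rev ⊆ univ.filter fun d => 𝒩.src d ∈ S ∧ ¬ 𝒩.Out q d := by
  intro d hd
  rw [Finset.mem_image] at hd
  obtain ⟨d', hd', rfl⟩ := hd
  rw [radOf, Finset.mem_filter] at hd'
  rw [Finset.mem_filter]
  exact ⟨Finset.mem_univ _, hS d' hd'.2.1 hd'.2.2.2 hd'.2.2.1,
    rev_not_out hd'.2.2.2 hd'.2.2.1⟩

lemma Far.card_in_le' (h : 𝒩.Far q ε O) (hN : (𝒩.N univ : ℝ) * ε ^ 2 < 1) {S : Finset ι}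
    (hSO : S ⊆ O) :
    (univ.filter fun d => 𝒩.src d ∈ S ∧ ¬ 𝒩.Out q d).card ≤
      (univ.filter fun d => 𝒩.src d ∈ S ∧ 𝒩.Out q d).card := by
  rw [Finset.card_eq_sum_card_fiberwise (f := 𝒩.src) (t := S),
    Finset.card_eq_sum_card_fiberwise (f := 𝒩.src) (t := S)]
  · apply Finset.sum_le_sum
    intro v hv
    rw [Finset.filter_filter, Finset.filter_filter]
    have e1 : (univ.filter fun d => (𝒩.src d ∈ S ∧ ¬ 𝒩.Out q d) ∧ 𝒩.src d = v) =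
        univ.filter fun d => 𝒩.src d = v ∧ ¬ 𝒩.Out q d := by
      ext d
      simp only [Finset.mem_filter, Finset.mem_univ, true_and]
      constructor
      · rintro ⟨⟨_, h1⟩, h2⟩; exact ⟨h2, h1⟩
      · rintro ⟨h2, h1⟩; exact ⟨⟨by rw [h2]; exact hv, h1⟩, h2⟩
    have e2 : (univ.filter fun d => (𝒩.src d ∈ S ∧ 𝒩.Out q d) ∧ 𝒩.src d = v) =
        univ.filter fun d => 𝒩.src d = v ∧ 𝒩.Out q d := by
      ext d
      simp only [Finset.mem_filter, Finset.mem_univ, true_and]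
      constructor
      · rintro ⟨⟨_, h1⟩, h2⟩; exact ⟨h2, h1⟩
      · rintro ⟨h2, h1⟩; exact ⟨⟨by rw [h2]; exact hv, h1⟩, h2⟩
    rw [e1, e2]
    exact h.card_in_le hN (hSO hv)
  · intro d hd
    have := (Finset.mem_filter.mp (Finset.mem_coe.mp hd)).2.1
    exact this
  · intro d hd
    have := (Finset.mem_filter.mp (Finset.mem_coe.mp hd)).2.1
    exact this

lemma card_out_split (S : Finset ι) :
    (univ.filter fun d => 𝒩.src d ∈ S ∧ 𝒩.Out q d).card =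
      (𝒩.raysOf q S).card + (𝒩.radOf q S).card := by
  rw [← Finset.card_union_of_disjoint]
  · congr 1
    ext d
    simp only [raysOf, radOf, Finset.mem_union, Finset.mem_filter, Finset.mem_univ, true_and]
    tauto
  · rw [Finset.disjoint_left]
    intro d hd hd'
    simp only [raysOf, radOf, Finset.mem_filter, Finset.mem_univ, true_and] at hd hd'
    tauto

lemma Far.card_free_le (h : 𝒩.Far q ε O) (hN : (𝒩.N univ : ℝ) * ε ^ 2 < 1) {S : Finset ι}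
    (hSO : S ⊆ O) (hS : 𝒩.OutClosed q S) : (𝒩.freeOf q S).card ≤ (𝒩.raysOf q S).card := by
  have h1 := h.card_in_le' hN hSO
  rw [card_out_split] at h1
  have h2 : (𝒩.freeOf q S).card + (𝒩.radOf q S).card =
      (univ.filter fun d => 𝒩.src d ∈ S ∧ ¬ 𝒩.Out q d).card := by
    unfold freeOf
    rw [← Finset.card_image_of_injective (𝒩.radOf q S) 𝒩.rev_inj]
    exact Finset.card_sdiff_add_card_eq_card (image_rad_subset hS)
  omega

lemma sum_free {S : Finset ι} (hS : 𝒩.OutClosed q S) (e : ℂ) :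
    ∑ d ∈ 𝒩.freeOf q S, -dot e (𝒩.dir d) = ∑ d ∈ 𝒩.raysOf q S, dot e (𝒩.dir d) := by
  have h0 := 𝒩.sum_darts_field S (fun _ => e)
  have h1 : ∑ d ∈ 𝒩.darts S, dot e (𝒩.dir d) =
      ∑ d ∈ univ.filter (fun d => 𝒩.src d ∈ S ∧ 𝒩.Out q d), dot e (𝒩.dir d) +
      ∑ d ∈ univ.filter (fun d => 𝒩.src d ∈ S ∧ ¬ 𝒩.Out q d), dot e (𝒩.dir d) := by
    rw [darts, ← Finset.sum_filter_add_sum_filter_not (univ.filter (fun d => 𝒩.src d ∈ S))
      (fun d => 𝒩.Out q d), Finset.filter_filter, Finset.filter_filter]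
  have h2 : ∑ d ∈ univ.filter (fun d => 𝒩.src d ∈ S ∧ 𝒩.Out q d), dot e (𝒩.dir d) =
      ∑ d ∈ 𝒩.raysOf q S, dot e (𝒩.dir d) + ∑ d ∈ 𝒩.radOf q S, dot e (𝒩.dir d) := by
    rw [← Finset.sum_union]
    · apply Finset.sum_congr _ fun _ _ => rfl
      ext d
      simp only [raysOf, radOf, Finset.mem_union, Finset.mem_filter, Finset.mem_univ, true_and]
      tauto
    · rw [Finset.disjoint_left]
      intro d hd hd'
      simp only [raysOf, radOf, Finset.mem_filter, Finset.mem_univ, true_and] at hd hd'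
      tauto
  have h3 : ∑ d ∈ univ.filter (fun d => 𝒩.src d ∈ S ∧ ¬ 𝒩.Out q d), dot e (𝒩.dir d) =
      ∑ d ∈ 𝒩.freeOf q S, dot e (𝒩.dir d) +
      ∑ d ∈ (𝒩.radOf q S).image 𝒩.rev, dot e (𝒩.dir d) := by
    unfold freeOf
    exact (Finset.sum_sdiff (image_rad_subset hS)).symm
  have h4 : ∑ d ∈ (𝒩.radOf q S).image 𝒩.rev, dot e (𝒩.dir d) =
      - ∑ d ∈ 𝒩.radOf q S, dot e (𝒩.dir d) := by
    rw [Finset.sum_image (fun a _ b _ h => 𝒩.rev_inj h), ← Finset.sum_neg_distrib]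
    apply Finset.sum_congr rfl
    intro d hd
    rw [radOf, Finset.mem_filter] at hd
    rw [𝒩.dir_rev d hd.2.2.2, dot_neg_right]
  rw [Finset.sum_neg_distrib]
  rw [h1, h2, h3, h4] at h0
  linarith

lemma N_le_free_rays {S : Finset ι} (hS : 𝒩.OutClosed q S) :
    𝒩.N S ≤ (𝒩.raysOf q S).card + (𝒩.freeOf q S).card := by
  unfold N
  refine (Finset.card_le_card ?_).trans (Finset.card_union_le _ _)
  intro d hd
  rw [mem_bd] at hd
  rw [Finset.mem_union]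
  by_cases ho : 𝒩.Out q d
  · left
    rw [raysOf, Finset.mem_filter]
    refine ⟨Finset.mem_univ _, hd.1, ho, ?_⟩
    by_contra hne
    have := hS d hd.1 hne ho
    tauto
  · right
    rw [freeOf, Finset.mem_sdiff, Finset.mem_filter, Finset.mem_image]
    refine ⟨⟨Finset.mem_univ _, hd.1, ho⟩, ?_⟩
    rintro ⟨d', hd', hrev⟩
    rw [radOf, Finset.mem_filter] at hd'
    have h1 : 𝒩.rev d = d' := by rw [← hrev, 𝒩.rev_rev]
    rw [h1] at hd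
    rcases hd.2 with h | h
    · rw [h] at hd'; exact ho hd'.2.2.1
    · exact h hd'.2.1

/-- Directions of free darts are controlled by the rays. -/
lemma Far.free_near (h : 𝒩.Far q ε O) (hN : (𝒩.N univ : ℝ) * ε ^ 2 < 1) {S : Finset ι}
    (hSO : S ⊆ O) (hS : 𝒩.OutClosed q S) {e : ℂ} (he : ‖e‖ = 1) {θ : ℝ}
    (hθ : ∀ d ∈ 𝒩.raysOf q S, ‖𝒩.dir d - e‖ ≤ θ) {d : δ} (hd : d ∈ 𝒩.freeOf q S) :
    ‖-𝒩.dir d - e‖ ^ 2 ≤ (𝒩.N univ : ℝ) * θ ^ 2 := by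
  have hterm : ∀ d, 0 ≤ 1 - -dot e (𝒩.dir d) := by
    intro d
    have := neg_le_dot e (𝒩.dir d)
    rw [he, 𝒩.norm_dir] at this
    linarith
  have h1 : 1 - -dot e (𝒩.dir d) ≤ ∑ d ∈ 𝒩.freeOf q S, (1 - -dot e (𝒩.dir d)) :=
    Finset.single_le_sum (f := fun d => 1 - -dot e (𝒩.dir d)) (fun d _ => hterm d) hd
  rw [Finset.sum_sub_distrib, sum_free hS] at h1
  simp only [Finset.sum_const, nsmul_eq_mul, mul_one] at h1
  have h2 : ((𝒩.freeOf q S).card : ℝ) ≤ (𝒩.raysOf q S).card := by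
    exact_mod_cast h.card_free_le hN hSO hS
  have h3 : ((𝒩.raysOf q S).card : ℝ) - ∑ d ∈ 𝒩.raysOf q S, dot e (𝒩.dir d) =
      ∑ d ∈ 𝒩.raysOf q S, (1 - dot e (𝒩.dir d)) := by
    rw [Finset.sum_sub_distrib]; simp
  have h4 : ∑ d ∈ 𝒩.raysOf q S, (1 - dot e (𝒩.dir d)) ≤
      (𝒩.raysOf q S).card * (θ ^ 2 / 2) := by
    rw [← nsmul_eq_mul, ← Finset.sum_const]
    apply Finset.sum_le_sum
    intro d hd
    rw [one_sub_dot he (𝒩.norm_dir d), norm_sub_rev]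
    have := hθ d hd
    have := pow_le_pow_left₀ (norm_nonneg _) this 2
    linarith
  have h5 : ((𝒩.raysOf q S).card : ℝ) ≤ 𝒩.N univ := by
    unfold N
    have : (𝒩.raysOf q S).card ≤ (𝒩.bd univ).card := by
      apply Finset.card_le_card
      intro d hd
      rw [raysOf, Finset.mem_filter] at hd
      exact 𝒩.mem_bd_univ.mpr hd.2.2.2
    exact_mod_cast this
  have h6 : ‖-𝒩.dir d - e‖ ^ 2 = 2 * (1 - -dot e (𝒩.dir d)) := by
    rw [norm_sub_sq', norm_neg, 𝒩.norm_dir, he, dot_neg_left, dot_comm e]; ring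
  rw [h6]
  have h7 : ((𝒩.raysOf q S).card : ℝ) * (θ ^ 2 / 2) ≤ 𝒩.N univ * (θ ^ 2 / 2) :=
    mul_le_mul_of_nonneg_right h5 (by positivity)
  linarith

/-- The class of a ray direction: vertices of `O` seen from `q` in nearly that direction. -/
def cls (𝒩 : DartNet ι δ) (q : ℂ) (O : Finset ι) (θ ω : ℝ) (b : δ) : Finset ι :=
  O.filter fun v => ∃ b' ∈ 𝒩.bd univ, ‖𝒩.dir b' - 𝒩.dir b‖ ≤ θ ∧
    ‖nrm (𝒩.z v - q) - 𝒩.dir b'‖ ≤ ω

/-- Far lemma. -/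
theorem Far.main (h : 𝒩.Far q ε O) (hN : (𝒩.N univ : ℝ) * ε ^ 2 < 1) (hε : 0 ≤ ε) {θ : ℝ}
    (hεθ : ε ≤ θ)
    (hgap : ∀ b ∈ 𝒩.bd univ, ∀ b' ∈ 𝒩.bd univ, ‖𝒩.dir b - 𝒩.dir b'‖ ≤ θ ∨
      8 * ((𝒩.N univ : ℝ) + 3) * θ < ‖𝒩.dir b - 𝒩.dir b'‖) :
    (∀ v ∈ O, ∃ b ∈ 𝒩.bd univ, v ∈ 𝒩.cls q O θ (((𝒩.N univ : ℝ) + 3) * θ) b) ∧
    ∀ b ∈ 𝒩.bd univ, 𝒩.N (𝒩.cls q O θ (((𝒩.N univ : ℝ) + 3) * θ) b) ≤
      2 * ((𝒩.bd univ).filter fun b' => ‖𝒩.dir b' - 𝒩.dir b‖ ≤ θ).card := by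
  set n : ℝ := (𝒩.N univ : ℝ) with hn
  have hn0 : 0 ≤ n := by positivity
  have hθ0 : 0 ≤ θ := hε.trans hεθ
  set ω := (n + 3) * θ with hω
  -- neighbouring vertices along an outward dart have close directions
  have hstep : ∀ d, 𝒩.src d ∈ O → 𝒩.rev d ≠ d → 𝒩.Out q d →
      ‖nrm (𝒩.z (𝒩.src d) - q) - nrm (𝒩.z (𝒩.src (𝒩.rev d)) - q)‖ ≤ 4 * θ := by
    intro d hd hne ho
    have h1 := h.out_near hε hd ho
    have h2 := h.in_near hε (d := 𝒩.rev d) (h.clo d hd hne ho) (rev_not_out hne ho)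
    rw [𝒩.dir_rev d hne] at h2
    have h3 : nrm (𝒩.z (𝒩.src d) - q) - nrm (𝒩.z (𝒩.src (𝒩.rev d)) - q) =
        -(𝒩.dir d - nrm (𝒩.z (𝒩.src d) - q)) +
        -(-𝒩.dir d + nrm (𝒩.z (𝒩.src (𝒩.rev d)) - q)) := by ring
    rw [h3]
    refine (norm_add_le _ _).trans ?_
    rw [norm_neg, norm_neg]
    linarith
  -- rays
  have hray : ∀ d, 𝒩.src d ∈ O → 𝒩.Out q d →
      ‖𝒩.dir d - nrm (𝒩.z (𝒩.src d) - q)‖ ≤ 2 * θ := by
    intro d hd ho
    have := h.out_near hε hd ho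
    linarith
  -- label merging
  have hmerge : ∀ b ∈ 𝒩.bd univ, ∀ b' ∈ 𝒩.bd univ,
      ‖𝒩.dir b - 𝒩.dir b'‖ ≤ 2 * ω + 5 * θ → ‖𝒩.dir b - 𝒩.dir b'‖ ≤ θ := by
    intro b hb b' hb' hle
    rcases hgap b hb b' hb' with h1 | h1
    · exact h1
    · exfalso
      have : 2 * ω + 5 * θ ≤ 8 * (n + 3) * θ := by
        rw [hω]; nlinarith [mul_nonneg hn0 hθ0]
      linarith
  have main1 : ∀ v ∈ O, ∃ b ∈ 𝒩.bd univ, ‖nrm (𝒩.z v - q) - 𝒩.dir b‖ ≤ ω := by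
    by_contra hcon
    push Not at hcon
    set Bad := O.filter fun v => ∀ b ∈ 𝒩.bd univ, ω < ‖nrm (𝒩.z v - q) - 𝒩.dir b‖ with hBad
    have hBne : Bad.Nonempty := by
      obtain ⟨v, hv, hv'⟩ := hcon
      exact ⟨v, Finset.mem_filter.mpr ⟨hv, hv'⟩⟩
    obtain ⟨v, hvB, hmax⟩ := Finset.exists_max_image Bad (fun v => ‖𝒩.z v - q‖) hBne
    have hvO := (Finset.mem_filter.mp hvB).1
    have hvbad := (Finset.mem_filter.mp hvB).2
    -- vertices farther away are good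
    have hgood : ∀ w ∈ O, ‖𝒩.z v - q‖ < ‖𝒩.z w - q‖ →
        ∃ b ∈ 𝒩.bd univ, ‖nrm (𝒩.z w - q) - 𝒩.dir b‖ ≤ ω := by
      intro w hw hlt
      by_contra hc
      push Not at hc
      have := hmax w (Finset.mem_filter.mpr ⟨hw, hc⟩)
      linarith
    -- an outward dart at `v`
    have hout : ∃ d, 𝒩.src d = v ∧ 𝒩.Out q d := by
      by_contra hc
      push Not at hc
      have h1 := h.card_in_le hN hvO
      obtain ⟨d, hd⟩ := 𝒩.has v
      have h2 : 0 < (univ.filter fun d => 𝒩.src d = v ∧ ¬ 𝒩.Out q d).card :=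
        Finset.card_pos.mpr ⟨d, Finset.mem_filter.mpr ⟨Finset.mem_univ _, hd, hc d hd⟩⟩
      have h3 : (univ.filter fun d => 𝒩.src d = v ∧ 𝒩.Out q d) = ∅ := by
        apply Finset.filter_eq_empty_iff.mpr
        rintro d - ⟨h4, h5⟩
        exact hc d h4 h5
      rw [h3, Finset.card_empty] at h1
      omega
    obtain ⟨d₁, hd₁, ho₁⟩ := hout
    have hd₁O : 𝒩.src d₁ ∈ O := by rw [hd₁]; exact hvO
    by_cases hne : 𝒩.rev d₁ = d₁
    · have h1 := hray d₁ hd₁O ho₁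
      rw [hd₁] at h1
      have h2 := hvbad d₁ (𝒩.mem_bd_univ.mpr hne)
      rw [norm_sub_rev] at h2
      have : 2 * θ ≤ ω := by rw [hω]; nlinarith [mul_nonneg hn0 hθ0]
      linarith
    · have hwO := h.clo d₁ hd₁O hne ho₁
      have hwlt := rev_norm_lt hne ho₁
      rw [hd₁] at hwlt
      obtain ⟨b, hb, hwb⟩ := hgood _ hwO hwlt
      set S := O.filter fun u => ‖𝒩.z v - q‖ < ‖𝒩.z u - q‖ ∧ ∃ b' ∈ 𝒩.bd univ,
        ‖𝒩.dir b' - 𝒩.dir b‖ ≤ θ ∧ ‖nrm (𝒩.z u - q) - 𝒩.dir b'‖ ≤ ω with hS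
      have hSO : S ⊆ O := Finset.filter_subset _ _
      have hSclosed : 𝒩.OutClosed q S := by
        intro d hd hdne hdo
        rw [hS, Finset.mem_filter] at hd
        obtain ⟨hdO, hdlt, b', hb', hb'b, hub'⟩ := hd
        have hw'O := h.clo d hdO hdne hdo
        have hw'lt := rev_norm_lt hdne hdo
        obtain ⟨b'', hb'', hw'b''⟩ := hgood _ hw'O (hdlt.trans hw'lt)
        rw [hS, Finset.mem_filter]
        refine ⟨hw'O, hdlt.trans hw'lt, b'', hb'', ?_, hw'b''⟩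
        apply hmerge b'' hb'' b hb
        have hs := hstep d hdO hdne hdo
        have e : 𝒩.dir b'' - 𝒩.dir b =
            -(nrm (𝒩.z (𝒩.src (𝒩.rev d)) - q) - 𝒩.dir b'') +
            -(nrm (𝒩.z (𝒩.src d) - q) - nrm (𝒩.z (𝒩.src (𝒩.rev d)) - q)) +
            (nrm (𝒩.z (𝒩.src d) - q) - 𝒩.dir b') + (𝒩.dir b' - 𝒩.dir b) := by ring
        rw [e]
        refine (norm_add_le _ _).trans ?_
        refine (add_le_add (norm_add_le _ _) le_rfl).trans ?_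
        refine (add_le_add (add_le_add (norm_add_le _ _) le_rfl) le_rfl).trans ?_
        rw [norm_neg, norm_neg]
        linarith
      have hraysS : ∀ d ∈ 𝒩.raysOf q S, ‖𝒩.dir d - 𝒩.dir b‖ ≤ θ := by
        intro d hd
        rw [raysOf, Finset.mem_filter] at hd
        obtain ⟨-, hdS, hdo, hdrev⟩ := hd
        rw [hS, Finset.mem_filter] at hdS
        obtain ⟨hdO, hdlt, b', hb', hb'b, hub'⟩ := hdS
        apply hmerge d (𝒩.mem_bd_univ.mpr hdrev) b hb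
        have hr := hray d hdO hdo
        have e : 𝒩.dir d - 𝒩.dir b = (𝒩.dir d - nrm (𝒩.z (𝒩.src d) - q)) +
            (nrm (𝒩.z (𝒩.src d) - q) - 𝒩.dir b') + (𝒩.dir b' - 𝒩.dir b) := by ring
        rw [e]
        refine (norm_add_le _ _).trans ?_
        refine (add_le_add (norm_add_le _ _) le_rfl).trans ?_
        have : 0 ≤ ω := by rw [hω]; positivity
        linarith
      have hfree : 𝒩.rev d₁ ∈ 𝒩.freeOf q S := by
        rw [freeOf, Finset.mem_sdiff, Finset.mem_filter, Finset.mem_image]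
        refine ⟨⟨Finset.mem_univ _, ?_, rev_not_out hne ho₁⟩, ?_⟩
        · rw [hS, Finset.mem_filter]
          exact ⟨hwO, hwlt, b, hb, by rw [sub_self, norm_zero]; exact hθ0, hwb⟩
        · rintro ⟨d', hd', hrev⟩
          have := 𝒩.rev_inj hrev
          rw [this, radOf, Finset.mem_filter, hS, Finset.mem_filter, hd₁] at hd'
          exact lt_irrefl _ hd'.2.1.2.1
      have hfn := h.free_near hN hSO hSclosed (𝒩.norm_dir b) hraysS hfree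
      rw [𝒩.dir_rev d₁ hne, neg_neg] at hfn
      have hfn' : ‖𝒩.dir d₁ - 𝒩.dir b‖ ≤ (n + 1) * θ := by
        apply le_of_sq_le_sq _ (by positivity)
        refine hfn.trans ?_
        rw [mul_pow]
        apply mul_le_mul_of_nonneg_right _ (sq_nonneg _)
        nlinarith
      have hb2 := hvbad b hb
      have hr := hray d₁ hd₁O ho₁
      rw [hd₁] at hr
      have e : nrm (𝒩.z v - q) - 𝒩.dir b = -(𝒩.dir d₁ - nrm (𝒩.z v - q)) +
          (𝒩.dir d₁ - 𝒩.dir b) := by ring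
      have h3 : ‖nrm (𝒩.z v - q) - 𝒩.dir b‖ ≤ 2 * θ + (n + 1) * θ := by
        rw [e]
        refine (norm_add_le _ _).trans ?_
        rw [norm_neg]
        linarith
      rw [hω] at hb2
      linarith
  constructor
  · intro v hv
    obtain ⟨b, hb, hvb⟩ := main1 v hv
    refine ⟨b, hb, Finset.mem_filter.mpr ⟨hv, b, hb, ?_, hvb⟩⟩
    rw [sub_self, norm_zero]; exact hθ0
  · intro b hb
    set S := 𝒩.cls q O θ ω b with hS
    have hSO : S ⊆ O := Finset.filter_subset _ _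
    have hSclosed : 𝒩.OutClosed q S := by
      intro d hd hdne hdo
      rw [hS, cls, Finset.mem_filter] at hd
      obtain ⟨hdO, b', hb', hb'b, hub'⟩ := hd
      have hw'O := h.clo d hdO hdne hdo
      obtain ⟨b'', hb'', hw'b''⟩ := main1 _ hw'O
      rw [hS, cls, Finset.mem_filter]
      refine ⟨hw'O, b'', hb'', ?_, hw'b''⟩
      apply hmerge b'' hb'' b hb
      have hs := hstep d hdO hdne hdo
      have e : 𝒩.dir b'' - 𝒩.dir b =
          -(nrm (𝒩.z (𝒩.src (𝒩.rev d)) - q) - 𝒩.dir b'') +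
          -(nrm (𝒩.z (𝒩.src d) - q) - nrm (𝒩.z (𝒩.src (𝒩.rev d)) - q)) +
          (nrm (𝒩.z (𝒩.src d) - q) - 𝒩.dir b') + (𝒩.dir b' - 𝒩.dir b) := by ring
      rw [e]
      refine (norm_add_le _ _).trans ?_
      refine (add_le_add (norm_add_le _ _) le_rfl).trans ?_
      refine (add_le_add (add_le_add (norm_add_le _ _) le_rfl) le_rfl).trans ?_
      rw [norm_neg, norm_neg]
      linarith
    have h1 := N_le_free_rays hSclosed
    have h2 := h.card_free_le hN hSO hSclosed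
    have h3 : (𝒩.raysOf q S).card ≤
        ((𝒩.bd univ).filter fun b' => ‖𝒩.dir b' - 𝒩.dir b‖ ≤ θ).card := by
      apply Finset.card_le_card
      intro d hd
      rw [raysOf, Finset.mem_filter] at hd
      obtain ⟨-, hdS, hdo, hdrev⟩ := hd
      rw [hS, cls, Finset.mem_filter] at hdS
      obtain ⟨hdO, b', hb', hb'b, hub'⟩ := hdS
      rw [Finset.mem_filter]
      refine ⟨𝒩.mem_bd_univ.mpr hdrev, ?_⟩
      apply hmerge d (𝒩.mem_bd_univ.mpr hdrev) b hb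
      have hr := hray d hdO hdo
      have e : 𝒩.dir d - 𝒩.dir b = (𝒩.dir d - nrm (𝒩.z (𝒩.src d) - q)) +
          (nrm (𝒩.z (𝒩.src d) - q) - 𝒩.dir b') + (𝒩.dir b' - 𝒩.dir b) := by ring
      rw [e]
      refine (norm_add_le _ _).trans ?_
      refine (add_le_add (norm_add_le _ _) le_rfl).trans ?_
      have : 0 ≤ ω := by rw [hω]; positivity
      linarith
    omega

end DartNet

end

end Pool.Agent.Lib.Pb48dd4
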