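import Pool.Agent.Lib.Pb48dd4.ThinCase

/-!
# The main theorem for dart nets

Auxiliary file for MP_b48dd4_gt.
-/

namespace Pool.Agent.Lib.Pb48dd4

open Finset
open scoped Classical

noncomputable section

variable {ι δ : Type} [Fintype ι] [Fintype δ]

lemma mem_filter_inst {α : Type*} (s : Finset α) (p : α → Prop) (inst : DecidablePred p) (a : α) :
    a ∈ @Finset.filter α p inst s ↔ a ∈ s ∧ p a := Finset.mem_filter

namespace DartNet

variable (𝒩 : DartNet ι δ) (S : Finset ι)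

/-- Reversal in the restricted net. -/
def rrev (d : {d : δ // 𝒩.src d ∈ S}) : {d : δ // 𝒩.src d ∈ S} :=
  if h : 𝒩.src (𝒩.rev d.1) ∈ S then ⟨𝒩.rev d.1, h⟩ else d

lemma rrev_pos {d : {d : δ // 𝒩.src d ∈ S}} (h : 𝒩.src (𝒩.rev d.1) ∈ S) :
    (𝒩.rrev S d).1 = 𝒩.rev d.1 := by
  unfold rrev; rw [dif_pos h]

lemma rrev_neg {d : {d : δ // 𝒩.src d ∈ S}} (h : ¬ 𝒩.src (𝒩.rev d.1) ∈ S) :
    𝒩.rrev S d = d := by
  unfold rrev; rw [dif_neg h]

lemma rrev_eq_iff {d : {d : δ // 𝒩.src d ∈ S}} :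
    𝒩.rrev S d = d ↔ 𝒩.rev d.1 = d.1 ∨ 𝒩.src (𝒩.rev d.1) ∉ S := by
  by_cases h : 𝒩.src (𝒩.rev d.1) ∈ S
  · rw [← Subtype.coe_inj, rrev_pos 𝒩 S h]
    tauto
  · rw [rrev_neg 𝒩 S h]
    tauto

lemma rrev_ne {d : {d : δ // 𝒩.src d ∈ S}} (h : 𝒩.rrev S d ≠ d) :
    𝒩.rev d.1 ≠ d.1 ∧ 𝒩.src (𝒩.rev d.1) ∈ S := by
  rw [Ne, rrev_eq_iff] at h
  push Not at h
  exact h

/-- Restriction of a net to a set of vertices: edges leaving `S` become rays. -/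
def restrict : DartNet {v // v ∈ S} {d : δ // 𝒩.src d ∈ S} where
  z v := 𝒩.z v.1
  src d := ⟨𝒩.src d.1, d.2⟩
  dir d := 𝒩.dir d.1
  rev := 𝒩.rrev S
  len d := 𝒩.len d.1
  z_inj := fun v w h => Subtype.ext (𝒩.z_inj h)
  norm_dir d := 𝒩.norm_dir d.1
  rev_rev d := by
    by_cases h : 𝒩.src (𝒩.rev d.1) ∈ S
    · apply Subtype.ext
      have h1 := rrev_pos 𝒩 S h
      have h2 : 𝒩.src (𝒩.rev (𝒩.rrev S d).1) ∈ S := by
        rw [h1, 𝒩.rev_rev]; exact d.2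
      rw [rrev_pos 𝒩 S h2, h1, 𝒩.rev_rev]
    · have h1 := rrev_neg 𝒩 S h
      rw [h1, h1]
  len_pos d hd := 𝒩.len_pos d.1 (𝒩.rrev_ne S hd).1
  z_rev d hd := by
    obtain ⟨h1, h2⟩ := 𝒩.rrev_ne S hd
    change 𝒩.z (𝒩.src (𝒩.rrev S d).1) = _
    rw [rrev_pos 𝒩 S h2]
    exact 𝒩.z_rev d.1 h1
  dir_rev d hd := by
    obtain ⟨h1, h2⟩ := 𝒩.rrev_ne S hd
    rw [rrev_pos 𝒩 S h2]
    exact 𝒩.dir_rev d.1 h1
  bal v := by
    have h1 := 𝒩.bal v.1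
    rw [← h1]
    apply Finset.sum_bij (fun d _ => d.1)
    · intro d hd
      have hd' := ((mem_filter_inst _ _ _ _).mp hd).2
      exact Finset.mem_filter.mpr ⟨Finset.mem_univ _, congrArg Subtype.val hd'⟩
    · intro a _ b _ h
      exact Subtype.ext h
    · intro d hd
      have hd' := (Finset.mem_filter.mp hd).2
      refine ⟨⟨d, by rw [hd']; exact v.2⟩, ?_, rfl⟩
      exact (mem_filter_inst _ _ _ _).mpr ⟨Finset.mem_univ _, Subtype.ext hd'⟩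
    · intro _ _; rfl
  has v := by
    obtain ⟨d, hd⟩ := 𝒩.has v.1
    exact ⟨⟨d, by rw [hd]; exact v.2⟩, Subtype.ext hd⟩

lemma restrict_N : (𝒩.restrict S).N univ = 𝒩.N S := by
  unfold N
  apply Finset.card_bij (fun d _ => d.1)
  · intro d hd
    rw [mem_bd_univ] at hd
    rw [mem_bd]
    exact ⟨d.2, (𝒩.rrev_eq_iff S).mp hd⟩
  · intro a _ b _ h
    exact Subtype.ext h
  · intro d hd
    rw [mem_bd] at hd
    refine ⟨⟨d, hd.1⟩, ?_, rfl⟩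
    rw [mem_bd_univ]
    exact (𝒩.rrev_eq_iff S).mpr hd.2

lemma restrict_g : (𝒩.restrict S).g univ = 𝒩.g S := by
  unfold g
  apply Finset.card_bij (fun v _ => v.1)
  · intro v hv
    rw [Finset.mem_filter] at hv ⊢
    refine ⟨v.2, ?_⟩
    obtain ⟨-, d, d', h1, h2, h3⟩ := hv
    exact ⟨d.1, d'.1, congrArg Subtype.val h1, congrArg Subtype.val h2, h3⟩
  · intro a _ b _ h
    exact Subtype.ext h
  · intro v hv
    rw [Finset.mem_filter] at hv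
    refine ⟨⟨v, hv.1⟩, ?_, rfl⟩
    rw [Finset.mem_filter]
    refine ⟨Finset.mem_univ _, ?_⟩
    obtain ⟨hvS, d, d', h1, h2, h3⟩ := hv
    exact ⟨⟨d, by rw [h1]; exact hvS⟩, ⟨d', by rw [h2]; exact hvS⟩, Subtype.ext h1,
      Subtype.ext h2, h3⟩

end DartNet

/-- Main theorem: the number of genuine vertices of a dart net is bounded in terms of the number
of its rays. -/
theorem exists_bound (n : ℕ) : ∃ F : ℕ, ∀ (ι δ : Type) [Fintype ι] [Fintype δ]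
    (𝒩 : DartNet ι δ), 𝒩.N univ < n → 𝒩.g univ ≤ F := by
  induction n with
  | zero => exact ⟨0, fun ι δ _ _ 𝒩 h => absurd h (Nat.not_lt_zero _)⟩
  | succ n ih =>
    obtain ⟨F, hF⟩ := ih
    obtain ⟨κ, hκ, C₁, hC₁⟩ := DartNet.thin_case n F
    obtain ⟨C₂, hC₂⟩ := DartNet.nonthin n F κ hκ
    refine ⟨F + C₁ + C₂, ?_⟩
    intro ι δ _ _ 𝒩 hN
    rcases (Nat.lt_succ_iff.mp hN).lt_or_eq with h | h
    · have := hF ι δ 𝒩 h
      omega
    · have hIH : ∀ S, 𝒩.N S < n → 𝒩.g S ≤ F := by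
        intro S hS
        rw [← 𝒩.restrict_N S] at hS
        rw [← 𝒩.restrict_g S]
        exact hF _ _ (𝒩.restrict S) hS
      by_cases ht : 𝒩.Thin κ
      · have := hC₁ ι δ 𝒩 h hIH ht
        omega
      · have := hC₂ ι δ 𝒩 h hIH ht
        omega

end

end Pool.Agent.Lib.Pb48dd4
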