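import Pool.Agent.Lib.Pb48dd4.Far
import Pool.Agent.Lib.Pb48dd4.Conic

/-!
# The non-thin case

Auxiliary file for MP_b48dd4_gt.
-/

namespace Pool.Agent.Lib.Pb48dd4

open Finset
open scoped Classical

noncomputable section

variable {ι δ : Type} [Fintype ι] [Fintype δ]

namespace DartNet

variable (𝒩 : DartNet ι δ)

/-- Thin nets: all rays are nearly parallel to one line. -/
def Thin (κ : ℝ) : Prop :=
  ∃ e : ℂ, ‖e‖ = 1 ∧ ∀ b ∈ 𝒩.bd univ, ‖𝒩.dir b - e‖ ≤ κ ∨ ‖𝒩.dir b + e‖ ≤ κ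

lemma g_mono {S T : Finset ι} (h : S ⊆ T) : 𝒩.g S ≤ 𝒩.g T :=
  Finset.card_le_card (Finset.filter_subset_filter _ h)

lemma g_le_card (S : Finset ι) : 𝒩.g S ≤ S.card := Finset.card_filter_le _ _

lemma g_union_le (S T : Finset ι) : 𝒩.g (S ∪ T) ≤ 𝒩.g S + 𝒩.g T := by
  unfold g
  rw [Finset.filter_union]
  exact Finset.card_union_le _ _

lemma g_le_sum {κ : Type*} (S : Finset ι) (T : Finset κ) (A : κ → Finset ι)
    (h : ∀ v ∈ S, ∃ j ∈ T, v ∈ A j) : 𝒩.g S ≤ ∑ j ∈ T, 𝒩.g (A j) := by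
  unfold g
  have h1 : S.filter 𝒩.genuine ⊆ T.biUnion fun j => (A j).filter 𝒩.genuine := by
    intro v hv
    rw [Finset.mem_filter] at hv
    obtain ⟨j, hj, hvj⟩ := h v hv.1
    rw [Finset.mem_biUnion]
    exact ⟨j, hj, Finset.mem_filter.mpr ⟨hvj, hv.2⟩⟩
  exact (Finset.card_le_card h1).trans Finset.card_biUnion_le

lemma g_fiber {κ : Type*} [DecidableEq κ] (S : Finset ι) (T : Finset κ) (f : ι → κ) (F : ℕ)
    (hT : ∀ v ∈ S, f v ∈ T) (hF : ∀ v ∈ S, 𝒩.g (S.filter fun w => f w = f v) ≤ F) :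
    𝒩.g S ≤ T.card * F := by
  have h1 : 𝒩.g S ≤ ∑ j ∈ T, 𝒩.g (S.filter fun w => f w = j) := by
    apply 𝒩.g_le_sum
    intro v hv
    exact ⟨f v, hT v hv, Finset.mem_filter.mpr ⟨hv, rfl⟩⟩
  refine h1.trans ?_
  rw [← smul_eq_mul, ← Finset.sum_const]
  apply Finset.sum_le_sum
  intro j _
  by_cases hj : (S.filter fun w => f w = j).Nonempty
  · obtain ⟨v, hv⟩ := hj
    rw [Finset.mem_filter] at hv
    have := hF v hv.1
    rw [hv.2] at this
    exact this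
  · rw [Finset.not_nonempty_iff_eq_empty.mp hj]
    simp [g]

/-- If half of the rays are close to one direction, the net is thin. -/
lemma thin_of_half {θ κ : ℝ} (hθ : 0 ≤ θ) (hθn : (𝒩.N univ : ℝ) * θ ^ 2 < 1)
    (hκ : ((𝒩.N univ : ℝ) + 1) * θ ≤ κ) {b : δ}
    (hhalf : 𝒩.N univ ≤ 2 * ((𝒩.bd univ).filter fun b' => ‖𝒩.dir b' - 𝒩.dir b‖ ≤ θ).card) :
    𝒩.Thin κ := by
  set n : ℝ := (𝒩.N univ : ℝ) with hn
  have hn0 : 0 ≤ n := by positivity
  set e := 𝒩.dir b with he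
  have he1 : ‖e‖ = 1 := 𝒩.norm_dir b
  set A := (𝒩.bd univ).filter fun b' => ‖𝒩.dir b' - e‖ ≤ θ with hA
  set A' := (𝒩.bd univ).filter fun b' => ¬ ‖𝒩.dir b' - e‖ ≤ θ with hA'
  have hcard : A.card + A'.card = 𝒩.N univ := by
    unfold N
    rw [hA, hA']
    exact Finset.card_filter_add_card_filter_not _
  have hcard' : (A.card : ℝ) + A'.card = n := by rw [hn]; exact_mod_cast hcard
  have hbal := 𝒩.sum_bd univ e
  have hsplit : ∑ d ∈ A, dot e (𝒩.dir d) + ∑ d ∈ A', dot e (𝒩.dir d) = 0 := by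
    rw [hA, hA', Finset.sum_filter_add_sum_filter_not]
    exact hbal
  have hAlow : (A.card : ℝ) * (1 - θ ^ 2 / 2) ≤ ∑ d ∈ A, dot e (𝒩.dir d) := by
    rw [← nsmul_eq_mul, ← Finset.sum_const]
    apply Finset.sum_le_sum
    intro d hd
    rw [hA, Finset.mem_filter] at hd
    have h1 := one_sub_dot he1 (𝒩.norm_dir d)
    rw [norm_sub_rev] at h1
    have h2 := pow_le_pow_left₀ (norm_nonneg _) hd.2 2
    linarith
  have hterm : ∀ d, 0 ≤ 1 + dot e (𝒩.dir d) := by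
    intro d
    have := neg_le_dot e (𝒩.dir d)
    rw [he1, 𝒩.norm_dir] at this
    linarith
  have hsum' : ∑ d ∈ A', (1 + dot e (𝒩.dir d)) = A'.card + ∑ d ∈ A', dot e (𝒩.dir d) := by
    rw [Finset.sum_add_distrib]; simp
  have hAn : (A.card : ℝ) ≤ n := by
    have : (0 : ℝ) ≤ A'.card := by positivity
    linarith
  have hAθ : (A.card : ℝ) * (θ ^ 2 / 2) ≤ n * (θ ^ 2 / 2) :=
    mul_le_mul_of_nonneg_right hAn (by positivity)
  have hup : ∑ d ∈ A', (1 + dot e (𝒩.dir d)) ≤ n - 2 * A.card + n * (θ ^ 2 / 2) := by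
    rw [hsum']; nlinarith
  have hnn : 0 ≤ ∑ d ∈ A', (1 + dot e (𝒩.dir d)) := Finset.sum_nonneg fun d _ => hterm d
  -- integrality
  have h2A : 2 * A.card ≤ 𝒩.N univ := by
    by_contra hcon
    push Not at hcon
    have : (𝒩.N univ : ℝ) + 1 ≤ 2 * A.card := by exact_mod_cast hcon
    rw [← hn] at this
    nlinarith
  have h2A' : (2 * A.card : ℝ) = n := by
    rw [hn]; exact_mod_cast le_antisymm h2A hhalf
  have hup' : ∑ d ∈ A', (1 + dot e (𝒩.dir d)) ≤ n * (θ ^ 2 / 2) := by linarith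
  have hle : ∀ t : ℝ, 0 ≤ t → t ^ 2 ≤ n * θ ^ 2 → t ≤ κ := by
    intro t ht ht2
    refine le_trans ?_ hκ
    apply le_of_sq_le_sq _ (by positivity)
    refine ht2.trans ?_
    rw [mul_pow]
    apply mul_le_mul_of_nonneg_right _ (sq_nonneg _)
    nlinarith
  refine ⟨e, he1, fun d hd => ?_⟩
  by_cases hdA : ‖𝒩.dir d - e‖ ≤ θ
  · left
    refine hdA.trans (le_trans ?_ hκ)
    nlinarith [mul_nonneg hn0 hθ]
  · right
    have hd' : d ∈ A' := Finset.mem_filter.mpr ⟨hd, hdA⟩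
    have h1 : 1 + dot e (𝒩.dir d) ≤ ∑ d ∈ A', (1 + dot e (𝒩.dir d)) :=
      Finset.single_le_sum (f := fun d => 1 + dot e (𝒩.dir d)) (fun d _ => hterm d) hd'
    apply hle _ (norm_nonneg _)
    rw [norm_add_sq', 𝒩.norm_dir, he1, dot_comm]
    linarith

/-- Bound for the outer region. -/
lemma far_bound {n : ℕ} (hn : 𝒩.N univ = n) {κ : ℝ} {F : ℕ} (hIH : ∀ S, 𝒩.N S < n → 𝒩.g S ≤ F)
    (hthin : ¬ 𝒩.Thin κ) {θm ε : ℝ} (hθm : 0 < θm) (hθmn : (n : ℝ) * θm ^ 2 < 1)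
    (hκ : ((n : ℝ) + 1) * θm ≤ κ) (hε : ε = θm / (8 * ((n : ℝ) + 3)) ^ (n ^ 2)) {q : ℂ}
    {O : Finset ι} (hfar : 𝒩.Far q ε O) : 𝒩.g O ≤ n * F := by
  set K : ℝ := 8 * ((n : ℝ) + 3) with hK
  have hn0 : (0 : ℝ) ≤ n := by positivity
  have hK1 : 1 ≤ K := by rw [hK]; linarith
  have hKp : 0 < K ^ (n ^ 2) := by positivity
  have hε0 : 0 < ε := by rw [hε]; positivity
  have hcard : (𝒩.bd univ).card = n := hn
  obtain ⟨j, hj, hgap⟩ := exists_gap_scale (𝒩.bd univ) 𝒩.dir ε K hε0 hK1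
  rw [hcard] at hj
  set θ := K ^ j * ε with hθ
  have hθε : ε ≤ θ := by
    rw [hθ]
    have : 1 ≤ K ^ j := one_le_pow₀ hK1
    nlinarith
  have hθ0 : 0 < θ := lt_of_lt_of_le hε0 hθε
  have hθm' : θ ≤ θm := by
    rw [hθ, hε, mul_div_assoc', div_le_iff₀ hKp, mul_comm]
    exact mul_le_mul_of_nonneg_left (pow_le_pow_right₀ hK1 hj) hθm.le
  have hsq : θ ^ 2 ≤ θm ^ 2 := pow_le_pow_left₀ hθ0.le hθm' 2
  have hθn : (𝒩.N univ : ℝ) * θ ^ 2 < 1 := by
    rw [hn]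
    exact lt_of_le_of_lt (mul_le_mul_of_nonneg_left hsq hn0) hθmn
  have hεn : (𝒩.N univ : ℝ) * ε ^ 2 < 1 := by
    refine lt_of_le_of_lt ?_ hθn
    exact mul_le_mul_of_nonneg_left (pow_le_pow_left₀ hε0.le hθε 2) (by positivity)
  obtain ⟨h1, h2⟩ := hfar.main hεn hε0.le hθε (by
    intro b hb b' hb'
    rcases hgap b hb b' hb' with h | h
    · exact Or.inl h
    · right
      rw [hn, ← hK, hθ, ← mul_assoc, ← pow_succ']
      exact h)
  have h3 : ∀ b ∈ 𝒩.bd univ, 𝒩.g (𝒩.cls q O θ (((𝒩.N univ : ℝ) + 3) * θ) b) ≤ F := by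
    intro b hb
    apply hIH
    refine lt_of_le_of_lt (h2 b hb) ?_
    by_contra hcon
    push Not at hcon
    apply hthin
    apply 𝒩.thin_of_half hθ0.le hθn _ (b := b) (by rw [hn]; exact hcon)
    rw [hn]
    exact le_trans (mul_le_mul_of_nonneg_left hθm' (by positivity)) hκ
  calc 𝒩.g O ≤ ∑ b ∈ 𝒩.bd univ, 𝒩.g (𝒩.cls q O θ (((𝒩.N univ : ℝ) + 3) * θ) b) :=
        𝒩.g_le_sum _ _ _ h1
    _ ≤ ∑ b ∈ 𝒩.bd univ, F := Finset.sum_le_sum h3
    _ = n * F := by rw [Finset.sum_const, smul_eq_mul, hcard]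

/-- Vertices at distance more than `R` from `q`. -/
def outer (q : ℂ) (R : ℝ) : Finset ι := univ.filter fun v => R < ‖𝒩.z v - q‖

lemma mem_outer {q : ℂ} {R : ℝ} {v : ι} : v ∈ 𝒩.outer q R ↔ R < ‖𝒩.z v - q‖ := by
  simp [outer]

/-- Nearly radial outside the ball of radius `R` about `q`. -/
def Rad (ε : ℝ) (q : ℂ) (R : ℝ) : Prop :=
  ∀ d, R < ‖𝒩.z (𝒩.src d) - q‖ →
    |crs (𝒩.z (𝒩.src d) - q) (𝒩.dir d)| ≤ ε * ‖𝒩.z (𝒩.src d) - q‖

lemma Rad.far {ε : ℝ} {q : ℂ} {R : ℝ} (hR : 0 ≤ R) (h : 𝒩.Rad ε q R) :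
    𝒩.Far q ε (𝒩.outer q R) where
  ne v hv := by
    rw [mem_outer] at hv
    intro hc
    rw [hc, sub_self, norm_zero] at hv
    linarith
  rad d hd := h d ((𝒩.mem_outer).mp hd)
  clo d hd hne ho := by
    rw [mem_outer] at hd ⊢
    exact hd.trans (rev_norm_lt hne ho)

lemma exists_sep : ∃ s : ℝ, 0 < s ∧ ∀ v w : ι, v ≠ w → s ≤ ‖𝒩.z v - 𝒩.z w‖ := by
  by_cases h : ((univ : Finset (ι × ι)).filter fun p => p.1 ≠ p.2).Nonempty
  · obtain ⟨p, hp, hmin⟩ := Finset.exists_min_image _ (fun p : ι × ι => ‖𝒩.z p.1 - 𝒩.z p.2‖) h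
    rw [Finset.mem_filter] at hp
    refine ⟨‖𝒩.z p.1 - 𝒩.z p.2‖, ?_, ?_⟩
    · rw [norm_pos_iff, sub_ne_zero]
      exact fun hc => hp.2 (𝒩.z_inj hc)
    · intro v w hvw
      exact hmin (v, w) (Finset.mem_filter.mpr ⟨Finset.mem_univ _, hvw⟩)
  · refine ⟨1, one_pos, ?_⟩
    intro v w hvw
    exact absurd ⟨(v, w), Finset.mem_filter.mpr ⟨Finset.mem_univ _, hvw⟩⟩ h

/-- The non-thin case. -/
theorem nonthin (n F : ℕ) (κ : ℝ) (hκ : 0 < κ) :
    ∃ C : ℕ, ∀ (ι δ : Type) [Fintype ι] [Fintype δ] (𝒩 : DartNet ι δ), 𝒩.N univ = n →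
      (∀ S, 𝒩.N S < n → 𝒩.g S ≤ F) → ¬ 𝒩.Thin κ → 𝒩.g univ ≤ C := by
  -- constants
  have hn0 : (0 : ℝ) ≤ n := by positivity
  set θm : ℝ := min κ 1 / ((n : ℝ) + 1) with hθm
  have hmin : 0 < min κ 1 := lt_min hκ one_pos
  have hθm0 : 0 < θm := by rw [hθm]; positivity
  have hθm1 : ((n : ℝ) + 1) * θm = min κ 1 := by rw [hθm]; field_simp
  have hθmκ : ((n : ℝ) + 1) * θm ≤ κ := by rw [hθm1]; exact min_le_left _ _
  have hθmn : (n : ℝ) * θm ^ 2 < 1 := by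
    have h1 : ((n : ℝ) + 1) * θm ≤ 1 := by rw [hθm1]; exact min_le_right _ _
    have h2 : θm ≤ 1 := by nlinarith [mul_nonneg hn0 hθm0.le]
    nlinarith [mul_nonneg hn0 hθm0.le]
  set ε : ℝ := θm / (8 * ((n : ℝ) + 3)) ^ (n ^ 2) with hε
  have hε0 : 0 < ε := by rw [hε]; positivity
  set η : ℝ := min (ε / (2 * n + 1)) 1 with hη
  have hη0 : 0 < η := by rw [hη]; exact lt_min (by positivity) one_pos
  have hη1 : η ≤ 1 := min_le_right _ _
  have hηε : (2 * (n : ℝ) + 1) * η ≤ ε := by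
    have : η ≤ ε / (2 * n + 1) := min_le_left _ _
    rw [le_div_iff₀ (by positivity)] at this
    linarith
  obtain ⟨M, hM⟩ := exists_nat_ge (8 / η ^ 2 + 1)
  refine ⟨1 + n * F + (2 * M + 1) ^ 2 * F, ?_⟩
  intro ι δ _ _ 𝒩 hN hIH hthin
  have houter : ∀ q R, 0 ≤ R → 𝒩.Rad ε q R → 𝒩.g (𝒩.outer q R) ≤ n * F := by
    intro q R hR hrad
    exact 𝒩.far_bound hN hIH hthin hθm0 hθmn hθmκ hε (Rad.far 𝒩 hR hrad)
  -- initial scale
  obtain ⟨R₀, hR₀, hR₀'⟩ : ∃ R₀ : ℝ, 0 < R₀ ∧ ∀ v, ‖𝒩.z v‖ ≤ R₀ := by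
    refine ⟨1 + ∑ v, ‖𝒩.z v‖, by positivity, fun v => ?_⟩
    have := Finset.single_le_sum (f := fun v => ‖𝒩.z v‖) (fun v _ => norm_nonneg _)
      (Finset.mem_univ v)
    linarith
  have hinit : ∃ q, 𝒩.Rad ε q (R₀ / 2 ^ 0) := by
    refine ⟨0, fun d hd => ?_⟩
    exfalso
    rw [pow_zero, div_one, sub_zero] at hd
    linarith [hR₀' (𝒩.src d)]
  by_cases hall : ∀ j : ℕ, ∃ q, 𝒩.Rad ε q (R₀ / 2 ^ j)
  · obtain ⟨s, hs, hsep⟩ := 𝒩.exists_sep
    obtain ⟨j, hj⟩ : ∃ j : ℕ, R₀ / 2 ^ j < s / 2 := by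
      obtain ⟨j, hj⟩ := exists_pow_lt_of_lt_one (show 0 < s / 2 / R₀ by positivity)
        (show (1 / 2 : ℝ) < 1 by norm_num)
      refine ⟨j, ?_⟩
      rw [lt_div_iff₀ hR₀] at hj
      rw [div_eq_mul_one_div, ← one_div_pow, mul_comm]
      exact hj
    obtain ⟨q, hq⟩ := hall j
    have h1 := houter q _ (by positivity) hq
    have h2 : (univ : Finset ι) = (univ.filter fun v => ¬ (R₀ / 2 ^ j < ‖𝒩.z v - q‖)) ∪
        𝒩.outer q (R₀ / 2 ^ j) := by
      ext v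
      simp only [Finset.mem_univ, Finset.mem_union, Finset.mem_filter, true_and, mem_outer,
        true_iff]
      exact (em _).symm
    have h3 : 𝒩.g (univ.filter fun v => ¬ (R₀ / 2 ^ j < ‖𝒩.z v - q‖)) ≤ 1 := by
      refine (𝒩.g_le_card _).trans ?_
      apply Finset.card_le_one.mpr
      intro v hv w hw
      simp only [Finset.mem_filter, Finset.mem_univ, true_and, not_lt] at hv hw
      by_contra hvw
      have h4 := hsep v w hvw
      have h5 : ‖𝒩.z v - 𝒩.z w‖ ≤ ‖𝒩.z v - q‖ + ‖𝒩.z w - q‖ := by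
        have : 𝒩.z v - 𝒩.z w = (𝒩.z v - q) - (𝒩.z w - q) := by ring
        rw [this]
        exact norm_sub_le _ _
      linarith
    have h4 := 𝒩.g_union_le (univ.filter fun v => ¬ (R₀ / 2 ^ j < ‖𝒩.z v - q‖))
      (𝒩.outer q (R₀ / 2 ^ j))
    rw [← h2] at h4
    have : 0 ≤ (2 * M + 1) ^ 2 * F := Nat.zero_le _
    omega
  · push Not at hall
    -- least failing scale
    have hex : ∃ j : ℕ, ¬ ∃ q, 𝒩.Rad ε q (R₀ / 2 ^ j) := by
      obtain ⟨j, hj⟩ := hall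
      exact ⟨j, by push Not; exact hj⟩
    obtain ⟨j, hj1, hj2⟩ : ∃ j : ℕ, (∃ q, 𝒩.Rad ε q (R₀ / 2 ^ j)) ∧
        ¬ ∃ q, 𝒩.Rad ε q (R₀ / 2 ^ (j + 1)) := by
      have hmin : ∀ m, m < Nat.find hex → ¬ ¬ ∃ q, 𝒩.Rad ε q (R₀ / 2 ^ m) :=
        fun m hm => Nat.find_min hex hm
      have hspec := Nat.find_spec hex
      rcases Nat.eq_zero_or_pos (Nat.find hex) with h0 | h0
      · rw [h0] at hspec
        exact absurd hinit hspec
      · refine ⟨Nat.find hex - 1, ?_, ?_⟩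
        · exact not_not.mp (hmin (Nat.find hex - 1) (by omega))
        · rw [Nat.sub_add_cancel h0]
          exact hspec
    obtain ⟨q₀, hq₀⟩ := hj1
    set R := R₀ / 2 ^ j with hR
    have hR0 : 0 < R := by rw [hR]; positivity
    have hR2 : R₀ / 2 ^ (j + 1) = R / 2 := by rw [hR, pow_succ]; field_simp
    rw [hR2] at hj2
    have h1 := houter q₀ R hR0.le hq₀
    set ρ := R / 4 with hρ
    have hρ0 : 0 < ρ := by rw [hρ]; positivity
    set c := ρ * η ^ 2 with hc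
    have hc0 : 0 < c := by rw [hc]; positivity
    have hcρ : c ≤ ρ := by
      rw [hc]
      have : η ^ 2 ≤ 1 := pow_le_one₀ hη0.le hη1
      nlinarith
    have hsq : Real.sqrt (c / ρ) = η := by
      rw [hc, mul_div_assoc, mul_comm, div_mul_cancel₀ _ hρ0.ne', Real.sqrt_sq hη0.le]
    -- every small ball is good
    have hball : ∀ q, 𝒩.g (𝒩.ball q c) ≤ F := by
      intro q
      have h2 : ¬ 𝒩.Rad ε q (R / 2) := fun h => hj2 ⟨q, h⟩
      unfold Rad at h2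
      push Not at h2
      obtain ⟨d, hd1, hd2⟩ := h2
      by_contra hcon
      push Not at hcon
      have h3 : ∀ s, c < s → s ≤ ρ → 𝒩.N univ ≤ 𝒩.N (𝒩.ball q s) := by
        intro s hs1 hs2
        by_contra hcon2
        push Not at hcon2
        rw [hN] at hcon2
        have h4 := hIH _ hcon2
        have h5 : 𝒩.ball q c ⊆ 𝒩.ball q s := by
          intro v hv
          rw [mem_ball] at hv ⊢
          linarith
        have := 𝒩.g_mono h5
        omega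
      have h4 := 𝒩.conic hc0 hcρ h3 d (by rw [hρ]; linarith)
      rw [hsq, hN] at h4
      have h5 : (2 * (n : ℝ) + 1) * η * ‖𝒩.z (𝒩.src d) - q‖ ≤ ε * ‖𝒩.z (𝒩.src d) - q‖ :=
        mul_le_mul_of_nonneg_right hηε (norm_nonneg _)
      linarith
    -- cells
    set I : Finset ι := univ.filter fun v => ¬ (R < ‖𝒩.z v - q₀‖) with hI
    set f : ι → ℤ × ℤ := fun v => (⌊(𝒩.z v - q₀).re / (c / 2)⌋, ⌊(𝒩.z v - q₀).im / (c / 2)⌋)
      with hf
    set T : Finset (ℤ × ℤ) := Finset.Icc (-(M : ℤ)) M ×ˢ Finset.Icc (-(M : ℤ)) M with hT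
    have hRc : R / (c / 2) = 8 / η ^ 2 := by
      rw [hc, hρ]; field_simp; norm_num
    have hcell : 𝒩.g I ≤ T.card * F := by
      apply 𝒩.g_fiber I T f F
      · intro v hv
        rw [hI, Finset.mem_filter] at hv
        have h2 := not_lt.mp hv.2
        have habs : ∀ t : ℝ, |t| ≤ R → ⌊t / (c / 2)⌋ ∈ Finset.Icc (-(M : ℤ)) M := by
          intro t ht
          rw [abs_le] at ht
          rw [Finset.mem_Icc]
          have h3 : t / (c / 2) ≤ M := by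
            have : t / (c / 2) ≤ R / (c / 2) := div_le_div_of_nonneg_right ht.2 (by positivity)
            rw [hRc] at this
            linarith
          have h4 : -(M : ℝ) ≤ t / (c / 2) := by
            have : -R / (c / 2) ≤ t / (c / 2) := div_le_div_of_nonneg_right ht.1 (by positivity)
            rw [neg_div, hRc] at this
            linarith
          constructor
          · rw [Int.le_floor]; push_cast; exact h4
          · have := Int.floor_le (t / (c / 2))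
            have h5 : ((⌊t / (c / 2)⌋ : ℤ) : ℝ) ≤ (M : ℤ) := by push_cast; linarith
            exact_mod_cast h5
        rw [hT, Finset.mem_product]
        exact ⟨habs _ ((Complex.abs_re_le_norm _).trans h2),
          habs _ ((Complex.abs_im_le_norm _).trans h2)⟩
      · intro v hv
        refine le_trans (𝒩.g_mono ?_) (hball (𝒩.z v))
        intro w hw
        rw [Finset.mem_filter] at hw
        rw [mem_ball]
        have hfl := hw.2
        simp only [hf, Prod.mk.injEq] at hfl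
        have hdiff : ∀ s t : ℝ, ⌊s / (c / 2)⌋ = ⌊t / (c / 2)⌋ → |s - t| < c / 2 := by
          intro s t hst
          have h3 := Int.abs_sub_lt_one_of_floor_eq_floor hst
          rw [← sub_div, abs_div, abs_of_pos (show 0 < c / 2 by positivity),
            div_lt_one (by positivity)] at h3
          exact h3
        have h3 := hdiff _ _ hfl.1
        have h4 := hdiff _ _ hfl.2
        have h5 : 𝒩.z w - 𝒩.z v = (𝒩.z w - q₀) - (𝒩.z v - q₀) := by ring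
        rw [← Complex.sub_re, ← h5] at h3
        rw [← Complex.sub_im, ← h5] at h4
        have h6 := Complex.norm_le_abs_re_add_abs_im (𝒩.z w - 𝒩.z v)
        linarith
    have hTcard : T.card = (2 * M + 1) ^ 2 := by
      rw [hT, Finset.card_product, Int.card_Icc]
      have : (M + 1 - -(M : ℤ)).toNat = 2 * M + 1 := by omega
      rw [this]; ring
    rw [hTcard] at hcell
    have h2 : (univ : Finset ι) = I ∪ 𝒩.outer q₀ R := by
      ext v
      simp only [hI, Finset.mem_univ, Finset.mem_union, Finset.mem_filter, true_and, mem_outer,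
        true_iff]
      exact (em _).symm
    have h4 := 𝒩.g_union_le I (𝒩.outer q₀ R)
    rw [← h2] at h4
    omega

end DartNet

end

end Pool.Agent.Lib.Pb48dd4
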