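import Pool.Agent.Lib.Pb48dd4.Defs
import Pool.Agent.Lib.Pb48dd4.Main

/-!
# From geodesic multinets to dart nets

Auxiliary file for MP_b48dd4_gt.
-/

namespace Pool.Agent.Lib.Pb48dd4

open Finset
open scoped Classical

noncomputable section

/-- Identification of the plane with `ℂ`. -/
def toC : Plane ≃ₗᵢ[ℝ] ℂ := Complex.orthonormalBasisOneI.repr.symm

lemma exists_unit_dir (x : ℂ) : ∃ v : ℂ, ‖v‖ = 1 ∧ x = (‖x‖ : ℂ) * v := by
  by_cases h : x = 0
  · exact ⟨1, by simp, by simp [h]⟩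
  · refine ⟨nrm x, norm_nrm h, ?_⟩
    have := norm_smul_nrm x
    rw [Complex.real_smul] at this
    exact this.symm

/-- A vector of norm at most `m` is a sum of `m` unit vectors, `m ≥ 2`. -/
lemma exists_units (m : ℕ) (hm : 2 ≤ m) : ∀ x : ℂ, ‖x‖ ≤ m →
    ∃ u : Fin m → ℂ, (∀ i, ‖u i‖ = 1) ∧ ∑ i, u i = x := by
  induction m, hm using Nat.le_induction with
  | base =>
    intro x hx
    obtain ⟨v, hv, hxv⟩ := exists_unit_dir x
    set r : ℝ := ‖x‖ / 2 with hr
    have hx2 : ‖x‖ ≤ 2 := by exact_mod_cast hx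
    have hr0 : 0 ≤ r := by rw [hr]; positivity
    have hr1 : r ≤ 1 := by rw [hr]; linarith
    set h : ℝ := Real.sqrt (1 - r ^ 2) with hh
    have hh2 : h ^ 2 = 1 - r ^ 2 := Real.sq_sqrt (by nlinarith)
    have hn : ∀ t : ℝ, t ^ 2 = 1 - r ^ 2 → ‖((r : ℂ) + t * Complex.I) * v‖ = 1 := by
      intro t ht
      rw [norm_mul, hv, mul_one]
      have h1 : ‖(r : ℂ) + t * Complex.I‖ ^ 2 = 1 := by
        rw [Complex.sq_norm, Complex.normSq_apply]
        simp
        nlinarith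
      have h2 := norm_nonneg ((r : ℂ) + t * Complex.I)
      nlinarith
    refine ⟨![((r : ℂ) + h * Complex.I) * v, ((r : ℂ) + (-h : ℝ) * Complex.I) * v], ?_, ?_⟩
    · intro i
      fin_cases i
      · exact hn h hh2
      · exact hn (-h) (by rw [neg_sq]; exact hh2)
    · rw [Fin.sum_univ_two]
      simp only [Matrix.cons_val_zero, Matrix.cons_val_one]
      rw [hxv, hr]
      push_cast
      ring
  | succ m hm ih =>
    intro x hx
    obtain ⟨v, hv, hxv⟩ := exists_unit_dir x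
    have h1 : ‖x - v‖ ≤ m := by
      have h2 : x - v = ((‖x‖ - 1 : ℝ) : ℂ) * v := by
        push_cast
        rw [sub_mul, one_mul, ← hxv]
      rw [h2, norm_mul, hv, mul_one, Complex.norm_real, Real.norm_eq_abs, abs_le]
      have h3 : (2 : ℝ) ≤ m := by exact_mod_cast hm
      have h4 := norm_nonneg x
      push_cast at hx
      constructor <;> linarith
    obtain ⟨u, hu1, hu2⟩ := ih _ h1
    refine ⟨Fin.cons v u, ?_, ?_⟩
    · intro i
      refine Fin.cases ?_ (fun i => ?_) i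
      · simpa using hv
      · simpa using hu1 i
    · rw [Fin.sum_cons, hu2]
      ring

/-- Parallel unit vectors are equal or opposite. -/
lemma eq_or_neg_of_crs {a b : ℂ} (ha : ‖a‖ = 1) (hb : ‖b‖ = 1) (h : crs a b = 0) :
    b = a ∨ b = -a := by
  have h1 := dot_sq_add_crs_sq a b
  rw [h, ha, hb] at h1
  have h2 : (dot a b - 1) * (dot a b + 1) = 0 := by linarith
  rcases mul_eq_zero.mp h2 with h3 | h3
  · left
    have h4 := norm_sub_sq' b a
    rw [ha, hb, dot_comm] at h4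
    have h5 : ‖b - a‖ ^ 2 = 0 := by rw [h4]; linarith
    exact sub_eq_zero.mp (norm_eq_zero.mp (pow_eq_zero_iff two_ne_zero |>.mp h5))
  · right
    have h4 := norm_add_sq' b a
    rw [ha, hb, dot_comm] at h4
    have h5 : ‖b + a‖ ^ 2 = 0 := by rw [h4]; linarith
    exact eq_neg_of_add_eq_zero_left (norm_eq_zero.mp (pow_eq_zero_iff two_ne_zero |>.mp h5))

namespace Drawing

variable (D : Drawing)

/-- Vertices as a type. -/
abbrev Vt : Type := {p // p ∈ D.V}

/-- Darts: weighted edges and rays. -/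
abbrev Dt (r : D.Vt → ℕ) : Type :=
  (Σ p : D.Vt, Σ q : D.Vt, Fin (D.w p.1 q.1)) ⊕ (Σ p : D.Vt, Fin (r p))

/-- Unit direction in `ℂ` from `p` to `q`. -/
def cdir (p q : Plane) : ℂ := nrm (toC q - toC p)

lemma cdir_eq (p q : Plane) : cdir p q = toC (unitVec p q) := by
  unfold cdir nrm unitVec
  rw [← map_sub, LinearIsometryEquiv.norm_map, map_smul]

lemma ne_of_w {p q : Plane} (h : D.w p q ≠ 0) : p ≠ q := by
  rintro rfl
  exact h (D.loopless p)

lemma toC_sub_ne {p q : Plane} (h : p ≠ q) : toC q - toC p ≠ 0 := by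
  rw [sub_ne_zero]
  exact fun h' => h (toC.injective h').symm

lemma ne_of_fin {p q : D.Vt} (i : Fin (D.w p.1 q.1)) : p.1 ≠ q.1 := by
  apply D.ne_of_w
  intro h
  rw [h] at i
  exact i.elim0

lemma Imb_eq (p : D.Vt) : toC (D.Imb p.1) = ∑ q : D.Vt, (D.w p.1 q.1 : ℝ) • cdir p.1 q.1 := by
  unfold Imb
  rw [map_sum, ← Finset.sum_coe_sort]
  apply Finset.sum_congr rfl
  intro q _
  rw [map_smul, cdir_eq]

/-- The dart net of a drawing with rays attached. -/
def netOf (hpos : ∀ p ∈ D.V, 1 ≤ D.degree p) (r : D.Vt → ℕ) (u : ∀ p, Fin (r p) → ℂ)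
    (hu1 : ∀ p i, ‖u p i‖ = 1) (hus : ∀ p, ∑ i, u p i = -toC (D.Imb p.1)) :
    DartNet D.Vt (D.Dt r) where
  z p := toC p.1
  src := Sum.elim (fun x => x.1) (fun x => x.1)
  dir := Sum.elim (fun x => cdir x.1.1 x.2.1.1) (fun x => u x.1 x.2)
  rev := Sum.elim (fun x => Sum.inl ⟨x.2.1, x.1, Fin.cast (D.symm _ _) x.2.2⟩)
    (fun x => Sum.inr x)
  len := Sum.elim (fun x => ‖toC x.2.1.1 - toC x.1.1‖) (fun _ => 1)
  z_inj := fun p q h => Subtype.ext (toC.injective h)
  norm_dir := by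
    rintro (⟨p, q, i⟩ | ⟨p, i⟩)
    · exact norm_nrm (toC_sub_ne (D.ne_of_fin i))
    · exact hu1 p i
  rev_rev := by
    rintro (⟨p, q, i⟩ | ⟨p, i⟩)
    · rfl
    · rfl
  len_pos := by
    rintro (⟨p, q, i⟩ | ⟨p, i⟩) h
    · exact norm_pos_iff.mpr (toC_sub_ne (D.ne_of_fin i))
    · exact absurd rfl h
  z_rev := by
    rintro (⟨p, q, i⟩ | ⟨p, i⟩) h
    · change toC q.1 = toC p.1 + ‖toC q.1 - toC p.1‖ • nrm (toC q.1 - toC p.1)
      rw [norm_smul_nrm]; ring
    · exact absurd rfl h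
  dir_rev := by
    rintro (⟨p, q, i⟩ | ⟨p, i⟩) h
    · change cdir q.1 p.1 = -cdir p.1 q.1
      unfold cdir nrm
      rw [norm_sub_rev, ← smul_neg, neg_sub]
    · exact absurd rfl h
  bal v := by
    rw [Finset.sum_filter, Fintype.sum_sum_type]
    have h1 : ∑ x : (Σ p : D.Vt, Σ q : D.Vt, Fin (D.w p.1 q.1)),
        (if x.1 = v then cdir x.1.1 x.2.1.1 else 0) = toC (D.Imb v.1) := by
      rw [D.Imb_eq v, Fintype.sum_sigma, Finset.sum_eq_single v]
      · simp only [if_true]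
        rw [Fintype.sum_sigma]
        apply Finset.sum_congr rfl
        intro q _
        simp
      · intro p _ hp
        simp [hp]
      · intro h
        exact absurd (Finset.mem_univ _) h
    have h2 : ∑ x : (Σ p : D.Vt, Fin (r p)), (if x.1 = v then u x.1 x.2 else 0) =
        ∑ i, u v i := by
      rw [Fintype.sum_sigma, Finset.sum_eq_single v]
      · simp
      · intro p _ hp
        simp [hp]
      · intro h
        exact absurd (Finset.mem_univ _) h
    refine Eq.trans (congrArg₂ (· + ·) (Eq.trans (Finset.sum_congr rfl fun x _ => ?_) h1)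
      (Eq.trans (Finset.sum_congr rfl fun x _ => ?_) h2)) ?_
    · rcases em (x.1 = v) with h | h
      · exact (if_pos h).trans (if_pos h).symm
      · exact (if_neg h).trans (if_neg h).symm
    · rcases em (x.1 = v) with h | h
      · exact (if_pos h).trans (if_pos h).symm
      · exact (if_neg h).trans (if_neg h).symm
    · rw [hus, add_neg_cancel]
  has v := by
    have h1 := hpos v.1 v.2
    obtain ⟨q, hq⟩ := Finset.card_pos.mp (lt_of_lt_of_le Nat.zero_lt_one h1)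
    rw [Finset.mem_filter] at hq
    exact ⟨Sum.inl ⟨v, ⟨q, hq.1⟩, ⟨0, Nat.pos_of_ne_zero hq.2⟩⟩, rfl⟩

lemma netOf_N (hpos : ∀ p ∈ D.V, 1 ≤ D.degree p) (r : D.Vt → ℕ) (u : ∀ p, Fin (r p) → ℂ)
    (hu1 : ∀ p i, ‖u p i‖ = 1) (hus : ∀ p, ∑ i, u p i = -toC (D.Imb p.1)) :
    (D.netOf hpos r u hu1 hus).N univ ≤ ∑ p, r p := by
  have h1 : (D.netOf hpos r u hu1 hus).bd univ ⊆
      (univ : Finset (Σ p : D.Vt, Fin (r p))).image Sum.inr := by
    intro d hd
    rw [DartNet.mem_bd_univ] at hd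
    rcases d with ⟨p, q, i⟩ | x
    · exfalso
      have h2 : (⟨q, p, Fin.cast (D.symm _ _) i⟩ : Σ p : D.Vt, Σ q : D.Vt, Fin (D.w p.1 q.1)) =
          ⟨p, q, i⟩ := Sum.inl_injective hd
      have h3 : q = p := congrArg Sigma.fst h2
      exact D.ne_of_fin i (congrArg Subtype.val h3.symm)
    · exact Finset.mem_image_of_mem _ (Finset.mem_univ _)
  refine (Finset.card_le_card h1).trans (Finset.card_image_le.trans ?_)
  rw [Finset.card_univ, Fintype.card_sigma]
  simp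

/-- Distinct edges at a vertex point in distinct directions. -/
lemma cdir_ne (hD : D.IsGeodesicMultinet) {p q q' : Plane} (hq : D.w p q ≠ 0)
    (hq' : D.w p q' ≠ 0) (hne : q ≠ q') : cdir p q ≠ cdir p q' := by
  -- the shorter edge would be contained in the longer one
  have key : ∀ a b : Plane, D.w p a ≠ 0 → D.w p b ≠ 0 → a ≠ b → ‖a - p‖ ≤ ‖b - p‖ →
      cdir p a = cdir p b → False := by
    intro a b ha hb hab hle heq
    have hpa := D.ne_of_w ha
    have hpb := D.ne_of_w hb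
    have ha0 : 0 < ‖a - p‖ := norm_pos_iff.mpr (sub_ne_zero.mpr hpa.symm)
    have hb0 : 0 < ‖b - p‖ := norm_pos_iff.mpr (sub_ne_zero.mpr hpb.symm)
    rw [cdir_eq, cdir_eq] at heq
    have heq' := toC.injective heq
    unfold unitVec at heq'
    have h1 : a - p = (‖a - p‖ / ‖b - p‖) • (b - p) := by
      calc a - p = ‖a - p‖ • (‖a - p‖⁻¹ • (a - p)) := by
            rw [smul_smul, mul_inv_cancel₀ ha0.ne', one_smul]
        _ = ‖a - p‖ • (‖b - p‖⁻¹ • (b - p)) := by rw [heq']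
        _ = (‖a - p‖ / ‖b - p‖) • (b - p) := by rw [smul_smul, div_eq_mul_inv]
    have hseg : a ∈ segment ℝ p b := by
      rw [segment_eq_image']
      refine ⟨‖a - p‖ / ‖b - p‖, ⟨by positivity, (div_le_one hb0).mpr hle⟩, ?_⟩
      simp only
      rw [← h1]
      abel
    have hmem := hD.embedded p a p b ha hb (by
      intro hset
      have h2 : a ∈ ({p, b} : Set Plane) := by rw [← hset]; simp
      rcases h2 with h2 | h2
      · exact hpa h2.symm
      · exact hab h2) ⟨right_mem_segment ℝ p a, hseg⟩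
    rcases hmem.2 with h2 | h2
    · exact hpa h2.symm
    · exact hab h2
  intro heq
  rcases le_total ‖q - p‖ ‖q' - p‖ with h | h
  · exact key q q' hq hq' hne h heq
  · exact key q' q hq' hq hne.symm h heq.symm

/-- Balanced vertices are genuine. -/
lemma netOf_genuine (hD : D.IsGeodesicMultinet) (r : D.Vt → ℕ) (u : ∀ p, Fin (r p) → ℂ)
    (hu1 : ∀ p i, ‖u p i‖ = 1) (hus : ∀ p, ∑ i, u p i = -toC (D.Imb p.1)) (p : D.Vt)
    (hp : p.1 ∈ D.balanced) : (D.netOf hD.degree_pos r u hu1 hus).genuine p := by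
  have hdeg := hD.degree_balanced p.1 hp
  obtain ⟨a, ha, b, hb, c, hc, hab, hac, hbc⟩ := Finset.two_lt_card.mp
    (show 2 < (D.V.filter fun q => D.w p.1 q ≠ 0).card from hdeg)
  rw [Finset.mem_filter] at ha hb hc
  have hdart : ∀ q : Plane, q ∈ D.V → D.w p.1 q ≠ 0 → ∃ d : D.Dt r,
      (D.netOf hD.degree_pos r u hu1 hus).src d = p ∧
      (D.netOf hD.degree_pos r u hu1 hus).dir d = cdir p.1 q := by
    intro q hq hw
    exact ⟨Sum.inl ⟨p, ⟨q, hq⟩, ⟨0, Nat.pos_of_ne_zero hw⟩⟩, rfl, rfl⟩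
  obtain ⟨da, hda, hda'⟩ := hdart a ha.1 ha.2
  obtain ⟨db, hdb, hdb'⟩ := hdart b hb.1 hb.2
  obtain ⟨dc, hdc, hdc'⟩ := hdart c hc.1 hc.2
  have hna : ‖cdir p.1 a‖ = 1 := norm_nrm (toC_sub_ne (D.ne_of_w ha.2))
  have hnb : ‖cdir p.1 b‖ = 1 := norm_nrm (toC_sub_ne (D.ne_of_w hb.2))
  have hnc : ‖cdir p.1 c‖ = 1 := norm_nrm (toC_sub_ne (D.ne_of_w hc.2))
  by_cases h1 : crs (cdir p.1 a) (cdir p.1 b) = 0
  · by_cases h2 : crs (cdir p.1 a) (cdir p.1 c) = 0
    · exfalso
      rcases eq_or_neg_of_crs hna hnb h1 with h3 | h3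
      · exact D.cdir_ne hD ha.2 hb.2 hab h3.symm
      · rcases eq_or_neg_of_crs hna hnc h2 with h4 | h4
        · exact D.cdir_ne hD ha.2 hc.2 hac h4.symm
        · exact D.cdir_ne hD hb.2 hc.2 hbc (by rw [h3, h4])
    · exact ⟨da, dc, hda, hdc, by rw [hda', hdc']; exact h2⟩
  · exact ⟨da, db, hda, hdb, by rw [hda', hdb']; exact h1⟩

/-- Reduction to dart nets. -/
theorem reduction (hD : D.IsGeodesicMultinet) {I : ℝ} (hI : D.totalImbalance ≤ I) :
    ∃ (ι δ : Type) (_ : Fintype ι) (_ : Fintype δ) (𝒩 : DartNet ι δ),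
      𝒩.N univ ≤ ⌊I⌋₊ + 2 * D.unbalanced.card ∧ D.balanced.card ≤ 𝒩.g univ := by
  set r : D.Vt → ℕ := fun p => if D.Imb p.1 = 0 then 0 else ⌊‖D.Imb p.1‖⌋₊ + 2 with hr
  have hu : ∀ p : D.Vt, ∃ u : Fin (r p) → ℂ, (∀ i, ‖u i‖ = 1) ∧
      ∑ i, u i = -toC (D.Imb p.1) := by
    intro p
    by_cases h : D.Imb p.1 = 0
    · have h1 : r p = 0 := by simp [hr, h]
      rw [h1]
      exact ⟨fun i => i.elim0, fun i => i.elim0, by simp [h]⟩
    · have h1 : r p = ⌊‖D.Imb p.1‖⌋₊ + 2 := by simp [hr, h]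
      rw [h1]
      apply exists_units _ (by omega)
      rw [norm_neg, LinearIsometryEquiv.norm_map]
      push_cast
      have := (Nat.lt_floor_add_one ‖D.Imb p.1‖).le
      linarith
  choose u hu1 hus using hu
  refine ⟨D.Vt, D.Dt r, inferInstance, inferInstance, D.netOf hD.degree_pos r u hu1 hus, ?_, ?_⟩
  · refine (D.netOf_N hD.degree_pos r u hu1 hus).trans ?_
    have h1 : ∑ p : D.Vt, r p = ∑ p ∈ D.V, (if D.Imb p = 0 then 0 else ⌊‖D.Imb p‖⌋₊ + 2) :=
      Finset.sum_coe_sort D.V (fun p => if D.Imb p = 0 then 0 else ⌊‖D.Imb p‖⌋₊ + 2)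
    have h2 : ∑ p ∈ D.V, (if D.Imb p = 0 then 0 else ⌊‖D.Imb p‖⌋₊ + 2) =
        ∑ p ∈ D.unbalanced, (⌊‖D.Imb p‖⌋₊ + 2) := by
      unfold unbalanced
      rw [Finset.sum_filter]
      apply Finset.sum_congr rfl
      intro p _
      by_cases h : D.Imb p = 0
      · simp [h]
      · simp [h]
    rw [h1, h2, Finset.sum_add_distrib]
    have h3 : ∑ p ∈ D.unbalanced, ⌊‖D.Imb p‖⌋₊ ≤ ⌊I⌋₊ := by
      apply Nat.le_floor
      push_cast
      refine le_trans ?_ hI
      exact Finset.sum_le_sum fun p _ => Nat.floor_le (norm_nonneg _)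
    have h4 : ∑ p ∈ D.unbalanced, 2 = 2 * D.unbalanced.card := by
      rw [Finset.sum_const, smul_eq_mul, mul_comm]
    omega
  · unfold DartNet.g
    have h1 : D.balanced ⊆
        ((univ.filter (D.netOf hD.degree_pos r u hu1 hus).genuine).image Subtype.val) := by
      intro p hp
      have hpV : p ∈ D.V := (Finset.mem_filter.mp hp).1
      rw [Finset.mem_image]
      refine ⟨⟨p, hpV⟩, ?_, rfl⟩
      rw [Finset.mem_filter]
      exact ⟨Finset.mem_univ _, D.netOf_genuine hD r u hu1 hus ⟨p, hpV⟩ hp⟩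
    exact (Finset.card_le_card h1).trans Finset.card_image_le

end Drawing

end

end Pool.Agent.Lib.Pb48dd4
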