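import Pool.Agent.Lib.Pb48dd4.Window

/-!
# The thin case

Auxiliary file for MP_b48dd4_gt.
-/

namespace Pool.Agent.Lib.Pb48dd4

open Finset
open scoped Classical

noncomputable section

variable {ι δ : Type} [Fintype ι] [Fintype δ]

lemma eq_of_coords {e : ℂ} (he : ‖e‖ = 1) {a b : ℂ} (h1 : dot e a = dot e b)
    (h2 : crs e a = crs e b) : a = b := by
  have h3 := dot_sq_add_crs_sq e (a - b)
  rw [dot_sub_right, crs_sub_right, h1, h2, sub_self, sub_self, he] at h3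
  have h4 : ‖a - b‖ = 0 := by
    have : ‖a - b‖ ^ 2 = 0 := by linarith
    exact pow_eq_zero_iff (two_ne_zero) |>.mp this
  exact sub_eq_zero.mp (norm_eq_zero.mp h4)

namespace DartNet

/-- Bound for a far region when classes of rays are small. -/
lemma far_bound_gen (𝒩 : DartNet ι δ) {n : ℕ} (hn : 𝒩.N univ = n) {F : ℕ}
    (hIH : ∀ S, 𝒩.N S < n → 𝒩.g S ≤ F) {θm ε : ℝ} (hθm : 0 < θm)
    (hθmn : (n : ℝ) * θm ^ 2 < 1)
    (hclass : ∀ θ, θ ≤ θm → ∀ b ∈ 𝒩.bd univ,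
      2 * ((𝒩.bd univ).filter fun b' => ‖𝒩.dir b' - 𝒩.dir b‖ ≤ θ).card < n)
    (hε : ε = θm / (8 * ((n : ℝ) + 3)) ^ (n ^ 2)) {q : ℂ}
    {O : Finset ι} (hfar : 𝒩.Far q ε O) : 𝒩.g O ≤ n * F := by
  set K : ℝ := 8 * ((n : ℝ) + 3) with hK
  have hn0 : (0 : ℝ) ≤ n := by positivity
  have hK1 : 1 ≤ K := by rw [hK]; linarith
  have hKp : 0 < K ^ (n ^ 2) := by positivity
  have hε0 : 0 < ε := by rw [hε]; positivity
  have hcard : (𝒩.bd univ).card = n := hn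
  obtain ⟨j, hj, hgap⟩ := exists_gap_scale (𝒩.bd univ) 𝒩.dir ε K hε0 hK1
  rw [hcard] at hj
  set θ := K ^ j * ε with hθ
  have hθε : ε ≤ θ := by
    rw [hθ]
    have : 1 ≤ K ^ j := one_le_pow₀ hK1
    nlinarith
  have hθ0 : 0 < θ := lt_of_lt_of_le hε0 hθε
  have hθm' : θ ≤ θm := by
    rw [hθ, hε, mul_div_assoc', div_le_iff₀ hKp, mul_comm]
    exact mul_le_mul_of_nonneg_left (pow_le_pow_right₀ hK1 hj) hθm.le
  have hsq : θ ^ 2 ≤ θm ^ 2 := pow_le_pow_left₀ hθ0.le hθm' 2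
  have hθn : (𝒩.N univ : ℝ) * θ ^ 2 < 1 := by
    rw [hn]
    exact lt_of_le_of_lt (mul_le_mul_of_nonneg_left hsq hn0) hθmn
  have hεn : (𝒩.N univ : ℝ) * ε ^ 2 < 1 := by
    refine lt_of_le_of_lt ?_ hθn
    exact mul_le_mul_of_nonneg_left (pow_le_pow_left₀ hε0.le hθε 2) (by positivity)
  obtain ⟨h1, h2⟩ := hfar.main hεn hε0.le hθε (by
    intro b hb b' hb'
    rcases hgap b hb b' hb' with h | h
    · exact Or.inl h
    · right
      rw [hn, ← hK, hθ, ← mul_assoc, ← pow_succ']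
      exact h)
  have h3 : ∀ b ∈ 𝒩.bd univ, 𝒩.g (𝒩.cls q O θ (((𝒩.N univ : ℝ) + 3) * θ) b) ≤ F := by
    intro b hb
    apply hIH
    exact lt_of_le_of_lt (h2 b hb) (hclass θ hθm' b hb)
  calc 𝒩.g O ≤ ∑ b ∈ 𝒩.bd univ, 𝒩.g (𝒩.cls q O θ (((𝒩.N univ : ℝ) + 3) * θ) b) :=
        𝒩.g_le_sum _ _ _ h1
    _ ≤ ∑ b ∈ 𝒩.bd univ, F := Finset.sum_le_sum h3
    _ = n * F := by rw [Finset.sum_const, smul_eq_mul, hcard]

namespace ThinData

variable {𝒩 : DartNet ι δ} {k : ℕ} {ed : ℝ} {e : ℂ}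

/-- Classes of rays are small in a thin net with positive defect. -/
lemma class_lt (T : 𝒩.ThinData k ed e) {θ : ℝ} (hθ : (k : ℝ) * θ ^ 2 / 2 < ed) (hθ1 : θ < 1)
    {b : δ} :
    ((𝒩.bd univ).filter fun b' => ‖𝒩.dir b' - 𝒩.dir b‖ ≤ θ).card < k := by
  by_contra hcon
  push Not at hcon
  have hed1 := T.ed1
  have hk : (1 : ℝ) ≤ k := by exact_mod_cast T.hk
  -- common computation
  have key : ∀ (S : Finset δ) (u : ℂ), S.card = k →
      (∀ b' ∈ S, ‖𝒩.dir b' - 𝒩.dir b‖ ≤ θ) → ∑ d ∈ S, 𝒩.dir d = ((k : ℝ) - ed) • u →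
      ‖u‖ = 1 → False := by
    intro S u hS hb' hsum hu
    have h1 : (k : ℝ) * (1 - θ ^ 2 / 2) ≤ ∑ d ∈ S, dot (𝒩.dir b) (𝒩.dir d) := by
      rw [← hS, ← nsmul_eq_mul, ← Finset.sum_const]
      apply Finset.sum_le_sum
      intro d hd
      have h2 := one_sub_dot (𝒩.norm_dir b) (𝒩.norm_dir d)
      rw [norm_sub_rev] at h2
      have h3 := pow_le_pow_left₀ (norm_nonneg _) (hb' d hd) 2
      linarith
    rw [← dot_sum_right, hsum, dot_smul_right] at h1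
    have h2 : dot (𝒩.dir b) u ≤ 1 := by
      have := dot_le (𝒩.dir b) u
      rwa [𝒩.norm_dir, hu, one_mul] at this
    have h3 : ((k : ℝ) - ed) * dot (𝒩.dir b) u ≤ ((k : ℝ) - ed) * 1 :=
      mul_le_mul_of_nonneg_left h2 (by linarith)
    linarith
  have hside : ∀ b', ‖𝒩.dir b' - 𝒩.dir b‖ ≤ θ → |𝒩.C e b' - 𝒩.C e b| < 1 := by
    intro b' hb'
    have h1 := abs_dot_le e (𝒩.dir b' - 𝒩.dir b)
    rw [dot_sub_right, T.he, one_mul] at h1
    exact lt_of_le_of_lt (h1.trans hb') hθ1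
  rcases lt_or_gt_of_ne (T.C_ne b) with hC | hC
  · have hsub : ((𝒩.bd univ).filter fun b' => ‖𝒩.dir b' - 𝒩.dir b‖ ≤ θ) ⊆
        (𝒩.bd univ).filter fun d => 𝒩.C e d < 0 := by
      intro b' hb'
      rw [Finset.mem_filter] at hb' ⊢
      refine ⟨hb'.1, ?_⟩
      by_contra h
      have h1 : 0 < 𝒩.C e b' := lt_of_le_of_ne (not_lt.mp h) (Ne.symm (T.C_ne b'))
      have h2 := T.tc_ge b'
      have h3 := T.tc_ge b
      unfold tc at h2 h3
      rw [abs_of_pos h1] at h2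
      rw [abs_of_neg hC] at h3
      have h4 := (abs_lt.mp (hside b' hb'.2)).2
      linarith
    have heq := Finset.eq_of_subset_of_card_le hsub (by rw [T.cardL]; exact hcon)
    refine key _ (-e) T.cardL ?_ ?_ (by rw [norm_neg]; exact T.he)
    · intro b' hb'
      rw [← heq, Finset.mem_filter] at hb'
      exact hb'.2
    · rw [T.sumL, smul_neg]
  · have hsub : ((𝒩.bd univ).filter fun b' => ‖𝒩.dir b' - 𝒩.dir b‖ ≤ θ) ⊆
        (𝒩.bd univ).filter fun d => 0 < 𝒩.C e d := by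
      intro b' hb'
      rw [Finset.mem_filter] at hb' ⊢
      refine ⟨hb'.1, ?_⟩
      by_contra h
      have h1 : 𝒩.C e b' < 0 := lt_of_le_of_ne (not_lt.mp h) (T.C_ne b')
      have h2 := T.tc_ge b'
      have h3 := T.tc_ge b
      unfold tc at h2 h3
      rw [abs_of_neg h1] at h2
      rw [abs_of_pos hC] at h3
      have h4 := (abs_lt.mp (hside b' hb'.2)).1
      linarith
    have heq := Finset.eq_of_subset_of_card_le hsub (by rw [T.cardR]; exact hcon)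
    refine key _ e T.cardR ?_ T.sumR T.he
    intro b' hb'
    rw [← heq, Finset.mem_filter] at hb'
    exact hb'.2

/-- Outer regions of a thin net are nearly radial about the centre. -/
lemma far_region (T : 𝒩.ThinData k ed e) {t₀ y₀ : ℝ}
    (hy : ∀ t, ∑ d ∈ 𝒩.alive e t, (𝒩.pos e d t - y₀) * 𝒩.tc e d = 0) {a₀ b₀ : δ}
    (hab₀ : Ext 𝒩 e t₀ a₀ b₀) {D₀ : ℝ} (hD₀ : D₀ = 𝒩.pos e b₀ t₀ - 𝒩.pos e a₀ t₀)
    (hD₀p : 0 ≤ D₀) {Λ ε σ : ℝ} (hσ0 : 0 < σ) (hσ2 : σ ^ 2 = 2 * ed) (hσ : σ ≤ 1 / 4)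
    (hΛ : 0 < Λ) (hε0 : 0 ≤ ε) (hε : ε ≤ 1 / 4)
    (hεΛ : (k : ℝ) * σ ^ 2 / Λ ^ 2 + 2 * ed ^ 2 ≤ ε ^ 2) {s : ℝ} (hs : s = 1 ∨ s = -1) :
    𝒩.Far (pt e t₀ y₀) ε (univ.filter fun v => Λ * D₀ / σ < s * (𝒩.X e v - t₀)) := by
  have hs1 : |s| = 1 := by rcases hs with rfl | rfl <;> norm_num
  have hss : s * s = 1 := by rcases hs with rfl | rfl <;> norm_num
  have ht1 : 0 ≤ Λ * D₀ / σ := by positivity
  have mO : ∀ v, v ∈ (univ.filter fun v => Λ * D₀ / σ < s * (𝒩.X e v - t₀)) ↔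
      Λ * D₀ / σ < s * (𝒩.X e v - t₀) := fun v => by simp
  have habs : ∀ x : ℝ, 0 < s * x → |x| = s * x := by
    intro x hx
    rw [← abs_of_pos hx, abs_mul, hs1, one_mul]
  -- main radial estimate
  have hcrs : ∀ d, Λ * D₀ / σ < s * (𝒩.X e (𝒩.src d) - t₀) →
      |crs (𝒩.z (𝒩.src d) - pt e t₀ y₀) (𝒩.dir d)| ≤ ε * |𝒩.X e (𝒩.src d) - t₀| := by
    intro d hd
    set τ := 𝒩.X e (𝒩.src d) - t₀ with hτ
    have hτabs : |τ| = s * τ := habs τ (lt_of_le_of_lt ht1 hd)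
    rw [← hτabs] at hd
    have h1 := T.radial hy hab₀ d
    rw [← hD₀, ← hτ] at h1
    apply abs_le_of_sq_le_sq _ (by positivity)
    refine h1.trans ?_
    rw [mul_pow, sq_abs]
    rw [div_lt_iff₀ hσ0] at hd
    have h2 : Λ * D₀ ≤ |τ| * σ := hd.le
    have h3 : (Λ * D₀) ^ 2 ≤ (|τ| * σ) ^ 2 := pow_le_pow_left₀ (by positivity) h2 2
    rw [mul_pow, mul_pow, sq_abs] at h3
    have h4 : D₀ ^ 2 ≤ τ ^ 2 * σ ^ 2 / Λ ^ 2 := by
      rw [le_div_iff₀ (by positivity)]; linarith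
    have h5 : (k : ℝ) * D₀ ^ 2 ≤ k * (τ ^ 2 * σ ^ 2 / Λ ^ 2) :=
      mul_le_mul_of_nonneg_left h4 (by positivity)
    have h6 : ((k : ℝ) * σ ^ 2 / Λ ^ 2 + 2 * ed ^ 2) * τ ^ 2 ≤ ε ^ 2 * τ ^ 2 :=
      mul_le_mul_of_nonneg_right hεΛ (sq_nonneg _)
    have h7 : (k : ℝ) * (τ ^ 2 * σ ^ 2 / Λ ^ 2) = (k : ℝ) * σ ^ 2 / Λ ^ 2 * τ ^ 2 := by ring
    linarith
  refine ⟨?_, ?_, ?_⟩
  · intro v hv
    rw [mO] at hv
    intro hc
    have h1 := T.dot_z_sub t₀ y₀ v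
    rw [hc, sub_self, dot_zero_right] at h1
    rw [← h1, mul_zero] at hv
    linarith
  · intro d hd
    rw [mO] at hd
    refine (hcrs d hd).trans ?_
    apply mul_le_mul_of_nonneg_left _ hε0
    rw [← T.dot_z_sub t₀ y₀]
    have := abs_dot_le e (𝒩.z (𝒩.src d) - pt e t₀ y₀)
    rwa [T.he, one_mul] at this
  · intro d hd hr ho
    rw [mO] at hd ⊢
    have h1 := hcrs d hd
    set τ := 𝒩.X e (𝒩.src d) - t₀ with hτ
    have hτpos : 0 < s * τ := lt_of_le_of_lt ht1 hd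
    have hτabs : |τ| = s * τ := habs τ hτpos
    have hτ0 : 0 < |τ| := by rw [hτabs]; exact hτpos
    -- the dart points in direction `s`
    have hsC : 0 < s * 𝒩.C e d := by
      by_contra hcon
      push Not at hcon
      unfold Out at ho
      rw [dot_decomp T.he, T.dot_z_sub, T.crs_z_sub] at ho
      rw [crs_decomp T.he, T.dot_z_sub, T.crs_z_sub] at h1
      change 0 < τ * 𝒩.C e d + (𝒩.Y e (𝒩.src d) - y₀) * 𝒩.Sn e d at ho
      change |τ * 𝒩.Sn e d - (𝒩.Y e (𝒩.src d) - y₀) * 𝒩.C e d| ≤ ε * |τ| at h1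
      set η := 𝒩.Y e (𝒩.src d) - y₀ with hη
      have hSn : |𝒩.Sn e d| ≤ σ := by
        apply abs_le_of_sq_le_sq _ hσ0.le
        rw [hσ2]
        exact T.Sn_sq_le d
      have htc : 3 / 4 ≤ |𝒩.C e d| := by
        have h2 := T.tc_ge d
        have h3 := T.ed1
        unfold tc at h2
        linarith
      have h2 : |η| * |𝒩.C e d| ≤ |τ| / 2 := by
        rw [← abs_mul]
        have h3 : η * 𝒩.C e d = τ * 𝒩.Sn e d - (τ * 𝒩.Sn e d - η * 𝒩.C e d) := by ring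
        rw [h3]
        refine (abs_sub _ _).trans ?_
        have h4 : |τ * 𝒩.Sn e d| ≤ |τ| * (1 / 4) := by
          rw [abs_mul]
          exact mul_le_mul_of_nonneg_left (hSn.trans hσ) (abs_nonneg _)
        have h5 : ε * |τ| ≤ 1 / 4 * |τ| := mul_le_mul_of_nonneg_right hε (abs_nonneg _)
        linarith
      have h3 : |η| * (3 / 4) ≤ |τ| / 2 :=
        le_trans (mul_le_mul_of_nonneg_left htc (abs_nonneg _)) h2
      have h4 : η * 𝒩.Sn e d ≤ |η| * (1 / 4) := by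
        refine (le_abs_self _).trans ?_
        rw [abs_mul]
        exact mul_le_mul_of_nonneg_left (hSn.trans hσ) (abs_nonneg _)
      have h5 : s * 𝒩.C e d ≤ -(3 / 4) := by
        have h6 : |s * 𝒩.C e d| = |𝒩.C e d| := by rw [abs_mul, hs1, one_mul]
        rw [abs_of_nonpos hcon] at h6
        linarith
      have h6 : τ * 𝒩.C e d = (s * τ) * (s * 𝒩.C e d) := by
        calc τ * 𝒩.C e d = (s * s) * (τ * 𝒩.C e d) := by rw [hss, one_mul]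
          _ = (s * τ) * (s * 𝒩.C e d) := by ring
      have h7 : (s * τ) * (s * 𝒩.C e d) ≤ (s * τ) * (-(3 / 4)) :=
        mul_le_mul_of_nonneg_left h5 hτpos.le
      rw [h6] at ho
      rw [← hτabs] at h7 ho
      linarith
    rw [X_rev hr]
    have h2 := mul_pos (𝒩.len_pos d hr) hsC
    have h3 : s * (𝒩.X e (𝒩.src d) + 𝒩.len d * 𝒩.C e d - t₀) =
        s * τ + 𝒩.len d * (s * 𝒩.C e d) := by rw [hτ]; ring
    rw [h3]
    linarith

end ThinData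

/-- The thin case. -/
theorem thin_case (n F : ℕ) :
    ∃ κ : ℝ, 0 < κ ∧ ∃ C : ℕ, ∀ (ι δ : Type) [Fintype ι] [Fintype δ] (𝒩 : DartNet ι δ),
      𝒩.N univ = n → (∀ S, 𝒩.N S < n → 𝒩.g S ≤ F) → 𝒩.Thin κ → 𝒩.g univ ≤ C := by
  rcases Nat.eq_zero_or_pos n with rfl | hnpos
  · refine ⟨1, one_pos, 0, ?_⟩
    intro ι δ _ _ 𝒩 hN _ _
    have h1 : (univ : Finset ι) = ∅ := by
      rw [Finset.eq_empty_iff_forall_notMem]
      intro v _
      have h2 := 𝒩.degree_le v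
      rw [hN] at h2
      obtain ⟨d, hd⟩ := 𝒩.has v
      have h3 : 0 < (univ.filter fun d => 𝒩.src d = v).card :=
        Finset.card_pos.mpr ⟨d, Finset.mem_filter.mpr ⟨Finset.mem_univ _, hd⟩⟩
      omega
    rw [h1]
    simp [g]
  have hn1 : (1 : ℝ) ≤ n := by exact_mod_cast hnpos
  set P : ℝ := (8 * ((n : ℝ) + 3)) ^ (n ^ 2) with hP
  have hP1 : 1 ≤ P := by rw [hP]; exact one_le_pow₀ (by linarith)
  have hn2 : (1 : ℝ) ≤ (n : ℝ) ^ 2 := one_le_pow₀ hn1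
  set κ : ℝ := 1 / ((n : ℝ) ^ 2 * P) with hκ
  have hκ0 : 0 < κ := by rw [hκ]; positivity
  set Λ : ℝ := (n : ℝ) ^ 2 * P with hΛ
  have hΛ0 : 0 < Λ := by rw [hΛ]; positivity
  set M : ℕ := ⌈80 * (n : ℝ) ^ 2 * Λ⌉₊ with hM
  refine ⟨κ, hκ0, 1 + (2 * M + 1) * (2 * F) + n * F + n * F, ?_⟩
  intro ι δ _ _ 𝒩 hN hIH hthin
  have hκ4 : (𝒩.N univ : ℝ) ^ 4 * κ ^ 2 ≤ 1 := by
    rw [hN, hκ]
    have h1 : (n : ℝ) ^ 4 * (1 / ((n : ℝ) ^ 2 * P)) ^ 2 = 1 / P ^ 2 := by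
      field_simp
    rw [h1, div_le_one (by positivity)]
    exact one_le_pow₀ hP1
  obtain ⟨k, ed, e, T, hedκ⟩ := 𝒩.exists_thinData (by rw [hN]; exact hnpos) hκ4 hthin
  have hn2k : n = 2 * k := by rw [← hN]; exact T.hN
  have hn2k' : (n : ℝ) = 2 * k := by rw [hn2k]; push_cast; ring
  have hk1 : (1 : ℝ) ≤ k := by exact_mod_cast T.hk
  have hIH' : ∀ S, 𝒩.N S < 2 * k → 𝒩.g S ≤ F := by rw [← hn2k]; exact hIH
  rcases T.ed0.eq_or_lt with hed | hed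
  · -- zero defect: everything is horizontal
    have h1 : 𝒩.g univ = 0 := by
      unfold g
      rw [Finset.card_eq_zero, Finset.filter_eq_empty_iff]
      rintro v - ⟨d, d', -, -, hcr⟩
      apply hcr
      have hS : ∀ d, 𝒩.Sn e d = 0 := by
        intro d
        have h2 := T.Sn_sq_le d
        rw [← hed] at h2
        have h3 : 𝒩.Sn e d ^ 2 = 0 := le_antisymm (by linarith) (sq_nonneg _)
        exact pow_eq_zero_iff (two_ne_zero) |>.mp h3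
      rw [crs_decomp T.he]
      change 𝒩.C e d * 𝒩.Sn e d' - 𝒩.Sn e d * 𝒩.C e d' = 0
      rw [hS, hS]; ring
    rw [h1]
    exact Nat.zero_le _
  obtain ⟨t₀, y₀, ht₀, hy⟩ := T.exists_center hed
  obtain ⟨a₀, b₀, hab₀⟩ := T.exists_ext t₀
  set D₀ : ℝ := 𝒩.pos e b₀ t₀ - 𝒩.pos e a₀ t₀ with hD₀
  have hD₀p : 0 ≤ D₀ := by rw [hD₀]; linarith [(hab₀.2.2 a₀ hab₀.1).2]
  set σ := Real.sqrt (2 * ed) with hσ
  have hσ2 : σ ^ 2 = 2 * ed := Real.sq_sqrt (by linarith)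
  have hσ0 : 0 < σ := Real.sqrt_pos.mpr (by linarith)
  -- smallness of the defect
  have hκ2 : κ ^ 2 = 1 / (16 * (k : ℝ) ^ 4 * P ^ 2) := by
    rw [hκ, hΛ, hn2k']; field_simp; norm_num
  have hedP : ed ≤ 1 / (32 * (k : ℝ) ^ 3 * P ^ 2) := by
    refine hedκ.trans (le_of_eq ?_)
    rw [hκ2]; field_simp; norm_num
  have hedP' : ed * (32 * (k : ℝ) ^ 3 * P ^ 2) ≤ 1 := by
    rwa [le_div_iff₀ (by positivity)] at hedP
  have hk3 : (1 : ℝ) ≤ (k : ℝ) ^ 3 := one_le_pow₀ hk1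
  have hk2 : (1 : ℝ) ≤ (k : ℝ) ^ 2 := one_le_pow₀ hk1
  have hP2 : 1 ≤ P ^ 2 := one_le_pow₀ hP1
  have hkP : 1 ≤ (k : ℝ) ^ 3 * P ^ 2 := by nlinarith
  have hed32 : ed ≤ 1 / 32 := by nlinarith
  have hσ4 : σ ≤ 1 / 4 := by
    apply le_of_sq_le_sq _ (by norm_num)
    rw [hσ2]; linarith
  set θm : ℝ := σ / (2 * k) with hθm
  have hθm0 : 0 < θm := by rw [hθm]; positivity
  have hθm2 : θm ^ 2 = ed / (2 * (k : ℝ) ^ 2) := by
    rw [hθm, div_pow, hσ2]; field_simp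
  have hθmed : (k : ℝ) * θm ^ 2 / 2 < ed := by
    rw [hθm2]
    have h1 : (k : ℝ) * (ed / (2 * (k : ℝ) ^ 2)) / 2 = ed / (4 * k) := by
      field_simp; norm_num
    rw [h1, div_lt_iff₀ (by positivity)]
    nlinarith
  have hθm1 : θm < 1 := by
    rw [hθm, div_lt_one (by positivity)]
    linarith
  have hθmn : (n : ℝ) * θm ^ 2 < 1 := by
    rw [hn2k', hθm2]
    have h1 : 2 * (k : ℝ) * (ed / (2 * (k : ℝ) ^ 2)) = ed / k := by field_simp
    rw [h1, div_lt_one (by positivity)]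
    linarith
  have hclass : ∀ θ, θ ≤ θm → ∀ b ∈ 𝒩.bd univ,
      2 * ((𝒩.bd univ).filter fun b' => ‖𝒩.dir b' - 𝒩.dir b‖ ≤ θ).card < n := by
    intro θ hθ b _
    have h1 := T.class_lt hθmed hθm1 (b := b)
    have h2 : ((𝒩.bd univ).filter fun b' => ‖𝒩.dir b' - 𝒩.dir b‖ ≤ θ).card ≤
        ((𝒩.bd univ).filter fun b' => ‖𝒩.dir b' - 𝒩.dir b‖ ≤ θm).card := by
      apply Finset.card_le_card
      intro b' hb'
      rw [Finset.mem_filter] at hb' ⊢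
      exact ⟨hb'.1, hb'.2.trans hθ⟩
    omega
  set ε : ℝ := θm / P with hε
  have hε0 : 0 < ε := by rw [hε]; positivity
  have hε4 : ε ≤ 1 / 4 := by
    have h1 : ε ≤ θm := by
      rw [hε]
      exact div_le_self hθm0.le hP1
    have h2 : θm ≤ σ := by
      rw [hθm]
      exact div_le_self hσ0.le (by linarith)
    linarith
  have hεΛ : (k : ℝ) * σ ^ 2 / Λ ^ 2 + 2 * ed ^ 2 ≤ ε ^ 2 := by
    have h1 : ε ^ 2 = ed / (2 * (k : ℝ) ^ 2 * P ^ 2) := by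
      rw [hε, div_pow, hθm2]; field_simp
    have h2 : (k : ℝ) * σ ^ 2 / Λ ^ 2 = ed / (8 * (k : ℝ) ^ 3 * P ^ 2) := by
      rw [hσ2, hΛ, hn2k']; field_simp; norm_num
    rw [h1, h2]
    have h3 : ed / (8 * (k : ℝ) ^ 3 * P ^ 2) ≤ ed / (8 * (k : ℝ) ^ 2 * P ^ 2) := by
      apply div_le_div_of_nonneg_left hed.le (by positivity)
      have : (k : ℝ) ^ 2 ≤ (k : ℝ) ^ 3 := pow_le_pow_right₀ hk1 (by norm_num)
      nlinarith
    have h4 : 2 * ed ^ 2 ≤ ed / (8 * (k : ℝ) ^ 2 * P ^ 2) := by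
      rw [le_div_iff₀ (by positivity)]
      have h5 : ed * (16 * (k : ℝ) ^ 2 * P ^ 2) ≤ 1 := by
        refine le_trans (mul_le_mul_of_nonneg_left ?_ hed.le) hedP'
        have : (k : ℝ) ^ 2 ≤ (k : ℝ) ^ 3 := pow_le_pow_right₀ hk1 (by norm_num)
        have h6 : (0 : ℝ) ≤ (k : ℝ) ^ 3 := by positivity
        nlinarith
      calc 2 * ed ^ 2 * (8 * (k : ℝ) ^ 2 * P ^ 2) =
            ed * (ed * (16 * (k : ℝ) ^ 2 * P ^ 2)) := by ring
        _ ≤ ed * 1 := mul_le_mul_of_nonneg_left h5 hed.le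
        _ = ed := mul_one _
    have h5 : ed / (8 * (k : ℝ) ^ 2 * P ^ 2) + ed / (8 * (k : ℝ) ^ 2 * P ^ 2) ≤
        ed / (2 * (k : ℝ) ^ 2 * P ^ 2) := by
      have h6 : ed / (2 * (k : ℝ) ^ 2 * P ^ 2) =
          4 * (ed / (8 * (k : ℝ) ^ 2 * P ^ 2)) := by field_simp; norm_num
      have h7 : 0 ≤ ed / (8 * (k : ℝ) ^ 2 * P ^ 2) := by positivity
      rw [h6]; linarith
    linarith
  -- outer regions
  have hO : ∀ s : ℝ, s = 1 ∨ s = -1 →
      𝒩.g (univ.filter fun v => Λ * D₀ / σ < s * (𝒩.X e v - t₀)) ≤ n * F := by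
    intro s hs
    have hfar := T.far_region hy hab₀ hD₀ hD₀p hσ0 hσ2 hσ4 hΛ0 hε0.le hε4 hεΛ hs
    exact 𝒩.far_bound_gen hN hIH hθm0 hθmn hclass hε hfar
  -- middle region
  have hmid : 𝒩.g (univ.filter fun v => |𝒩.X e v - t₀| ≤ Λ * D₀ / σ) ≤
      1 + (2 * M + 1) * (2 * F) := by
    rcases hD₀p.eq_or_lt with hD | hD
    · refine le_trans (𝒩.g_le_card _) ?_
      have h1 : (univ.filter fun v => |𝒩.X e v - t₀| ≤ Λ * D₀ / σ).card ≤ 1 := by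
        apply Finset.card_le_one.mpr
        have hY : ∀ v, v ∈ (univ.filter fun v => |𝒩.X e v - t₀| ≤ Λ * D₀ / σ) →
            𝒩.X e v = t₀ ∧ 𝒩.Y e v = 𝒩.pos e a₀ t₀ := by
          intro v hv
          rw [Finset.mem_filter, ← hD, mul_zero, zero_div] at hv
          have h2 : 𝒩.X e v = t₀ := by
            have := abs_nonpos_iff.mp hv.2
            linarith
          refine ⟨h2, ?_⟩
          obtain ⟨d, hd, hd'⟩ := T.bwd _ v le_rfl t₀ h2.ge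
          rw [h2, sub_self, mul_zero] at hd'
          have h3 := abs_nonpos_iff.mp hd'
          have h4 := hab₀.2.2 d hd
          linarith
        intro v hv w hw
        obtain ⟨h2, h3⟩ := hY v hv
        obtain ⟨h4, h5⟩ := hY w hw
        apply 𝒩.z_inj
        apply eq_of_coords T.he
        · change 𝒩.X e v = 𝒩.X e w
          rw [h2, h4]
        · change 𝒩.Y e v = 𝒩.Y e w
          rw [h3, h5]
      omega
    · have hM' : 80 * (k : ℝ) ^ 2 * Λ ≤ M := by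
        rw [hM]
        refine le_trans ?_ (Nat.le_ceil _)
        have : (k : ℝ) ^ 2 ≤ (n : ℝ) ^ 2 := by
          rw [hn2k']; nlinarith
        exact mul_le_mul_of_nonneg_right (by linarith) hΛ0.le
      have := T.middle hIH' hed ht₀ hab₀ hD₀ hD hM'
      rw [← hσ] at this
      omega
  have hcov : (univ : Finset ι) ⊆ ((univ.filter fun v => |𝒩.X e v - t₀| ≤ Λ * D₀ / σ) ∪
      (univ.filter fun v => Λ * D₀ / σ < (1 : ℝ) * (𝒩.X e v - t₀))) ∪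
      (univ.filter fun v => Λ * D₀ / σ < (-1 : ℝ) * (𝒩.X e v - t₀)) := by
    intro v _
    simp only [Finset.mem_union, Finset.mem_filter, Finset.mem_univ, true_and]
    by_cases h1 : |𝒩.X e v - t₀| ≤ Λ * D₀ / σ
    · exact Or.inl (Or.inl h1)
    · push Not at h1
      rcases lt_abs.mp h1 with h | h
      · exact Or.inl (Or.inr (by linarith))
      · exact Or.inr (by linarith)
  have h1 := 𝒩.g_mono hcov
  have h2 := 𝒩.g_union_le ((univ.filter fun v => |𝒩.X e v - t₀| ≤ Λ * D₀ / σ) ∪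
      (univ.filter fun v => Λ * D₀ / σ < (1 : ℝ) * (𝒩.X e v - t₀)))
      (univ.filter fun v => Λ * D₀ / σ < (-1 : ℝ) * (𝒩.X e v - t₀))
  have h3 := 𝒩.g_union_le (univ.filter fun v => |𝒩.X e v - t₀| ≤ Λ * D₀ / σ)
      (univ.filter fun v => Λ * D₀ / σ < (1 : ℝ) * (𝒩.X e v - t₀))
  have h4 := hO 1 (Or.inl rfl)
  have h5 := hO (-1) (Or.inr rfl)
  omega

end DartNet

end

end Pool.Agent.Lib.Pb48dd4
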