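import Pool.Agent.Lib.Pb48dd4.Cover

/-!
# Tracks: a net as a one-dimensional particle system

Auxiliary file for MP_b48dd4_gt.
-/

namespace Pool.Agent.Lib.Pb48dd4

open Finset
open scoped Classical

noncomputable section

variable {ι δ : Type} [Fintype ι] [Fintype δ]

namespace DartNet

variable (𝒩 : DartNet ι δ) (e : ℂ)

/-- Horizontal component of a dart. -/
def C (d : δ) : ℝ := dot e (𝒩.dir d)

/-- Vertical component of a dart. -/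
def Sn (d : δ) : ℝ := crs e (𝒩.dir d)

/-- Abscissa (time). -/
def X (v : ι) : ℝ := dot e (𝒩.z v)

/-- Ordinate (position). -/
def Y (v : ι) : ℝ := crs e (𝒩.z v)

/-- Slope. -/
def sl (d : δ) : ℝ := 𝒩.Sn e d / 𝒩.C e d

/-- Position of the track of `d` at time `t`. -/
def pos (d : δ) (t : ℝ) : ℝ := 𝒩.Y e (𝒩.src d) + (t - 𝒩.X e (𝒩.src d)) * 𝒩.sl e d

/-- Right-pointing horizontal component of a track. -/
def tc (d : δ) : ℝ := |𝒩.C e d|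

/-- Right-pointing vertical component of a track. -/
def ts (d : δ) : ℝ := 𝒩.sl e d * |𝒩.C e d|

/-- Tracks alive at time `t`. -/
def alive (t : ℝ) : Finset δ := univ.filter fun d =>
  (0 < 𝒩.C e d ∧ 𝒩.X e (𝒩.src d) < t ∧ (𝒩.rev d = d ∨ t ≤ 𝒩.X e (𝒩.src (𝒩.rev d)))) ∨
  (𝒩.C e d < 0 ∧ 𝒩.rev d = d ∧ t ≤ 𝒩.X e (𝒩.src d))

/-- Index set of tracks. -/
def tracks : Finset δ := univ.filter fun d => 0 < 𝒩.C e d ∨ 𝒩.rev d = d

/-- Start of a track (clipped below `lo`). -/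
def ta (lo : ℝ) (d : δ) : ℝ :=
  if 0 < 𝒩.C e d then 𝒩.X e (𝒩.src d) else min lo (𝒩.X e (𝒩.src d)) - 1

/-- End of a track (clipped above `hi`). -/
def tb (hi : ℝ) (d : δ) : ℝ :=
  if 0 < 𝒩.C e d then
    (if 𝒩.rev d = d then max hi (𝒩.X e (𝒩.src d)) + 1 else 𝒩.X e (𝒩.src (𝒩.rev d)))
  else 𝒩.X e (𝒩.src d)

variable {𝒩 e}

lemma C_rev {d : δ} (h : 𝒩.rev d ≠ d) : 𝒩.C e (𝒩.rev d) = -𝒩.C e d := by
  unfold C; rw [𝒩.dir_rev d h, dot_neg_right]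

lemma Sn_rev {d : δ} (h : 𝒩.rev d ≠ d) : 𝒩.Sn e (𝒩.rev d) = -𝒩.Sn e d := by
  unfold Sn; rw [𝒩.dir_rev d h, crs_neg_right]

lemma sl_rev (d : δ) : 𝒩.sl e (𝒩.rev d) = 𝒩.sl e d := by
  by_cases h : 𝒩.rev d = d
  · rw [h]
  · unfold sl
    rw [C_rev h, Sn_rev h, neg_div_neg_eq]

lemma tc_rev (d : δ) : 𝒩.tc e (𝒩.rev d) = 𝒩.tc e d := by
  by_cases h : 𝒩.rev d = d
  · rw [h]
  · unfold tc
    rw [C_rev h, abs_neg]

lemma ts_rev (d : δ) : 𝒩.ts e (𝒩.rev d) = 𝒩.ts e d := by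
  unfold ts
  rw [sl_rev]
  have := tc_rev (𝒩 := 𝒩) (e := e) d
  unfold tc at this
  rw [this]

lemma X_rev {d : δ} (h : 𝒩.rev d ≠ d) :
    𝒩.X e (𝒩.src (𝒩.rev d)) = 𝒩.X e (𝒩.src d) + 𝒩.len d * 𝒩.C e d := by
  unfold X C; rw [𝒩.z_rev d h, dot_add_right, dot_smul_right]

lemma Y_rev {d : δ} (h : 𝒩.rev d ≠ d) :
    𝒩.Y e (𝒩.src (𝒩.rev d)) = 𝒩.Y e (𝒩.src d) + 𝒩.len d * 𝒩.Sn e d := by
  unfold Y Sn; rw [𝒩.z_rev d h, crs_add_right, crs_smul_right]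

lemma C_sq_add_Sn_sq (he : ‖e‖ = 1) (d : δ) : 𝒩.C e d ^ 2 + 𝒩.Sn e d ^ 2 = 1 := by
  unfold C Sn
  rw [dot_sq_add_crs_sq, he, 𝒩.norm_dir]; norm_num

lemma sl_mul_C {d : δ} (h : 𝒩.C e d ≠ 0) : 𝒩.sl e d * 𝒩.C e d = 𝒩.Sn e d := by
  unfold sl; exact div_mul_cancel₀ _ h

lemma ts_of_pos {d : δ} (h : 0 < 𝒩.C e d) : 𝒩.ts e d = 𝒩.Sn e d := by
  unfold ts; rw [abs_of_pos h, sl_mul_C h.ne']

lemma ts_of_neg {d : δ} (h : 𝒩.C e d < 0) : 𝒩.ts e d = -𝒩.Sn e d := by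
  unfold ts; rw [abs_of_neg h, mul_neg, sl_mul_C h.ne]

lemma sl_mul_tc (d : δ) : 𝒩.sl e d * 𝒩.tc e d = 𝒩.ts e d := rfl

lemma pos_src (d : δ) : 𝒩.pos e d (𝒩.X e (𝒩.src d)) = 𝒩.Y e (𝒩.src d) := by
  unfold pos; ring

lemma pos_tgt {d : δ} (hC : 𝒩.C e d ≠ 0) (h : 𝒩.rev d ≠ d) :
    𝒩.pos e d (𝒩.X e (𝒩.src (𝒩.rev d))) = 𝒩.Y e (𝒩.src (𝒩.rev d)) := by
  unfold pos
  rw [X_rev h, Y_rev h, add_sub_cancel_left, mul_assoc, mul_comm (𝒩.C e d), sl_mul_C hC]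

/-- The track of `rev d` at `src d`. -/
lemma pos_rev_src {d : δ} (hC : 𝒩.C e d ≠ 0) :
    𝒩.pos e (𝒩.rev d) (𝒩.X e (𝒩.src d)) = 𝒩.Y e (𝒩.src d) := by
  by_cases h : 𝒩.rev d = d
  · rw [h, pos_src]
  · have hC' : 𝒩.C e (𝒩.rev d) ≠ 0 := by rw [C_rev h]; exact neg_ne_zero.mpr hC
    have := pos_tgt hC' (𝒩.rev_ne h)
    rw [𝒩.rev_rev] at this
    exact this

lemma pos_sub (d : δ) (t t' : ℝ) : 𝒩.pos e d t' - 𝒩.pos e d t = (t' - t) * 𝒩.sl e d := by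
  unfold pos; ring

lemma mem_alive {t : ℝ} {d : δ} : d ∈ 𝒩.alive e t ↔
    (0 < 𝒩.C e d ∧ 𝒩.X e (𝒩.src d) < t ∧ (𝒩.rev d = d ∨ t ≤ 𝒩.X e (𝒩.src (𝒩.rev d)))) ∨
    (𝒩.C e d < 0 ∧ 𝒩.rev d = d ∧ t ≤ 𝒩.X e (𝒩.src d)) := by
  simp [alive]

lemma mem_tracks {d : δ} : d ∈ 𝒩.tracks e ↔ 0 < 𝒩.C e d ∨ 𝒩.rev d = d := by
  simp [tracks]

lemma ta_le_tb {lo hi : ℝ} {d : δ} (hd : d ∈ 𝒩.tracks e) : 𝒩.ta e lo d ≤ 𝒩.tb e hi d := by
  unfold ta tb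
  split_ifs with h1 h2
  · have := le_max_right hi (𝒩.X e (𝒩.src d)); linarith
  · rw [X_rev h2]
    have := 𝒩.len_pos d h2
    nlinarith [mul_pos this h1]
  · have := min_le_right lo (𝒩.X e (𝒩.src d)); linarith

lemma alive_iff (hC : ∀ d, 𝒩.C e d ≠ 0) {lo hi t : ℝ} (h1 : lo ≤ t) (h2 : t ≤ hi) {d : δ} :
    d ∈ 𝒩.alive e t ↔ d ∈ 𝒩.tracks e ∧ 𝒩.ta e lo d < t ∧ t ≤ 𝒩.tb e hi d := by
  rw [mem_alive, mem_tracks]
  unfold ta tb
  rcases lt_or_gt_of_ne (hC d) with h | h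
  · rw [if_neg (not_lt.mpr h.le), if_neg (not_lt.mpr h.le)]
    have e1 : min lo (𝒩.X e (𝒩.src d)) - 1 < t := by
      have := min_le_left lo (𝒩.X e (𝒩.src d)); linarith
    have e2 : ¬ 0 < 𝒩.C e d := not_lt.mpr h.le
    simp only [e2, false_and, false_or, h, true_and, e1]
  · rw [if_pos h, if_pos h]
    have e2 : ¬ 𝒩.C e d < 0 := not_lt.mpr h.le
    by_cases h3 : 𝒩.rev d = d
    · have e3 : t ≤ max hi (𝒩.X e (𝒩.src d)) + 1 := by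
        have := le_max_left hi (𝒩.X e (𝒩.src d)); linarith
      simp only [h, h3, if_true, true_and, e2, false_and, or_false, e3, and_true, true_or]
    · simp only [h, h3, if_false, true_and, e2, false_and, or_false, false_or, true_or]

/-- Sum over alive tracks as a sum over all tracks. -/
lemma sum_alive (hC : ∀ d, 𝒩.C e d ≠ 0) {lo hi t : ℝ} (h1 : lo ≤ t) (h2 : t ≤ hi)
    (f : δ → ℝ) : ∑ d ∈ 𝒩.alive e t, f d =
      ∑ d ∈ 𝒩.tracks e, if 𝒩.ta e lo d < t ∧ t ≤ 𝒩.tb e hi d then f d else 0 := by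
  rw [← Finset.sum_filter]
  apply Finset.sum_congr _ fun _ _ => rfl
  ext d
  rw [alive_iff hC h1 h2, Finset.mem_filter]

/-- Elementary identity for one track. -/
lemma single_track (a b lo hi : ℝ) (hab : a ≤ b) (hlh : lo ≤ hi) (m : ℝ → ℝ) :
    (if a < hi ∧ hi ≤ b then m hi else 0) - (if a < lo ∧ lo ≤ b then m lo else 0) =
      (m (clamp lo hi b) - m (clamp lo hi a)) + (if lo ≤ a ∧ a < hi then m a else 0) -
        (if lo ≤ b ∧ b < hi then m b else 0) := by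
  rcases lt_or_ge a lo with ha | ha
  · rw [clamp_of_le ha.le, if_neg (show ¬ (lo ≤ a ∧ a < hi) from fun h => by linarith [h.1])]
    rcases lt_or_ge b lo with hb | hb
    · rw [clamp_of_le hb.le, if_neg (fun h => by linarith [h.2]),
        if_neg (fun h => by linarith [h.2]), if_neg (fun h => by linarith [h.1])]
      ring
    · rcases lt_or_ge b hi with hb' | hb'
      · rw [clamp_of_mem hb hb'.le, if_neg (fun h => by linarith [h.2]),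
          if_pos ⟨ha, hb⟩, if_pos ⟨hb, hb'⟩]
        ring
      · rw [clamp_of_ge hlh hb', if_pos ⟨by linarith, hb'⟩, if_pos ⟨ha, hb⟩,
          if_neg (fun h => by linarith [h.2])]
        ring
  · rw [if_neg (show ¬ (a < lo ∧ lo ≤ b) from fun h => by linarith [h.1])]
    rcases lt_or_ge a hi with ha' | ha'
    · rw [clamp_of_mem ha ha'.le, if_pos (show lo ≤ a ∧ a < hi from ⟨ha, ha'⟩)]
      rcases lt_or_ge b hi with hb' | hb'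
      · rw [clamp_of_mem (ha.trans hab) hb'.le, if_neg (fun h => by linarith [h.2]),
          if_pos ⟨ha.trans hab, hb'⟩]
        ring
      · rw [clamp_of_ge hlh hb', if_pos ⟨ha', hb'⟩, if_neg (fun h => by linarith [h.2])]
        ring
    · rw [clamp_of_ge hlh ha', clamp_of_ge hlh (ha'.trans hab),
        if_neg (fun h => by linarith [h.1]), if_neg (fun h => by linarith [h.2]),
        if_neg (fun h => by linarith [h.2])]
      ring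

/-- Track sum formula. -/
theorem track_sum (hC : ∀ d, 𝒩.C e d ≠ 0) (m : δ → ℝ → ℝ)
    (hbal : ∀ v, ∑ d with 𝒩.src d = v ∧ 0 < 𝒩.C e d, m d (𝒩.X e v) =
      ∑ d with 𝒩.src d = v ∧ 𝒩.C e d < 0, m (𝒩.rev d) (𝒩.X e v))
    {lo hi : ℝ} (hlh : lo ≤ hi) :
    ∑ d ∈ 𝒩.alive e hi, m d hi - ∑ d ∈ 𝒩.alive e lo, m d lo =
      ∑ d ∈ 𝒩.tracks e, (m d (clamp lo hi (𝒩.tb e hi d)) - m d (clamp lo hi (𝒩.ta e lo d))) := by
  rw [sum_alive hC hlh le_rfl, sum_alive hC le_rfl hlh, ← Finset.sum_sub_distrib]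
  have h1 : ∀ d ∈ 𝒩.tracks e,
      ((if 𝒩.ta e lo d < hi ∧ hi ≤ 𝒩.tb e hi d then m d hi else 0) -
        (if 𝒩.ta e lo d < lo ∧ lo ≤ 𝒩.tb e hi d then m d lo else 0)) =
      (m d (clamp lo hi (𝒩.tb e hi d)) - m d (clamp lo hi (𝒩.ta e lo d))) +
        (if lo ≤ 𝒩.ta e lo d ∧ 𝒩.ta e lo d < hi then m d (𝒩.ta e lo d) else 0) -
        (if lo ≤ 𝒩.tb e hi d ∧ 𝒩.tb e hi d < hi then m d (𝒩.tb e hi d) else 0) :=
    fun d hd => single_track _ _ _ _ (ta_le_tb hd) hlh (m d)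
  rw [Finset.sum_congr rfl h1, Finset.sum_sub_distrib, Finset.sum_add_distrib]
  -- births
  have hbirth : ∑ d ∈ 𝒩.tracks e,
      (if lo ≤ 𝒩.ta e lo d ∧ 𝒩.ta e lo d < hi then m d (𝒩.ta e lo d) else 0) =
      ∑ v, if lo ≤ 𝒩.X e v ∧ 𝒩.X e v < hi then
        ∑ d with 𝒩.src d = v ∧ 0 < 𝒩.C e d, m d (𝒩.X e v) else 0 := by
    have h2 : ∑ d ∈ 𝒩.tracks e,
        (if lo ≤ 𝒩.ta e lo d ∧ 𝒩.ta e lo d < hi then m d (𝒩.ta e lo d) else 0) =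
        ∑ d ∈ univ.filter (fun d => 0 < 𝒩.C e d),
          (if lo ≤ 𝒩.X e (𝒩.src d) ∧ 𝒩.X e (𝒩.src d) < hi then m d (𝒩.X e (𝒩.src d)) else 0) := by
      symm
      have h3 : ∀ d ∈ univ.filter (fun d => 0 < 𝒩.C e d),
          (if lo ≤ 𝒩.X e (𝒩.src d) ∧ 𝒩.X e (𝒩.src d) < hi then
            m d (𝒩.X e (𝒩.src d)) else 0) =
          (if lo ≤ 𝒩.ta e lo d ∧ 𝒩.ta e lo d < hi then m d (𝒩.ta e lo d) else 0) := by
        intro d hd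
        have hd' := (Finset.mem_filter.mp hd).2
        have : 𝒩.ta e lo d = 𝒩.X e (𝒩.src d) := by unfold ta; rw [if_pos hd']
        rw [this]
      rw [Finset.sum_congr rfl h3]
      apply Finset.sum_subset
      · intro d hd
        rw [mem_tracks]
        exact Or.inl (Finset.mem_filter.mp hd).2
      · intro d _ hd
        rw [Finset.mem_filter, not_and] at hd
        have hd' := hd (Finset.mem_univ _)
        rw [if_neg]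
        rintro ⟨h4, -⟩
        unfold ta at h4
        rw [if_neg hd'] at h4
        have := min_le_left lo (𝒩.X e (𝒩.src d))
        linarith
    rw [h2, ← Finset.sum_fiberwise (univ.filter (fun d => 0 < 𝒩.C e d)) 𝒩.src]
    apply Finset.sum_congr rfl
    intro v _
    rw [Finset.filter_filter]
    split_ifs with h4
    · have h5 : (univ.filter fun d => 0 < 𝒩.C e d ∧ 𝒩.src d = v) =
          univ.filter fun d => 𝒩.src d = v ∧ 0 < 𝒩.C e d := by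
        ext d; simp only [Finset.mem_filter, Finset.mem_univ, true_and]; tauto
      rw [h5]
      apply Finset.sum_congr rfl
      intro d hd
      have hd' := (Finset.mem_filter.mp hd).2.1
      rw [hd', if_pos h4]
    · apply Finset.sum_eq_zero
      intro d hd
      have hd' := (Finset.mem_filter.mp hd).2.2
      rw [hd', if_neg h4]
  -- deaths
  have hdeath : ∑ d ∈ 𝒩.tracks e,
      (if lo ≤ 𝒩.tb e hi d ∧ 𝒩.tb e hi d < hi then m d (𝒩.tb e hi d) else 0) =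
      ∑ v, if lo ≤ 𝒩.X e v ∧ 𝒩.X e v < hi then
        ∑ d with 𝒩.src d = v ∧ 𝒩.C e d < 0, m (𝒩.rev d) (𝒩.X e v) else 0 := by
    -- tracks with an end vertex
    have h2 : ∑ d ∈ 𝒩.tracks e,
        (if lo ≤ 𝒩.tb e hi d ∧ 𝒩.tb e hi d < hi then m d (𝒩.tb e hi d) else 0) =
        ∑ d ∈ univ.filter (fun d => 𝒩.C e d < 0),
          (if lo ≤ 𝒩.X e (𝒩.src d) ∧ 𝒩.X e (𝒩.src d) < hi then
            m (𝒩.rev d) (𝒩.X e (𝒩.src d)) else 0) := by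
      have h3 : ∑ d ∈ 𝒩.tracks e,
          (if lo ≤ 𝒩.tb e hi d ∧ 𝒩.tb e hi d < hi then m d (𝒩.tb e hi d) else 0) =
          ∑ d ∈ (𝒩.tracks e).filter (fun d => ¬ (0 < 𝒩.C e d ∧ 𝒩.rev d = d)),
          (if lo ≤ 𝒩.tb e hi d ∧ 𝒩.tb e hi d < hi then m d (𝒩.tb e hi d) else 0) := by
        symm
        apply Finset.sum_subset (Finset.filter_subset _ _)
        intro d hd hd'
        rw [Finset.mem_filter, not_and, not_not] at hd'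
        obtain ⟨h4, h5⟩ := hd' hd
        rw [if_neg]
        rintro ⟨-, h6⟩
        unfold tb at h6
        rw [if_pos h4, if_pos h5] at h6
        have := le_max_left hi (𝒩.X e (𝒩.src d))
        linarith
      rw [h3]
      symm
      apply Finset.sum_bij (fun d _ => 𝒩.rev d)
      · intro d hd
        have hd' := (Finset.mem_filter.mp hd).2
        rw [Finset.mem_filter, mem_tracks]
        by_cases h4 : 𝒩.rev d = d
        · rw [h4]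
          exact ⟨Or.inr h4, fun h => by linarith [h.1]⟩
        · rw [C_rev h4]
          exact ⟨Or.inl (by linarith), fun h => 𝒩.rev_ne h4 h.2⟩
      · intro a _ b _ h
        exact 𝒩.rev_inj h
      · intro d hd
        rw [Finset.mem_filter, mem_tracks] at hd
        refine ⟨𝒩.rev d, ?_, 𝒩.rev_rev d⟩
        rw [Finset.mem_filter]
        refine ⟨Finset.mem_univ _, ?_⟩
        by_cases h4 : 𝒩.rev d = d
        · rw [h4]
          have h5 : ¬ 0 < 𝒩.C e d := fun h => hd.2 ⟨h, h4⟩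
          exact lt_of_le_of_ne (not_lt.mp h5) (hC d)
        · rw [C_rev h4]
          have h5 : 0 < 𝒩.C e d := by tauto
          linarith
      · intro d hd
        have hd' := (Finset.mem_filter.mp hd).2
        have h5 : 𝒩.tb e hi (𝒩.rev d) = 𝒩.X e (𝒩.src d) := by
          unfold tb
          by_cases h4 : 𝒩.rev d = d
          · rw [h4, if_neg (not_lt.mpr hd'.le)]
          · rw [C_rev h4, if_pos (by linarith), if_neg (𝒩.rev_ne h4), 𝒩.rev_rev]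
        rw [h5]
    rw [h2, ← Finset.sum_fiberwise (univ.filter (fun d => 𝒩.C e d < 0)) 𝒩.src]
    apply Finset.sum_congr rfl
    intro v _
    rw [Finset.filter_filter]
    split_ifs with h4
    · have h5 : (univ.filter fun d => 𝒩.C e d < 0 ∧ 𝒩.src d = v) =
          univ.filter fun d => 𝒩.src d = v ∧ 𝒩.C e d < 0 := by
        ext d; simp only [Finset.mem_filter, Finset.mem_univ, true_and]; tauto
      rw [h5]
      apply Finset.sum_congr rfl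
      intro d hd
      have hd' := (Finset.mem_filter.mp hd).2.1
      rw [hd', if_pos h4]
    · apply Finset.sum_eq_zero
      intro d hd
      have hd' := (Finset.mem_filter.mp hd).2.2
      rw [hd', if_neg h4]
  rw [hbirth, hdeath]
  have h6 : ∀ v, (if lo ≤ 𝒩.X e v ∧ 𝒩.X e v < hi then
        ∑ d with 𝒩.src d = v ∧ 0 < 𝒩.C e d, m d (𝒩.X e v) else 0) =
      if lo ≤ 𝒩.X e v ∧ 𝒩.X e v < hi then
        ∑ d with 𝒩.src d = v ∧ 𝒩.C e d < 0, m (𝒩.rev d) (𝒩.X e v) else 0 := by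
    intro v
    rw [hbal v]
  rw [Finset.sum_congr rfl fun v _ => h6 v]
  ring

/-- Vertex balance of `A tc + B ts`. -/
lemma field_bal (hC : ∀ d, 𝒩.C e d ≠ 0) (A B : ℝ → ℝ → ℝ) (v : ι) :
    ∑ d with 𝒩.src d = v ∧ 0 < 𝒩.C e d,
      (A (𝒩.X e v) (𝒩.pos e d (𝒩.X e v)) * 𝒩.tc e d +
        B (𝒩.X e v) (𝒩.pos e d (𝒩.X e v)) * 𝒩.ts e d) =
    ∑ d with 𝒩.src d = v ∧ 𝒩.C e d < 0,
      (A (𝒩.X e v) (𝒩.pos e (𝒩.rev d) (𝒩.X e v)) * 𝒩.tc e (𝒩.rev d) +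
        B (𝒩.X e v) (𝒩.pos e (𝒩.rev d) (𝒩.X e v)) * 𝒩.ts e (𝒩.rev d)) := by
  set a := A (𝒩.X e v) (𝒩.Y e v)
  set b := B (𝒩.X e v) (𝒩.Y e v)
  have h1 : ∑ d with 𝒩.src d = v ∧ 0 < 𝒩.C e d,
      (A (𝒩.X e v) (𝒩.pos e d (𝒩.X e v)) * 𝒩.tc e d +
        B (𝒩.X e v) (𝒩.pos e d (𝒩.X e v)) * 𝒩.ts e d) =
      ∑ d with 𝒩.src d = v ∧ 0 < 𝒩.C e d, (a * 𝒩.C e d + b * 𝒩.Sn e d) := by
    apply Finset.sum_congr rfl
    intro d hd
    obtain ⟨-, hd1, hd2⟩ := Finset.mem_filter.mp hd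
    have h := pos_src (𝒩 := 𝒩) (e := e) d
    rw [hd1] at h
    rw [h, ts_of_pos hd2]
    unfold tc
    rw [abs_of_pos hd2]
  have h2 : ∑ d with 𝒩.src d = v ∧ 𝒩.C e d < 0,
      (A (𝒩.X e v) (𝒩.pos e (𝒩.rev d) (𝒩.X e v)) * 𝒩.tc e (𝒩.rev d) +
        B (𝒩.X e v) (𝒩.pos e (𝒩.rev d) (𝒩.X e v)) * 𝒩.ts e (𝒩.rev d)) =
      - ∑ d with 𝒩.src d = v ∧ 𝒩.C e d < 0, (a * 𝒩.C e d + b * 𝒩.Sn e d) := by
    rw [← Finset.sum_neg_distrib]
    apply Finset.sum_congr rfl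
    intro d hd
    obtain ⟨-, hd1, hd2⟩ := Finset.mem_filter.mp hd
    have h := pos_rev_src (𝒩 := 𝒩) (e := e) (d := d) hd2.ne
    rw [hd1] at h
    rw [h, tc_rev, ts_rev, ts_of_neg hd2]
    unfold tc
    rw [abs_of_neg hd2]
    ring
  rw [h1, h2]
  have h3 : ∑ d with 𝒩.src d = v, (a * 𝒩.C e d + b * 𝒩.Sn e d) = 0 := by
    rw [Finset.sum_add_distrib, ← Finset.mul_sum, ← Finset.mul_sum]
    have hc : ∑ d with 𝒩.src d = v, 𝒩.C e d = 0 := by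
      unfold C
      rw [← dot_sum_right, 𝒩.bal v, dot_zero_right]
    have hs : ∑ d with 𝒩.src d = v, 𝒩.Sn e d = 0 := by
      have : ∀ d, 𝒩.Sn e d = dot (Complex.I * e) (𝒩.dir d) := by
        intro d; unfold Sn crs dot; simp; ring
      simp_rw [this]
      rw [← dot_sum_right, 𝒩.bal v, dot_zero_right]
    rw [hc, hs]; ring
  have h4 : ∑ d with 𝒩.src d = v, (a * 𝒩.C e d + b * 𝒩.Sn e d) =
      ∑ d with 𝒩.src d = v ∧ 0 < 𝒩.C e d, (a * 𝒩.C e d + b * 𝒩.Sn e d) +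
      ∑ d with 𝒩.src d = v ∧ 𝒩.C e d < 0, (a * 𝒩.C e d + b * 𝒩.Sn e d) := by
    rw [← Finset.sum_filter_add_sum_filter_not (univ.filter (fun d => 𝒩.src d = v))
      (fun d => 0 < 𝒩.C e d), Finset.filter_filter, Finset.filter_filter]
    congr 1
    apply Finset.sum_congr _ fun _ _ => rfl
    ext d
    simp only [Finset.mem_filter, Finset.mem_univ, true_and, not_lt]
    constructor
    · rintro ⟨h5, h6⟩; exact ⟨h5, lt_of_le_of_ne h6 (hC d)⟩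
    · rintro ⟨h5, h6⟩; exact ⟨h5, h6.le⟩
  linarith

/-- Kinetic weight of a track. -/
def wt (𝒩 : DartNet ι δ) (e : ℂ) (d : δ) : ℝ := 𝒩.sl e d ^ 2 * 𝒩.tc e d

/-- General field formula. -/
theorem field_sum (hC : ∀ d, 𝒩.C e d ≠ 0) (A B : ℝ → ℝ → ℝ) {lo hi : ℝ} (hlh : lo ≤ hi) :
    ∑ d ∈ 𝒩.alive e hi, (A hi (𝒩.pos e d hi) * 𝒩.tc e d + B hi (𝒩.pos e d hi) * 𝒩.ts e d) -
    ∑ d ∈ 𝒩.alive e lo, (A lo (𝒩.pos e d lo) * 𝒩.tc e d + B lo (𝒩.pos e d lo) * 𝒩.ts e d) =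
    ∑ d ∈ 𝒩.tracks e,
      ((A (clamp lo hi (𝒩.tb e hi d)) (𝒩.pos e d (clamp lo hi (𝒩.tb e hi d))) * 𝒩.tc e d +
        B (clamp lo hi (𝒩.tb e hi d)) (𝒩.pos e d (clamp lo hi (𝒩.tb e hi d))) * 𝒩.ts e d) -
       (A (clamp lo hi (𝒩.ta e lo d)) (𝒩.pos e d (clamp lo hi (𝒩.ta e lo d))) * 𝒩.tc e d +
        B (clamp lo hi (𝒩.ta e lo d)) (𝒩.pos e d (clamp lo hi (𝒩.ta e lo d))) * 𝒩.ts e d)) :=
  track_sum hC (fun d t => A t (𝒩.pos e d t) * 𝒩.tc e d + B t (𝒩.pos e d t) * 𝒩.ts e d)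
    (field_bal hC A B) hlh

lemma sum_tc_const (hC : ∀ d, 𝒩.C e d ≠ 0) {lo hi : ℝ} (hlh : lo ≤ hi) :
    ∑ d ∈ 𝒩.alive e hi, 𝒩.tc e d = ∑ d ∈ 𝒩.alive e lo, 𝒩.tc e d := by
  have := field_sum hC (fun _ _ => 1) (fun _ _ => 0) hlh
  simp only [one_mul, zero_mul, add_zero, sub_self, Finset.sum_const_zero] at this
  linarith

lemma sum_ts_const (hC : ∀ d, 𝒩.C e d ≠ 0) {lo hi : ℝ} (hlh : lo ≤ hi) :
    ∑ d ∈ 𝒩.alive e hi, 𝒩.ts e d = ∑ d ∈ 𝒩.alive e lo, 𝒩.ts e d := by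
  have := field_sum hC (fun _ _ => 0) (fun _ _ => 1) hlh
  simp only [one_mul, zero_mul, zero_add, sub_self, Finset.sum_const_zero] at this
  linarith

lemma sum_torque_const (hC : ∀ d, 𝒩.C e d ≠ 0) {lo hi : ℝ} (hlh : lo ≤ hi) :
    ∑ d ∈ 𝒩.alive e hi, (𝒩.pos e d hi * 𝒩.tc e d - hi * 𝒩.ts e d) =
    ∑ d ∈ 𝒩.alive e lo, (𝒩.pos e d lo * 𝒩.tc e d - lo * 𝒩.ts e d) := by
  have h1 := field_sum hC (fun _ y => y) (fun t _ => -t) hlh
  have h2 : ∀ (d : δ) (t t' : ℝ), (𝒩.pos e d t' * 𝒩.tc e d + -t' * 𝒩.ts e d) -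
      (𝒩.pos e d t * 𝒩.tc e d + -t * 𝒩.ts e d) = 0 := by
    intro d t t'
    have h3 := pos_sub (𝒩 := 𝒩) (e := e) d t t'
    have h4 : 𝒩.pos e d t' = 𝒩.pos e d t + (t' - t) * 𝒩.sl e d := by linarith
    rw [h4, ← sl_mul_tc]
    ring
  simp only [h2, Finset.sum_const_zero] at h1
  have h5 : ∀ t, ∑ d ∈ 𝒩.alive e t, (𝒩.pos e d t * 𝒩.tc e d + -t * 𝒩.ts e d) =
      ∑ d ∈ 𝒩.alive e t, (𝒩.pos e d t * 𝒩.tc e d - t * 𝒩.ts e d) := by
    intro t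
    apply Finset.sum_congr rfl
    intro d _
    ring
  rw [h5, h5] at h1
  linarith

/-- Virial function. -/
def G (𝒩 : DartNet ι δ) (e : ℂ) (t : ℝ) : ℝ := ∑ d ∈ 𝒩.alive e t, 𝒩.pos e d t * 𝒩.ts e d

lemma G_sub (hC : ∀ d, 𝒩.C e d ≠ 0) {lo hi : ℝ} (hlh : lo ≤ hi) :
    𝒩.G e hi - 𝒩.G e lo = ∑ d ∈ 𝒩.tracks e,
      𝒩.wt e d * (clamp lo hi (𝒩.tb e hi d) - clamp lo hi (𝒩.ta e lo d)) := by
  have h1 := field_sum hC (fun _ _ => 0) (fun _ y => y) hlh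
  simp only [zero_mul, zero_add] at h1
  unfold G
  rw [h1]
  apply Finset.sum_congr rfl
  intro d _
  have h3 := pos_sub (𝒩 := 𝒩) (e := e) d (clamp lo hi (𝒩.ta e lo d))
    (clamp lo hi (𝒩.tb e hi d))
  rw [← sub_mul, h3, ← sl_mul_tc]
  unfold wt
  ring

/-- Second virial function, centred at `(t₀, y₀)`. -/
def Mv (𝒩 : DartNet ι δ) (e : ℂ) (t₀ y₀ t : ℝ) : ℝ :=
  ∑ d ∈ 𝒩.alive e t, ((𝒩.pos e d t - y₀) ^ 2 * 𝒩.tc e d -
    2 * (t - t₀) * (𝒩.pos e d t - y₀) * 𝒩.ts e d)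

lemma Mv_sub (hC : ∀ d, 𝒩.C e d ≠ 0) (t₀ y₀ : ℝ) {lo hi : ℝ} (hlh : lo ≤ hi) :
    𝒩.Mv e t₀ y₀ hi - 𝒩.Mv e t₀ y₀ lo = -∑ d ∈ 𝒩.tracks e,
      𝒩.wt e d * ((clamp lo hi (𝒩.tb e hi d) - t₀) ^ 2 -
        (clamp lo hi (𝒩.ta e lo d) - t₀) ^ 2) := by
  have h1 := field_sum hC (fun _ y => (y - y₀) ^ 2) (fun t y => -(2 * (t - t₀) * (y - y₀))) hlh
  have h5 : ∀ t, 𝒩.Mv e t₀ y₀ t = ∑ d ∈ 𝒩.alive e t,
      ((𝒩.pos e d t - y₀) ^ 2 * 𝒩.tc e d + -(2 * (t - t₀) * (𝒩.pos e d t - y₀)) *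
        𝒩.ts e d) := by
    intro t
    unfold Mv
    apply Finset.sum_congr rfl
    intro d _
    ring
  rw [h5, h5, h1, ← Finset.sum_neg_distrib]
  apply Finset.sum_congr rfl
  intro d _
  set t' := clamp lo hi (𝒩.tb e hi d)
  set t := clamp lo hi (𝒩.ta e lo d)
  have h3 := pos_sub (𝒩 := 𝒩) (e := e) d t t'
  have h4 : 𝒩.pos e d t' = 𝒩.pos e d t + (t' - t) * 𝒩.sl e d := by linarith
  rw [h4, ← sl_mul_tc]
  unfold wt
  ring

end DartNet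

end

end Pool.Agent.Lib.Pb48dd4
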