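import Pool.Agent.Lib.Pb48dd4.NonThin
import Pool.Agent.Lib.Pb48dd4.Track

/-!
# Thin nets: setup

Auxiliary file for MP_b48dd4_gt.
-/

namespace Pool.Agent.Lib.Pb48dd4

open Finset
open scoped Classical

noncomputable section

variable {ι δ : Type} [Fintype ι] [Fintype δ]

namespace DartNet

/-- Structural data of a thin net with `2k` rays and defect `ed` along the axis `e`. -/
structure ThinData (𝒩 : DartNet ι δ) (k : ℕ) (ed : ℝ) (e : ℂ) : Prop where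
  he : ‖e‖ = 1
  hk : 1 ≤ k
  ed0 : 0 ≤ ed
  ed1 : ed ≤ 1 / 4
  hN : 𝒩.N univ = 2 * k
  cardR : ((𝒩.bd univ).filter fun d => 0 < 𝒩.C e d).card = k
  cardL : ((𝒩.bd univ).filter fun d => 𝒩.C e d < 0).card = k
  sumR : ∑ d ∈ (𝒩.bd univ).filter (fun d => 0 < 𝒩.C e d), 𝒩.dir d = ((k : ℝ) - ed) • e
  sumL : ∑ d ∈ (𝒩.bd univ).filter (fun d => 𝒩.C e d < 0), 𝒩.dir d = -(((k : ℝ) - ed) • e)
  tc_ge : ∀ d, 1 - ed ≤ 𝒩.tc e d
  card_alive : ∀ t, (𝒩.alive e t).card = k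
  sum_tc : ∀ t, ∑ d ∈ 𝒩.alive e t, 𝒩.tc e d = k - ed
  sum_ts : ∀ t, ∑ d ∈ 𝒩.alive e t, 𝒩.ts e d = 0

variable (𝒩 : DartNet ι δ)

lemma Sn_eq_dot (e : ℂ) (d : δ) : 𝒩.Sn e d = dot (Complex.I * e) (𝒩.dir d) := by
  unfold Sn crs dot; simp; ring

lemma tc_le_one {e : ℂ} (he : ‖e‖ = 1) (d : δ) : 𝒩.tc e d ≤ 1 := by
  unfold tc C
  have := abs_dot_le e (𝒩.dir d)
  rwa [he, 𝒩.norm_dir, one_mul] at this

/-- Alive tracks at early times are the left rays. -/
lemma alive_low {e : ℂ} {t : ℝ} (ht : ∀ v, t ≤ 𝒩.X e v) :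
    𝒩.alive e t = (𝒩.bd univ).filter fun d => 𝒩.C e d < 0 := by
  ext d
  rw [mem_alive, Finset.mem_filter, mem_bd_univ]
  constructor
  · rintro (⟨_, h, _⟩ | ⟨h1, h2, _⟩)
    · exact absurd (ht _) (not_le.mpr h)
    · exact ⟨h2, h1⟩
  · rintro ⟨h1, h2⟩
    exact Or.inr ⟨h2, h1, ht _⟩

lemma exists_low (e : ℂ) (t : ℝ) : ∃ lo ≤ t, ∀ v, lo ≤ 𝒩.X e v := by
  refine ⟨min t (-∑ v, |𝒩.X e v|), min_le_left _ _, fun v => (min_le_right _ _).trans ?_⟩
  have h1 := Finset.single_le_sum (f := fun v => |𝒩.X e v|) (fun v _ => abs_nonneg _)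
    (Finset.mem_univ v)
  have h2 := neg_abs_le (𝒩.X e v)
  linarith

/-- Every dart is, up to reversal, alive at some time. -/
lemma exists_alive {e : ℂ} {d : δ} (hC : 𝒩.C e d ≠ 0) :
    ∃ t, d ∈ 𝒩.alive e t ∨ 𝒩.rev d ∈ 𝒩.alive e t := by
  rcases lt_or_gt_of_ne hC with h | h
  · refine ⟨𝒩.X e (𝒩.src d), ?_⟩
    by_cases hr : 𝒩.rev d = d
    · left
      rw [mem_alive]
      exact Or.inr ⟨h, hr, le_rfl⟩
    · right
      rw [mem_alive]
      left
      rw [C_rev hr, 𝒩.rev_rev]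
      refine ⟨by linarith, ?_, Or.inr le_rfl⟩
      rw [X_rev hr]
      have := mul_pos (𝒩.len_pos d hr) (neg_pos.mpr h)
      linarith
  · by_cases hr : 𝒩.rev d = d
    · refine ⟨𝒩.X e (𝒩.src d) + 1, Or.inl ?_⟩
      rw [mem_alive]
      exact Or.inl ⟨h, by linarith, Or.inl hr⟩
    · refine ⟨𝒩.X e (𝒩.src (𝒩.rev d)), Or.inl ?_⟩
      rw [mem_alive]
      refine Or.inl ⟨h, ?_, Or.inr le_rfl⟩
      rw [X_rev hr]
      have := mul_pos (𝒩.len_pos d hr) h
      linarith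

theorem exists_thinData {κ : ℝ} (hn : 0 < 𝒩.N univ) (hκ : (𝒩.N univ : ℝ) ^ 4 * κ ^ 2 ≤ 1)
    (hthin : 𝒩.Thin κ) :
    ∃ (k : ℕ) (ed : ℝ) (e : ℂ), 𝒩.ThinData k ed e ∧ ed ≤ k * κ ^ 2 / 2 := by
  obtain ⟨e₀, he₀, hb⟩ := hthin
  set n : ℝ := (𝒩.N univ : ℝ) with hndef
  have hn1 : 1 ≤ n := by rw [hndef]; exact_mod_cast hn
  have hκn : n * κ ^ 2 ≤ 1 := by
    refine le_trans (mul_le_mul_of_nonneg_right ?_ (sq_nonneg κ)) hκ
    calc n = n ^ 1 := (pow_one n).symm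
      _ ≤ n ^ 4 := pow_le_pow_right₀ hn1 (by norm_num)
  set R := (𝒩.bd univ).filter fun b => ‖𝒩.dir b - e₀‖ ≤ κ with hR
  set L := (𝒩.bd univ).filter fun b => ¬ ‖𝒩.dir b - e₀‖ ≤ κ with hL
  have hcardn : R.card + L.card = 𝒩.N univ := by
    unfold N
    rw [hR, hL]
    exact Finset.card_filter_add_card_filter_not _
  have hcardn' : (R.card : ℝ) + L.card = n := by rw [hndef]; exact_mod_cast hcardn
  set Fo : ℂ := ∑ d ∈ R, 𝒩.dir d with hFo
  have hsumL : ∑ d ∈ L, 𝒩.dir d = -Fo := by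
    have h1 := 𝒩.sum_bd' univ
    rw [← Finset.sum_filter_add_sum_filter_not (𝒩.bd univ) (fun b => ‖𝒩.dir b - e₀‖ ≤ κ)] at h1
    exact (neg_eq_of_add_eq_zero_right h1).symm
  have hnormF : ‖Fo‖ ≤ R.card := by
    refine (norm_sum_le _ _).trans ?_
    rw [← nsmul_one, ← Finset.sum_const]
    exact Finset.sum_le_sum fun d _ => (𝒩.norm_dir d).le
  have hnormF' : ‖Fo‖ ≤ L.card := by
    rw [← norm_neg, ← hsumL]
    refine (norm_sum_le _ _).trans ?_
    rw [← nsmul_one, ← Finset.sum_const]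
    exact Finset.sum_le_sum fun d _ => (𝒩.norm_dir d).le
  have hdotR : (R.card : ℝ) * (1 - κ ^ 2 / 2) ≤ dot e₀ Fo := by
    rw [hFo, dot_sum_right, ← nsmul_eq_mul, ← Finset.sum_const]
    apply Finset.sum_le_sum
    intro d hd
    rw [hR, Finset.mem_filter] at hd
    have h1 := one_sub_dot he₀ (𝒩.norm_dir d)
    rw [norm_sub_rev] at h1
    have h2 := pow_le_pow_left₀ (norm_nonneg _) hd.2 2
    linarith
  have hdotL : (L.card : ℝ) * (1 - κ ^ 2 / 2) ≤ dot e₀ Fo := by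
    have h0 : dot e₀ Fo = ∑ d ∈ L, -dot e₀ (𝒩.dir d) := by
      rw [Finset.sum_neg_distrib, ← dot_sum_right, hsumL, dot_neg_right, neg_neg]
    rw [h0, ← nsmul_eq_mul, ← Finset.sum_const]
    apply Finset.sum_le_sum
    intro d hd
    rw [hL, Finset.mem_filter] at hd
    have hd' : ‖𝒩.dir d + e₀‖ ≤ κ := by
      rcases hb d hd.1 with h | h
      · exact absurd h hd.2
      · exact h
    have h2 := pow_le_pow_left₀ (norm_nonneg _) hd' 2
    rw [norm_add_sq', 𝒩.norm_dir, he₀, dot_comm] at h2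
    linarith
  have hdotle : dot e₀ Fo ≤ ‖Fo‖ := by
    have := dot_le e₀ Fo
    rwa [he₀, one_mul] at this
  have hRn : (R.card : ℝ) ≤ n := by
    have : (0 : ℝ) ≤ L.card := by positivity
    linarith
  have hLn : (L.card : ℝ) ≤ n := by
    have : (0 : ℝ) ≤ R.card := by positivity
    linarith
  have hκ2 : 0 ≤ κ ^ 2 := sq_nonneg κ
  have hRL : R.card ≤ L.card := by
    by_contra hcon
    push Not at hcon
    have h1 : (L.card : ℝ) + 1 ≤ R.card := by exact_mod_cast hcon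
    have h2 := mul_le_mul_of_nonneg_right hRn hκ2
    nlinarith
  have hLR : L.card ≤ R.card := by
    by_contra hcon
    push Not at hcon
    have h1 : (R.card : ℝ) + 1 ≤ L.card := by exact_mod_cast hcon
    have h2 := mul_le_mul_of_nonneg_right hLn hκ2
    nlinarith
  have hRLe : R.card = L.card := le_antisymm hRL hLR
  obtain ⟨k, hk⟩ : ∃ k : ℕ, R.card = k := ⟨_, rfl⟩
  rw [← hRLe] at hcardn hnormF' hdotL
  rw [hk] at hcardn hnormF hnormF' hdotR hdotL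
  have hkL : L.card = k := by rw [← hRLe]; exact hk
  have hk1 : 1 ≤ k := by omega
  have hk1' : (1 : ℝ) ≤ k := by exact_mod_cast hk1
  have hn2k : 𝒩.N univ = 2 * k := by omega
  have hn2k' : n = 2 * k := by rw [hndef, hn2k]; push_cast; ring
  set ed : ℝ := k - ‖Fo‖ with hed
  have hed0 : 0 ≤ ed := by rw [hed]; linarith
  have hedκ : ed ≤ k * κ ^ 2 / 2 := by rw [hed]; nlinarith
  have hed4 : ed ≤ 1 / 4 := by rw [hn2k'] at hκn; nlinarith
  have hFpos : 0 < ‖Fo‖ := by rw [hed] at hed4; linarith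
  have hFne : Fo ≠ 0 := norm_pos_iff.mp hFpos
  set e : ℂ := nrm Fo with he
  have he1 : ‖e‖ = 1 := norm_nrm hFne
  have hFe : Fo = ((k : ℝ) - ed) • e := by
    rw [hed, sub_sub_cancel, he, norm_smul_nrm]
  have hdote : dot e Fo = k - ed := by
    rw [he, dot_nrm_self, hed]; ring
  have hCle : ∀ d, 𝒩.C e d ≤ 1 := by
    intro d
    have := dot_le e (𝒩.dir d)
    rwa [he1, 𝒩.norm_dir, one_mul] at this
  have hCge : ∀ d, -1 ≤ 𝒩.C e d := by
    intro d
    have := neg_le_dot e (𝒩.dir d)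
    rwa [he1, 𝒩.norm_dir, one_mul] at this
  have hCR : ∀ d ∈ R, 1 - ed ≤ 𝒩.C e d := by
    intro d hd
    have h1 : 1 - 𝒩.C e d ≤ ∑ d ∈ R, (1 - 𝒩.C e d) :=
      Finset.single_le_sum (f := fun d => 1 - 𝒩.C e d)
        (fun d _ => by have := hCle d; linarith) hd
    rw [Finset.sum_sub_distrib] at h1
    unfold C at h1
    rw [← dot_sum_right, ← hFo, hdote] at h1
    simp only [Finset.sum_const, nsmul_eq_mul, mul_one, hk] at h1
    unfold C
    linarith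
  have hCL : ∀ d ∈ L, 𝒩.C e d ≤ -(1 - ed) := by
    intro d hd
    have h1 : 1 + 𝒩.C e d ≤ ∑ d ∈ L, (1 + 𝒩.C e d) :=
      Finset.single_le_sum (f := fun d => 1 + 𝒩.C e d)
        (fun d _ => by have := hCge d; linarith) hd
    rw [Finset.sum_add_distrib] at h1
    unfold C at h1
    rw [← dot_sum_right, hsumL, dot_neg_right, hdote] at h1
    simp only [Finset.sum_const, nsmul_eq_mul, mul_one, hkL] at h1
    unfold C
    linarith
  have hReq : (𝒩.bd univ).filter (fun d => 0 < 𝒩.C e d) = R := by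
    ext d
    rw [hR, Finset.mem_filter, Finset.mem_filter]
    constructor
    · rintro ⟨h1, h2⟩
      refine ⟨h1, ?_⟩
      by_contra h3
      have := hCL d (Finset.mem_filter.mpr ⟨h1, h3⟩)
      linarith
    · rintro ⟨h1, h2⟩
      refine ⟨h1, ?_⟩
      have := hCR d (Finset.mem_filter.mpr ⟨h1, h2⟩)
      linarith
  have hLeq : (𝒩.bd univ).filter (fun d => 𝒩.C e d < 0) = L := by
    ext d
    rw [hL, Finset.mem_filter, Finset.mem_filter]
    constructor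
    · rintro ⟨h1, h2⟩
      refine ⟨h1, ?_⟩
      intro h3
      have := hCR d (Finset.mem_filter.mpr ⟨h1, h3⟩)
      linarith
    · rintro ⟨h1, h2⟩
      refine ⟨h1, ?_⟩
      have := hCL d (Finset.mem_filter.mpr ⟨h1, h2⟩)
      linarith
  -- vertical components of rays
  set s : ℝ := Real.sqrt (2 * ed) with hs
  have hs2 : s ^ 2 = 2 * ed := Real.sq_sqrt (by linarith)
  have hs0 : 0 ≤ s := Real.sqrt_nonneg _
  have hSray : ∀ d ∈ 𝒩.bd univ, |𝒩.Sn e d| ≤ s := by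
    intro d hd
    apply abs_le_of_sq_le_sq _ hs0
    rw [hs2]
    have h1 := C_sq_add_Sn_sq (𝒩 := 𝒩) he1 d
    have h2 : (1 - ed) ^ 2 ≤ 𝒩.C e d ^ 2 := by
      by_cases h3 : d ∈ R
      · exact pow_le_pow_left₀ (by linarith) (hCR d h3) 2
      · have h4 : d ∈ L := by
          rw [hL, Finset.mem_filter]
          refine ⟨hd, fun h5 => h3 ?_⟩
          rw [hR, Finset.mem_filter]
          exact ⟨hd, h5⟩
        rw [← neg_sq (𝒩.C e d)]
        exact pow_le_pow_left₀ (by linarith) (by linarith [hCL d h4]) 2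
    nlinarith
  have hSall : ∀ d, |𝒩.Sn e d| ≤ k * s := by
    intro d
    have h1 := 𝒩.flux d (Complex.I * e)
    simp_rw [← 𝒩.Sn_eq_dot] at h1
    have h2 : ∑ b ∈ 𝒩.bd univ, |𝒩.Sn e b| ≤ n * s := by
      rw [hndef]
      unfold N
      rw [← nsmul_eq_mul, ← Finset.sum_const]
      exact Finset.sum_le_sum hSray
    rw [hn2k'] at h2
    linarith
  have hmain : 2 * (k : ℝ) ^ 2 * (k + 1) * ed < 1 := by
    have h1 : 2 * (k : ℝ) ^ 2 * (k + 1) * ed ≤ 2 * (k : ℝ) ^ 2 * (k + 1) * (k * κ ^ 2 / 2) :=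
      mul_le_mul_of_nonneg_left hedκ (by positivity)
    have h2 : 2 * (k : ℝ) ^ 2 * (k + 1) * (k * κ ^ 2 / 2) = ((k : ℝ) ^ 3 * (k + 1)) * κ ^ 2 := by
      ring
    have h3 : (k : ℝ) ^ 3 * (k + 1) ≤ (k : ℝ) ^ 3 * (2 * k) :=
      mul_le_mul_of_nonneg_left (by linarith) (by positivity)
    have h4 : ((k : ℝ) ^ 3 * (k + 1)) * κ ^ 2 ≤ ((k : ℝ) ^ 3 * (2 * k)) * κ ^ 2 :=
      mul_le_mul_of_nonneg_right h3 hκ2
    rw [hn2k'] at hκ
    nlinarith
  have hksq : (1 : ℝ) ≤ (k : ℝ) ^ 2 := one_le_pow₀ hk1'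
  have h2k2 : 2 * (k : ℝ) ^ 2 * ed < 1 := by
    have : 0 ≤ 2 * (k : ℝ) ^ 2 * k * ed := by positivity
    nlinarith
  have hC2 : ∀ d, 1 - 2 * (k : ℝ) ^ 2 * ed ≤ 𝒩.C e d ^ 2 := by
    intro d
    have h1 := C_sq_add_Sn_sq (𝒩 := 𝒩) he1 d
    have h2 : 𝒩.Sn e d ^ 2 ≤ (k * s) ^ 2 := by
      rw [← sq_abs (𝒩.Sn e d)]
      exact pow_le_pow_left₀ (abs_nonneg _) (hSall d) 2
    rw [mul_pow, hs2] at h2
    linarith
  have hCne : ∀ d, 𝒩.C e d ≠ 0 := by
    intro d h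
    have := hC2 d
    rw [h] at this
    norm_num at this
    linarith
  have htc : ∀ d, 1 - 2 * (k : ℝ) ^ 2 * ed ≤ 𝒩.tc e d := by
    intro d
    have h1 := hC2 d
    have h2 := 𝒩.tc_le_one he1 d
    have h3 : 𝒩.tc e d ^ 2 = 𝒩.C e d ^ 2 := by unfold tc; exact sq_abs _
    have h4 : 0 ≤ 𝒩.tc e d := by unfold tc; exact abs_nonneg _
    nlinarith
  -- constants of motion
  have hsumtc : ∀ t, ∑ d ∈ 𝒩.alive e t, 𝒩.tc e d = k - ed := by
    intro t
    obtain ⟨lo, hlo, hlo'⟩ := 𝒩.exists_low e t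
    rw [sum_tc_const hCne hlo, 𝒩.alive_low hlo', hLeq]
    have h1 : ∀ d ∈ L, 𝒩.tc e d = -dot e (𝒩.dir d) := by
      intro d hd
      unfold tc C
      apply abs_of_neg
      have := hCL d hd
      unfold C at this
      linarith
    rw [Finset.sum_congr rfl h1, Finset.sum_neg_distrib, ← dot_sum_right, hsumL,
      dot_neg_right, neg_neg, hdote]
  have hsumts : ∀ t, ∑ d ∈ 𝒩.alive e t, 𝒩.ts e d = 0 := by
    intro t
    obtain ⟨lo, hlo, hlo'⟩ := 𝒩.exists_low e t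
    rw [sum_ts_const hCne hlo, 𝒩.alive_low hlo', hLeq]
    have h1 : ∀ d ∈ L, 𝒩.ts e d = -dot (Complex.I * e) (𝒩.dir d) := by
      intro d hd
      rw [ts_of_neg (by have := hCL d hd; linarith), 𝒩.Sn_eq_dot]
    rw [Finset.sum_congr rfl h1, Finset.sum_neg_distrib, ← dot_sum_right, hsumL,
      dot_neg_right, neg_neg, hFe, dot_smul_right]
    have : dot (Complex.I * e) e = 0 := by unfold dot; simp; ring
    rw [this, mul_zero]
  have hcard : ∀ t, (𝒩.alive e t).card = k := by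
    intro t
    have h1 := hsumtc t
    have h2 : ∑ d ∈ 𝒩.alive e t, 𝒩.tc e d ≤ (𝒩.alive e t).card := by
      rw [← nsmul_one, ← Finset.sum_const]
      exact Finset.sum_le_sum fun d _ => 𝒩.tc_le_one he1 d
    have h3 : ((𝒩.alive e t).card : ℝ) * (1 - 2 * (k : ℝ) ^ 2 * ed) ≤
        ∑ d ∈ 𝒩.alive e t, 𝒩.tc e d := by
      rw [← nsmul_eq_mul, ← Finset.sum_const]
      exact Finset.sum_le_sum fun d _ => htc d
    apply le_antisymm
    · by_contra hcon
      push Not at hcon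
      have h4 : (k : ℝ) + 1 ≤ (𝒩.alive e t).card := by exact_mod_cast hcon
      have h5 : ((k : ℝ) + 1) * (1 - 2 * (k : ℝ) ^ 2 * ed) ≤
          ((𝒩.alive e t).card : ℝ) * (1 - 2 * (k : ℝ) ^ 2 * ed) :=
        mul_le_mul_of_nonneg_right h4 (by linarith)
      nlinarith
    · by_contra hcon
      push Not at hcon
      have h4 : ((𝒩.alive e t).card : ℝ) + 1 ≤ k := by exact_mod_cast hcon
      linarith
  have htcge : ∀ d, 1 - ed ≤ 𝒩.tc e d := by
    have h0 : ∀ t, ∀ d ∈ 𝒩.alive e t, 1 - ed ≤ 𝒩.tc e d := by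
      intro t d hd
      have h1 : 1 - 𝒩.tc e d ≤ ∑ d ∈ 𝒩.alive e t, (1 - 𝒩.tc e d) :=
        Finset.single_le_sum (f := fun d => 1 - 𝒩.tc e d)
          (fun d _ => by have := 𝒩.tc_le_one he1 d; linarith) hd
      rw [Finset.sum_sub_distrib, hsumtc] at h1
      simp only [Finset.sum_const, nsmul_eq_mul, mul_one, hcard] at h1
      linarith
    intro d
    obtain ⟨t, ht | ht⟩ := 𝒩.exists_alive (hCne d)
    · exact h0 t d ht
    · have := h0 t _ ht
      rwa [tc_rev] at this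
  refine ⟨k, ed, e, ?_, hedκ⟩
  exact
    { he := he1
      hk := hk1
      ed0 := hed0
      ed1 := hed4
      hN := hn2k
      cardR := by rw [hReq]; exact hk
      cardL := by rw [hLeq]; exact hkL
      sumR := by rw [hReq, ← hFo]; exact hFe
      sumL := by rw [hLeq, hsumL, hFe]
      tc_ge := htcge
      card_alive := hcard
      sum_tc := hsumtc
      sum_ts := hsumts }

end DartNet

end

end Pool.Agent.Lib.Pb48dd4
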