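import Pool.Agent.Lib.Pb48dd4.ThinSetup

/-!
# Thin nets: virial identities

Auxiliary file for MP_b48dd4_gt.
-/

namespace Pool.Agent.Lib.Pb48dd4

open Finset
open scoped Classical

noncomputable section

variable {ι δ : Type} [Fintype ι] [Fintype δ]

lemma crs_decomp {e : ℂ} (he : ‖e‖ = 1) (a b : ℂ) :
    crs a b = dot e a * crs e b - crs e a * dot e b := by
  have h1 : e.re * e.re + e.im * e.im = 1 := by
    rw [← Complex.normSq_apply, ← Complex.sq_norm, he]; norm_num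
  have h2 : dot e a * crs e b - crs e a * dot e b =
      (e.re * e.re + e.im * e.im) * crs a b := by
    unfold dot crs; ring
  rw [h2, h1, one_mul]

lemma dot_decomp {e : ℂ} (he : ‖e‖ = 1) (a b : ℂ) :
    dot a b = dot e a * dot e b + crs e a * crs e b := by
  have h1 : e.re * e.re + e.im * e.im = 1 := by
    rw [← Complex.normSq_apply, ← Complex.sq_norm, he]; norm_num
  have h2 : dot e a * dot e b + crs e a * crs e b =
      (e.re * e.re + e.im * e.im) * dot a b := by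
    unfold dot crs; ring
  rw [h2, h1, one_mul]

lemma hasDerivAt_sq_sub (t₀ x : ℝ) :
    HasDerivAt (fun x : ℝ => (x - t₀) ^ 2) (2 * (x - t₀)) x := by
  have h1 : HasDerivAt (fun x : ℝ => x - t₀) 1 x := (hasDerivAt_id' x).sub_const t₀
  have h2 : HasDerivAt (fun x : ℝ => (x - t₀) * (x - t₀)) (1 * (x - t₀) + (x - t₀) * 1) x :=
    HasDerivAt.mul h1 h1
  have e1 : (fun x : ℝ => (x - t₀) ^ 2) = fun x : ℝ => (x - t₀) * (x - t₀) := by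
    funext x; ring
  rw [e1, show 2 * (x - t₀) = 1 * (x - t₀) + (x - t₀) * 1 by ring]
  exact h2

lemma hasDerivAt_neg_sq_sub (t₀ x : ℝ) :
    HasDerivAt (fun x : ℝ => -(x - t₀) ^ 2) (-(2 * (x - t₀))) x :=
  HasDerivAt.neg (hasDerivAt_sq_sub t₀ x)

/-- The point with coordinates `(t₀, y₀)` in the frame of `e`. -/
def pt (e : ℂ) (t₀ y₀ : ℝ) : ℂ := t₀ • e + y₀ • (Complex.I * e)

lemma dot_pt {e : ℂ} (he : ‖e‖ = 1) (t₀ y₀ : ℝ) : dot e (pt e t₀ y₀) = t₀ := by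
  have h1 : e.re * e.re + e.im * e.im = 1 := by
    rw [← Complex.normSq_apply, ← Complex.sq_norm, he]; norm_num
  have h2 : dot e (pt e t₀ y₀) = t₀ * (e.re * e.re + e.im * e.im) := by
    unfold pt dot; simp; ring
  rw [h2, h1, mul_one]

lemma crs_pt {e : ℂ} (he : ‖e‖ = 1) (t₀ y₀ : ℝ) : crs e (pt e t₀ y₀) = y₀ := by
  have h1 : e.re * e.re + e.im * e.im = 1 := by
    rw [← Complex.normSq_apply, ← Complex.sq_norm, he]; norm_num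
  have h2 : crs e (pt e t₀ y₀) = y₀ * (e.re * e.re + e.im * e.im) := by
    unfold pt crs; simp; ring
  rw [h2, h1, mul_one]

namespace DartNet

namespace ThinData

variable {𝒩 : DartNet ι δ} {k : ℕ} {ed : ℝ} {e : ℂ}

lemma tc_pos (T : 𝒩.ThinData k ed e) (d : δ) : 0 < 𝒩.tc e d := by
  have h1 := T.tc_ge d
  have h2 := T.ed1
  linarith

lemma C_ne (T : 𝒩.ThinData k ed e) (d : δ) : 𝒩.C e d ≠ 0 := by
  have h1 := T.tc_pos d
  unfold tc at h1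
  exact abs_pos.mp h1

lemma tc_le (T : 𝒩.ThinData k ed e) (d : δ) : 𝒩.tc e d ≤ 1 := 𝒩.tc_le_one T.he d

lemma Sn_sq_le (T : 𝒩.ThinData k ed e) (d : δ) : 𝒩.Sn e d ^ 2 ≤ 2 * ed := by
  have h1 := C_sq_add_Sn_sq (𝒩 := 𝒩) T.he d
  have h2 : (1 - ed) ^ 2 ≤ 𝒩.C e d ^ 2 := by
    have h3 := T.tc_ge d
    have h4 := T.ed1
    rw [← sq_abs (𝒩.C e d)]
    exact pow_le_pow_left₀ (by linarith) h3 2
  nlinarith [sq_nonneg ed]

lemma ts_sq_le (T : 𝒩.ThinData k ed e) (d : δ) : 𝒩.ts e d ^ 2 ≤ 2 * ed := by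
  rcases lt_or_gt_of_ne (T.C_ne d) with h | h
  · rw [ts_of_neg h, neg_sq]; exact T.Sn_sq_le d
  · rw [ts_of_pos h]; exact T.Sn_sq_le d

lemma abs_ts_le (T : 𝒩.ThinData k ed e) (d : δ) : |𝒩.ts e d| ≤ Real.sqrt (2 * ed) := by
  apply Real.abs_le_sqrt
  exact T.ts_sq_le d

lemma abs_sl_le (T : 𝒩.ThinData k ed e) (d : δ) : |𝒩.sl e d| ≤ 2 * Real.sqrt (2 * ed) := by
  have h1 := T.abs_ts_le d
  have h2 := T.tc_ge d
  have h3 := T.ed1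
  rw [← sl_mul_tc, abs_mul, abs_of_pos (T.tc_pos d)] at h1
  have h4 : |𝒩.sl e d| * (3 / 4) ≤ |𝒩.sl e d| * 𝒩.tc e d :=
    mul_le_mul_of_nonneg_left (by linarith) (abs_nonneg _)
  have h5 := abs_nonneg (𝒩.sl e d)
  linarith

lemma wt_mul_tc (T : 𝒩.ThinData k ed e) (d : δ) :
    𝒩.wt e d * 𝒩.tc e d = 1 - 𝒩.tc e d ^ 2 := by
  have h1 : 𝒩.wt e d * 𝒩.tc e d = 𝒩.ts e d ^ 2 := by
    unfold wt
    rw [← sl_mul_tc]; ring
  have h2 : 𝒩.ts e d ^ 2 = 𝒩.Sn e d ^ 2 := by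
    rcases lt_or_gt_of_ne (T.C_ne d) with h | h
    · rw [ts_of_neg h, neg_sq]
    · rw [ts_of_pos h]
  have h3 := C_sq_add_Sn_sq (𝒩 := 𝒩) T.he d
  have h4 : 𝒩.tc e d ^ 2 = 𝒩.C e d ^ 2 := by unfold tc; exact sq_abs _
  rw [h1, h2, h4]; linarith

lemma wt_ge (T : 𝒩.ThinData k ed e) (d : δ) : 2 * (1 - 𝒩.tc e d) ≤ 𝒩.wt e d := by
  have h1 := T.wt_mul_tc d
  have h2 := T.tc_pos d
  by_contra hcon
  push Not at hcon
  have h3 := mul_lt_mul_of_pos_right hcon h2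
  rw [h1] at h3
  nlinarith [sq_nonneg (1 - 𝒩.tc e d)]

lemma wt_le (T : 𝒩.ThinData k ed e) (d : δ) :
    𝒩.wt e d ≤ 2 * (1 - 𝒩.tc e d) + 2 * (1 - 𝒩.tc e d) ^ 2 := by
  have h1 := T.wt_mul_tc d
  have h2 := T.tc_pos d
  have h3 := T.tc_ge d
  have h4 := T.ed1
  have h5 := T.tc_le d
  by_contra hcon
  push Not at hcon
  have h6 := mul_lt_mul_of_pos_right hcon h2
  rw [h1] at h6
  set x := 1 - 𝒩.tc e d with hx
  have h7 : 𝒩.tc e d = 1 - x := by rw [hx]; ring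
  rw [h7] at h6
  have h8 : 0 ≤ x := by rw [hx]; linarith
  have h9 : x ≤ 1 / 4 := by rw [hx]; linarith
  nlinarith [mul_nonneg (mul_nonneg h8 h8) (by linarith : 0 ≤ 1 / 4 - x)]

lemma sum_defect (T : 𝒩.ThinData k ed e) (t : ℝ) :
    ∑ d ∈ 𝒩.alive e t, (1 - 𝒩.tc e d) = ed := by
  rw [Finset.sum_sub_distrib, T.sum_tc]
  simp only [Finset.sum_const, nsmul_eq_mul, mul_one, T.card_alive]
  ring

lemma sum_wt_ge (T : 𝒩.ThinData k ed e) (t : ℝ) : 2 * ed ≤ ∑ d ∈ 𝒩.alive e t, 𝒩.wt e d := by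
  rw [← T.sum_defect t, Finset.mul_sum]
  exact Finset.sum_le_sum fun d _ => T.wt_ge d

lemma sum_wt_le (T : 𝒩.ThinData k ed e) (t : ℝ) :
    ∑ d ∈ 𝒩.alive e t, 𝒩.wt e d ≤ 2 * ed + 2 * ed ^ 2 := by
  have h1 : ∑ d ∈ 𝒩.alive e t, 𝒩.wt e d ≤
      ∑ d ∈ 𝒩.alive e t, (2 + 2 * ed) * (1 - 𝒩.tc e d) := by
    apply Finset.sum_le_sum
    intro d _
    refine (T.wt_le d).trans ?_
    have h2 := T.tc_ge d
    have h3 := T.tc_le d
    nlinarith [mul_nonneg (by linarith : 0 ≤ 1 - 𝒩.tc e d)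
      (by linarith : 0 ≤ ed - (1 - 𝒩.tc e d))]
  rw [← Finset.mul_sum, T.sum_defect] at h1
  linarith

lemma cover_eq (T : 𝒩.ThinData k ed e) {lo hi x : ℝ} (h1 : lo < x) (h2 : x ≤ hi) :
    (∑ d ∈ 𝒩.tracks e, if 𝒩.ta e lo d < x ∧ x ≤ 𝒩.tb e hi d then 𝒩.wt e d else 0) =
      ∑ d ∈ 𝒩.alive e x, 𝒩.wt e d :=
  (sum_alive T.C_ne h1.le h2 _).symm

lemma G_lower (T : 𝒩.ThinData k ed e) {lo hi : ℝ} (h : lo ≤ hi) :
    2 * ed * (hi - lo) ≤ 𝒩.G e hi - 𝒩.G e lo := by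
  rw [G_sub T.C_ne h]
  exact le_cover (𝒩.tracks e) (𝒩.ta e lo) (𝒩.tb e hi) (𝒩.wt e)
    (fun d hd => ta_le_tb hd) lo hi (2 * ed) h (fun x => x) (fun _ => 1)
    (fun x => hasDerivAt_id x) continuous_const (fun _ _ => zero_le_one)
    (fun x h1 h2 => by rw [T.cover_eq h1 h2]; exact T.sum_wt_ge x)

lemma G_upper (T : 𝒩.ThinData k ed e) {lo hi : ℝ} (h : lo ≤ hi) :
    𝒩.G e hi - 𝒩.G e lo ≤ (2 * ed + 2 * ed ^ 2) * (hi - lo) := by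
  rw [G_sub T.C_ne h]
  exact cover_le (𝒩.tracks e) (𝒩.ta e lo) (𝒩.tb e hi) (𝒩.wt e)
    (fun d hd => ta_le_tb hd) lo hi (2 * ed + 2 * ed ^ 2) h (fun x => x) (fun _ => 1)
    (fun x => hasDerivAt_id x) continuous_const (fun _ _ => zero_le_one)
    (fun x h1 h2 => by rw [T.cover_eq h1 h2]; exact T.sum_wt_le x)

lemma G_continuous (T : 𝒩.ThinData k ed e) : Continuous (𝒩.G e) := by
  have h0 := T.ed0
  have hL : 0 ≤ 2 * ed + 2 * ed ^ 2 := by positivity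
  have h1 : ∀ s t, s ≤ t → |𝒩.G e s - 𝒩.G e t| ≤ (2 * ed + 2 * ed ^ 2) * |s - t| := by
    intro s t hst
    have h2 := T.G_lower hst
    have h3 := T.G_upper hst
    have h4 : 0 ≤ 2 * ed * (t - s) := mul_nonneg (by linarith) (by linarith)
    rw [abs_sub_comm, abs_sub_comm s t, abs_of_nonneg (by linarith : 0 ≤ 𝒩.G e t - 𝒩.G e s),
      abs_of_nonneg (by linarith : 0 ≤ t - s)]
    exact h3
  have h5 : LipschitzWith (Real.toNNReal (2 * ed + 2 * ed ^ 2)) (𝒩.G e) := by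
    apply LipschitzWith.of_dist_le_mul
    intro s t
    rw [Real.dist_eq, Real.dist_eq, Real.coe_toNNReal _ hL]
    rcases le_total s t with h | h
    · exact h1 s t h
    · rw [abs_sub_comm, abs_sub_comm s t]
      exact h1 t s h
  exact h5.continuous

lemma exists_t0 (T : 𝒩.ThinData k ed e) (hed : 0 < ed) : ∃ t₀, 𝒩.G e t₀ = 0 := by
  set s : ℝ := |𝒩.G e 0| / (2 * ed) with hs
  have hs0 : 0 ≤ s := by positivity
  have hs1 : 2 * ed * s = |𝒩.G e 0| := by rw [hs]; field_simp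
  have h1 : 𝒩.G e (-s) ≤ 0 := by
    have := T.G_lower (show -s ≤ 0 by linarith)
    have h2 := le_abs_self (𝒩.G e 0)
    linarith
  have h2 : 0 ≤ 𝒩.G e s := by
    have := T.G_lower hs0
    have h2 := neg_abs_le (𝒩.G e 0)
    linarith
  exact mem_range_of_exists_le_of_exists_ge T.G_continuous ⟨_, h1⟩ ⟨_, h2⟩

lemma sum_pos_tc (T : 𝒩.ThinData k ed e) (t t' : ℝ) :
    ∑ d ∈ 𝒩.alive e t, 𝒩.pos e d t * 𝒩.tc e d =
      ∑ d ∈ 𝒩.alive e t', 𝒩.pos e d t' * 𝒩.tc e d := by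
  have h1 : ∀ s, ∑ d ∈ 𝒩.alive e s, (𝒩.pos e d s * 𝒩.tc e d - s * 𝒩.ts e d) =
      ∑ d ∈ 𝒩.alive e s, 𝒩.pos e d s * 𝒩.tc e d := by
    intro s
    rw [Finset.sum_sub_distrib, ← Finset.mul_sum, T.sum_ts, mul_zero, sub_zero]
  rw [← h1, ← h1]
  rcases le_total t t' with h | h
  · exact (sum_torque_const T.C_ne h).symm
  · exact sum_torque_const T.C_ne h

lemma exists_center (T : 𝒩.ThinData k ed e) (hed : 0 < ed) : ∃ t₀ y₀, 𝒩.G e t₀ = 0 ∧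
    ∀ t, ∑ d ∈ 𝒩.alive e t, (𝒩.pos e d t - y₀) * 𝒩.tc e d = 0 := by
  obtain ⟨t₀, ht₀⟩ := T.exists_t0 hed
  have hk : (1 : ℝ) ≤ k := by exact_mod_cast T.hk
  have h4 := T.ed1
  refine ⟨t₀, (∑ d ∈ 𝒩.alive e t₀, 𝒩.pos e d t₀ * 𝒩.tc e d) / (k - ed), ht₀, fun t => ?_⟩
  simp_rw [sub_mul]
  rw [Finset.sum_sub_distrib, ← Finset.mul_sum, T.sum_tc, T.sum_pos_tc t t₀,
    div_mul_cancel₀ _ (by linarith : (k : ℝ) - ed ≠ 0), sub_self]

lemma alive_nonempty (T : 𝒩.ThinData k ed e) (t : ℝ) : (𝒩.alive e t).Nonempty := by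
  rw [← Finset.card_pos, T.card_alive]
  exact T.hk

/-- `a` and `b` are the lowest and highest tracks at time `t`. -/
def Ext (𝒩 : DartNet ι δ) (e : ℂ) (t : ℝ) (a b : δ) : Prop :=
  a ∈ 𝒩.alive e t ∧ b ∈ 𝒩.alive e t ∧
    ∀ d ∈ 𝒩.alive e t, 𝒩.pos e a t ≤ 𝒩.pos e d t ∧ 𝒩.pos e d t ≤ 𝒩.pos e b t

lemma exists_ext (T : 𝒩.ThinData k ed e) (t : ℝ) : ∃ a b, Ext 𝒩 e t a b := by
  obtain ⟨a, ha, ha'⟩ := Finset.exists_min_image _ (fun d => 𝒩.pos e d t) (T.alive_nonempty t)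
  obtain ⟨b, hb, hb'⟩ := Finset.exists_max_image _ (fun d => 𝒩.pos e d t) (T.alive_nonempty t)
  exact ⟨a, b, ha, hb, fun d hd => ⟨ha' d hd, hb' d hd⟩⟩

/-- The spread grows linearly away from `t₀`. -/
lemma spread_virial (T : 𝒩.ThinData k ed e) {t₀ t : ℝ} (ht₀ : 𝒩.G e t₀ = 0)
    {a b : δ} (hab : Ext 𝒩 e t a b) :
    Real.sqrt (2 * ed) * |t - t₀| ≤ k * (𝒩.pos e b t - 𝒩.pos e a t) := by
  set σ := Real.sqrt (2 * ed) with hσ
  have h0 := T.ed0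
  have hσ2 : σ ^ 2 = 2 * ed := Real.sq_sqrt (by linarith)
  have hσ0 : 0 ≤ σ := Real.sqrt_nonneg _
  obtain ⟨ha, hb, hext⟩ := hab
  have hD : 0 ≤ 𝒩.pos e b t - 𝒩.pos e a t := by linarith [(hext a ha).2]
  have h1 : 2 * ed * |t - t₀| ≤ |𝒩.G e t| := by
    rcases le_total t₀ t with h | h
    · have := T.G_lower h
      rw [ht₀, sub_zero] at this
      rw [abs_of_nonneg (by linarith : 0 ≤ t - t₀)]
      exact this.trans (le_abs_self _)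
    · have := T.G_lower h
      rw [ht₀, zero_sub] at this
      rw [abs_of_nonpos (by linarith : t - t₀ ≤ 0)]
      have h2 := neg_le_abs (𝒩.G e t)
      linarith
  have h2 : 𝒩.G e t = ∑ d ∈ 𝒩.alive e t, (𝒩.pos e d t - 𝒩.pos e a t) * 𝒩.ts e d := by
    unfold G
    simp_rw [sub_mul]
    rw [Finset.sum_sub_distrib, ← Finset.mul_sum, T.sum_ts, mul_zero, sub_zero]
  have h3 : |𝒩.G e t| ≤ k * ((𝒩.pos e b t - 𝒩.pos e a t) * σ) := by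
    rw [h2]
    refine (Finset.abs_sum_le_sum_abs _ _).trans ?_
    rw [← T.card_alive t, ← nsmul_eq_mul, ← Finset.sum_const]
    apply Finset.sum_le_sum
    intro d hd
    rw [abs_mul]
    have h4 := hext d hd
    rw [abs_of_nonneg (by linarith : 0 ≤ 𝒩.pos e d t - 𝒩.pos e a t)]
    exact mul_le_mul (by linarith) (T.abs_ts_le d) (abs_nonneg _) hD
  rcases hσ0.eq_or_lt with h | h
  · rw [← h, zero_mul]
    positivity
  · have h5 : σ * (σ * |t - t₀|) ≤ σ * (k * (𝒩.pos e b t - 𝒩.pos e a t)) := by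
      have h6 : σ * (σ * |t - t₀|) = 2 * ed * |t - t₀| := by rw [← hσ2]; ring
      rw [h6]
      calc 2 * ed * |t - t₀| ≤ |𝒩.G e t| := h1
        _ ≤ k * ((𝒩.pos e b t - 𝒩.pos e a t) * σ) := h3
        _ = σ * (k * (𝒩.pos e b t - 𝒩.pos e a t)) := by ring
    exact le_of_mul_le_mul_left h5 h

lemma Mv_le (T : 𝒩.ThinData k ed e) (t₀ y₀ t : ℝ) :
    𝒩.Mv e t₀ y₀ t ≤ 𝒩.Mv e t₀ y₀ t₀ - 2 * ed * (t - t₀) ^ 2 := by
  rcases le_total t₀ t with h | h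
  · have h1 := Mv_sub T.C_ne t₀ y₀ h
    have h2 := le_cover (𝒩.tracks e) (𝒩.ta e t₀) (𝒩.tb e t) (𝒩.wt e)
      (fun d hd => ta_le_tb hd) t₀ t (2 * ed) h (fun x => (x - t₀) ^ 2) (fun x => 2 * (x - t₀))
      (fun x => hasDerivAt_sq_sub t₀ x)
      (by fun_prop) (fun x hx => by have := hx.1; linarith)
      (fun x h1 h2 => by rw [T.cover_eq h1 h2]; exact T.sum_wt_ge x)
    simp only [sub_self] at h2
    linarith
  · have h1 := Mv_sub T.C_ne t₀ y₀ h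
    have h2 := le_cover (𝒩.tracks e) (𝒩.ta e t) (𝒩.tb e t₀) (𝒩.wt e)
      (fun d hd => ta_le_tb hd) t t₀ (2 * ed) h (fun x => -(x - t₀) ^ 2)
      (fun x => -(2 * (x - t₀)))
      (fun x => hasDerivAt_neg_sq_sub t₀ x)
      (by fun_prop) (fun x hx => by have := hx.2; linarith)
      (fun x h1 h2 => by rw [T.cover_eq h1 h2]; exact T.sum_wt_ge x)
    simp only [sub_self] at h2
    have h3 : ∑ d ∈ 𝒩.tracks e, 𝒩.wt e d * (-(clamp t t₀ (𝒩.tb e t₀ d) - t₀) ^ 2 -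
        -(clamp t t₀ (𝒩.ta e t d) - t₀) ^ 2) = -∑ d ∈ 𝒩.tracks e,
      𝒩.wt e d * ((clamp t t₀ (𝒩.tb e t₀ d) - t₀) ^ 2 -
        (clamp t t₀ (𝒩.ta e t d) - t₀) ^ 2) := by
      rw [← Finset.sum_neg_distrib]
      apply Finset.sum_congr rfl
      intro d _
      ring
    rw [h3] at h2
    linarith

lemma Mv_center (T : 𝒩.ThinData k ed e) {t₀ y₀ : ℝ}
    (hy : ∀ t, ∑ d ∈ 𝒩.alive e t, (𝒩.pos e d t - y₀) * 𝒩.tc e d = 0) {a b : δ}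
    (hab : Ext 𝒩 e t₀ a b) :
    𝒩.Mv e t₀ y₀ t₀ ≤ k * (𝒩.pos e b t₀ - 𝒩.pos e a t₀) ^ 2 := by
  obtain ⟨ha, hb, hext⟩ := hab
  have h1 : 𝒩.pos e a t₀ ≤ y₀ := by
    by_contra hcon
    push Not at hcon
    have h2 : 0 < ∑ d ∈ 𝒩.alive e t₀, (𝒩.pos e d t₀ - y₀) * 𝒩.tc e d := by
      apply Finset.sum_pos _ (T.alive_nonempty t₀)
      intro d hd
      exact mul_pos (by linarith [(hext d hd).1]) (T.tc_pos d)
    rw [hy] at h2
    exact lt_irrefl _ h2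
  have h2 : y₀ ≤ 𝒩.pos e b t₀ := by
    by_contra hcon
    push Not at hcon
    have h2 : 0 < ∑ d ∈ 𝒩.alive e t₀, -((𝒩.pos e d t₀ - y₀) * 𝒩.tc e d) := by
      apply Finset.sum_pos _ (T.alive_nonempty t₀)
      intro d hd
      rw [← neg_mul]
      exact mul_pos (by linarith [(hext d hd).2]) (T.tc_pos d)
    rw [Finset.sum_neg_distrib, hy, neg_zero] at h2
    exact lt_irrefl _ h2
  unfold Mv
  rw [← T.card_alive t₀, ← nsmul_eq_mul, ← Finset.sum_const]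
  apply Finset.sum_le_sum
  intro d hd
  have h3 := hext d hd
  rw [sub_self, mul_zero, zero_mul, zero_mul, sub_zero]
  calc (𝒩.pos e d t₀ - y₀) ^ 2 * 𝒩.tc e d ≤ (𝒩.pos e d t₀ - y₀) ^ 2 * 1 :=
        mul_le_mul_of_nonneg_left (T.tc_le d) (sq_nonneg _)
    _ ≤ (𝒩.pos e b t₀ - 𝒩.pos e a t₀) ^ 2 := by
        rw [mul_one]
        apply sq_le_sq'
        · linarith
        · linarith

/-- Concentration: tracks pass near the centre in the renormalised sense. -/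
lemma concentration (T : 𝒩.ThinData k ed e) {t₀ y₀ : ℝ}
    (hy : ∀ t, ∑ d ∈ 𝒩.alive e t, (𝒩.pos e d t - y₀) * 𝒩.tc e d = 0) {a b : δ}
    (hab : Ext 𝒩 e t₀ a b) {t : ℝ} {d : δ} (hd : d ∈ 𝒩.alive e t) :
    (𝒩.tc e d * (𝒩.pos e d t - y₀) - (t - t₀) * 𝒩.ts e d) ^ 2 ≤
      k * (𝒩.pos e b t₀ - 𝒩.pos e a t₀) ^ 2 + 2 * ed ^ 2 * (t - t₀) ^ 2 := by
  have h1 := T.Mv_le t₀ y₀ t
  have h2 := T.Mv_center hy hab
  have h3 := T.sum_wt_le t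
  have h4 : ∑ d ∈ 𝒩.alive e t, 𝒩.tc e d * (𝒩.pos e d t - y₀ - (t - t₀) * 𝒩.sl e d) ^ 2 =
      𝒩.Mv e t₀ y₀ t + (t - t₀) ^ 2 * ∑ d ∈ 𝒩.alive e t, 𝒩.wt e d := by
    unfold Mv
    rw [Finset.mul_sum, ← Finset.sum_add_distrib]
    apply Finset.sum_congr rfl
    intro d _
    rw [← sl_mul_tc]
    unfold wt
    ring
  have h5 : 𝒩.tc e d * (𝒩.pos e d t - y₀ - (t - t₀) * 𝒩.sl e d) ^ 2 ≤
      ∑ d ∈ 𝒩.alive e t, 𝒩.tc e d * (𝒩.pos e d t - y₀ - (t - t₀) * 𝒩.sl e d) ^ 2 :=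
    Finset.single_le_sum
      (f := fun d => 𝒩.tc e d * (𝒩.pos e d t - y₀ - (t - t₀) * 𝒩.sl e d) ^ 2)
      (fun d _ => mul_nonneg (T.tc_pos d).le (sq_nonneg _)) hd
  have h6 : (𝒩.tc e d * (𝒩.pos e d t - y₀) - (t - t₀) * 𝒩.ts e d) ^ 2 =
      𝒩.tc e d * (𝒩.tc e d * (𝒩.pos e d t - y₀ - (t - t₀) * 𝒩.sl e d) ^ 2) := by
    rw [← sl_mul_tc]; ring
  rw [h6]
  have h7 : 𝒩.tc e d * (𝒩.tc e d * (𝒩.pos e d t - y₀ - (t - t₀) * 𝒩.sl e d) ^ 2) ≤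
      1 * (𝒩.tc e d * (𝒩.pos e d t - y₀ - (t - t₀) * 𝒩.sl e d) ^ 2) :=
    mul_le_mul_of_nonneg_right (T.tc_le d) (mul_nonneg (T.tc_pos d).le (sq_nonneg _))
  have h8 := mul_le_mul_of_nonneg_left h3 (sq_nonneg (t - t₀))
  rw [one_mul] at h7
  rw [h4] at h5
  linarith

lemma dot_z_sub (T : 𝒩.ThinData k ed e) (t₀ y₀ : ℝ) (v : ι) :
    dot e (𝒩.z v - pt e t₀ y₀) = 𝒩.X e v - t₀ := by
  rw [dot_sub_right, dot_pt T.he]; rfl

lemma crs_z_sub (T : 𝒩.ThinData k ed e) (t₀ y₀ : ℝ) (v : ι) :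
    crs e (𝒩.z v - pt e t₀ y₀) = 𝒩.Y e v - y₀ := by
  rw [crs_sub_right, crs_pt T.he]; rfl

/-- Radiality estimate. -/
lemma radial (T : 𝒩.ThinData k ed e) {t₀ y₀ : ℝ}
    (hy : ∀ t, ∑ d ∈ 𝒩.alive e t, (𝒩.pos e d t - y₀) * 𝒩.tc e d = 0) {a b : δ}
    (hab : Ext 𝒩 e t₀ a b) (d : δ) :
    crs (𝒩.z (𝒩.src d) - pt e t₀ y₀) (𝒩.dir d) ^ 2 ≤
      k * (𝒩.pos e b t₀ - 𝒩.pos e a t₀) ^ 2 +
        2 * ed ^ 2 * (𝒩.X e (𝒩.src d) - t₀) ^ 2 := by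
  have h1 : crs (𝒩.z (𝒩.src d) - pt e t₀ y₀) (𝒩.dir d) =
      (𝒩.X e (𝒩.src d) - t₀) * 𝒩.Sn e d - (𝒩.Y e (𝒩.src d) - y₀) * 𝒩.C e d := by
    rw [crs_decomp T.he, T.dot_z_sub, T.crs_z_sub]; rfl
  rw [h1]
  rcases lt_or_gt_of_ne (T.C_ne d) with h | h
  · -- left-going dart
    by_cases hr : 𝒩.rev d = d
    · have hd : d ∈ 𝒩.alive e (𝒩.X e (𝒩.src d)) := by
        rw [mem_alive]
        exact Or.inr ⟨h, hr, le_rfl⟩
      have h2 := T.concentration hy hab hd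
      rw [pos_src, ts_of_neg h] at h2
      unfold tc at h2
      rw [abs_of_neg h] at h2
      refine le_trans (le_of_eq ?_) h2
      ring
    · have hd : 𝒩.rev d ∈ 𝒩.alive e (𝒩.X e (𝒩.src d)) := by
        rw [mem_alive]
        left
        rw [C_rev hr, 𝒩.rev_rev]
        refine ⟨by linarith, ?_, Or.inr le_rfl⟩
        rw [X_rev hr]
        have := mul_pos (𝒩.len_pos d hr) (neg_pos.mpr h)
        linarith
      have h2 := T.concentration hy hab hd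
      rw [pos_rev_src h.ne, tc_rev, ts_rev, ts_of_neg h] at h2
      unfold tc at h2
      rw [abs_of_neg h] at h2
      refine le_trans (le_of_eq ?_) h2
      ring
  · -- right-going dart: limit from the right
    obtain ⟨η, hη, hη'⟩ : ∃ η > 𝒩.X e (𝒩.src d), ∀ t ∈ Set.Ioc (𝒩.X e (𝒩.src d)) η,
        d ∈ 𝒩.alive e t := by
      by_cases hr : 𝒩.rev d = d
      · refine ⟨𝒩.X e (𝒩.src d) + 1, by linarith, fun t ht => ?_⟩
        rw [mem_alive]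
        exact Or.inl ⟨h, ht.1, Or.inl hr⟩
      · refine ⟨𝒩.X e (𝒩.src (𝒩.rev d)), ?_, fun t ht => ?_⟩
        · rw [X_rev hr]
          have := mul_pos (𝒩.len_pos d hr) h
          linarith
        · rw [mem_alive]
          exact Or.inl ⟨h, ht.1, Or.inr ht.2⟩
    have hcont1 : Continuous fun t =>
        (𝒩.tc e d * (𝒩.pos e d t - y₀) - (t - t₀) * 𝒩.ts e d) ^ 2 := by
      unfold pos
      fun_prop
    have hcont2 : Continuous fun t : ℝ => (k : ℝ) * (𝒩.pos e b t₀ - 𝒩.pos e a t₀) ^ 2 +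
        2 * ed ^ 2 * (t - t₀) ^ 2 := by fun_prop
    have h2 : (𝒩.tc e d * (𝒩.pos e d (𝒩.X e (𝒩.src d)) - y₀) -
        (𝒩.X e (𝒩.src d) - t₀) * 𝒩.ts e d) ^ 2 ≤
        k * (𝒩.pos e b t₀ - 𝒩.pos e a t₀) ^ 2 +
        2 * ed ^ 2 * (𝒩.X e (𝒩.src d) - t₀) ^ 2 := by
      have hcl : IsClosed {t : ℝ |
          (𝒩.tc e d * (𝒩.pos e d t - y₀) - (t - t₀) * 𝒩.ts e d) ^ 2 ≤
          (k : ℝ) * (𝒩.pos e b t₀ - 𝒩.pos e a t₀) ^ 2 + 2 * ed ^ 2 * (t - t₀) ^ 2} :=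
        isClosed_le hcont1 hcont2
      have hsub : Set.Ioc (𝒩.X e (𝒩.src d)) η ⊆ {t : ℝ |
          (𝒩.tc e d * (𝒩.pos e d t - y₀) - (t - t₀) * 𝒩.ts e d) ^ 2 ≤
          (k : ℝ) * (𝒩.pos e b t₀ - 𝒩.pos e a t₀) ^ 2 + 2 * ed ^ 2 * (t - t₀) ^ 2} :=
        fun t ht => T.concentration hy hab (hη' t ht)
      have h3 := closure_minimal hsub hcl
      rw [closure_Ioc hη.ne] at h3
      exact h3 (Set.left_mem_Icc.mpr hη.le)
    rw [pos_src, ts_of_pos h] at h2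
    unfold tc at h2
    rw [abs_of_pos h] at h2
    refine le_trans (le_of_eq ?_) h2
    ring

end ThinData

end DartNet

end

end Pool.Agent.Lib.Pb48dd4
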