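import Pool.Agent.Lib.Pb48dd4.Virial

/-!
# Thin nets: windows

Auxiliary file for MP_b48dd4_gt.
-/

namespace Pool.Agent.Lib.Pb48dd4

open Finset
open scoped Classical

noncomputable section

variable {ι δ : Type} [Fintype ι] [Fintype δ]

/-- A finite set of reals of spread at least `D` has a gap of size `D / k`. -/
lemma exists_gap {α : Type*} (A : Finset α) (f : α → ℝ) (k : ℕ) (hkA : A.card ≤ k)
    {a b : α} (ha : a ∈ A) {D : ℝ} (hD : 0 < D)
    (hab : D ≤ f b - f a) :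
    ∃ y, (∀ d ∈ A, D / (2 * k) ≤ |f d - y|) ∧ f a < y ∧ y < f b := by
  have hk1 : 1 ≤ k := le_trans (Finset.card_pos.mpr ⟨a, ha⟩) hkA
  have hk1' : (1 : ℝ) ≤ k := by exact_mod_cast hk1
  have hk0 : (0 : ℝ) < k := by linarith
  by_contra hcon
  push Not at hcon
  set u : ℝ := D / (2 * k) with hu
  have hu0 : 0 < u := by rw [hu]; positivity
  have hDu : D = 2 * k * u := by rw [hu]; field_simp
  set y : ℕ → ℝ := fun j => f a + (2 * j + 1) * u with hy
  have hex : ∀ j : ℕ, ∃ d, j ∈ Finset.range k → d ∈ A ∧ |f d - y j| < u := by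
    intro j
    by_cases hj : j ∈ Finset.range k
    · have hj' : (j : ℝ) + 1 ≤ k := by
        rw [Finset.mem_range] at hj
        exact_mod_cast hj
      by_contra h
      push Not at h
      have h1 := hcon (y j) (fun d hd => (h d).2 hd) (by
        rw [hy]; simp only
        have : 0 < (2 * (j : ℝ) + 1) * u := by positivity
        linarith)
      have h2 : y j < f b := by
        have h3 : (2 * (j : ℝ) + 1) * u ≤ (2 * k - 1) * u :=
          mul_le_mul_of_nonneg_right (by linarith) hu0.le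
        rw [hy]; simp only
        nlinarith
      linarith
    · exact ⟨a, fun h => absurd h hj⟩
  choose c hc using hex
  have hinj : Set.InjOn c (Finset.range k) := by
    intro i hi j hj hij
    have h1 := (hc i hi).2
    have h2 := (hc j hj).2
    rw [hij] at h1
    have h3 : |y i - y j| < 2 * u := by
      have : y i - y j = (f (c j) - y j) - (f (c j) - y i) := by ring
      rw [this]
      refine lt_of_le_of_lt (abs_sub _ _) ?_
      linarith
    have h4 : y i - y j = 2 * u * ((i : ℝ) - j) := by rw [hy]; simp only; ring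
    rw [h4, abs_mul, abs_of_pos (by positivity : 0 < 2 * u)] at h3
    have h5 : |(i : ℝ) - j| < 1 := by
      by_contra h6
      push Not at h6
      nlinarith
    have h6 : |(i : ℤ) - j| < 1 := by exact_mod_cast h5
    have h7 := Int.abs_lt_one_iff.mp h6
    omega
  have hsub : (Finset.range k).image c ⊆ A.erase a := by
    intro d hd
    rw [Finset.mem_image] at hd
    obtain ⟨j, hj, rfl⟩ := hd
    obtain ⟨h1, h2⟩ := hc j hj
    rw [Finset.mem_erase]
    refine ⟨fun h3 => ?_, h1⟩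
    rw [h3] at h2
    have h4 : f a - y j = -((2 * (j : ℝ) + 1) * u) := by rw [hy]; simp only; ring
    rw [h4, abs_neg, abs_of_pos (by positivity)] at h2
    have h5 : (0 : ℝ) ≤ j := by positivity
    nlinarith
  have h1 := Finset.card_le_card hsub
  rw [Finset.card_image_of_injOn hinj, Finset.card_range, Finset.card_erase_of_mem ha] at h1
  have h2 : 0 < A.card := Finset.card_pos.mpr ⟨a, ha⟩
  omega

namespace DartNet

namespace ThinData

variable {𝒩 : DartNet ι δ} {k : ℕ} {ed : ℝ} {e : ℂ}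

lemma sum_C (v : ι) : ∑ d with 𝒩.src d = v, 𝒩.C e d = 0 := by
  unfold C
  rw [← dot_sum_right, 𝒩.bal v, dot_zero_right]

lemma exists_right (T : 𝒩.ThinData k ed e) (v : ι) : ∃ d, 𝒩.src d = v ∧ 0 < 𝒩.C e d := by
  by_contra hcon
  push Not at hcon
  obtain ⟨d₀, hd₀⟩ := 𝒩.has v
  have h1 : 0 < ∑ d with 𝒩.src d = v, -𝒩.C e d := by
    apply Finset.sum_pos
    · intro d hd
      have h2 := hcon d (Finset.mem_filter.mp hd).2
      have h3 := T.C_ne d
      have h4 := lt_of_le_of_ne h2 h3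
      linarith
    · exact ⟨d₀, Finset.mem_filter.mpr ⟨Finset.mem_univ _, hd₀⟩⟩
  rw [Finset.sum_neg_distrib, sum_C, neg_zero] at h1
  exact lt_irrefl _ h1

lemma exists_left (T : 𝒩.ThinData k ed e) (v : ι) : ∃ d, 𝒩.src d = v ∧ 𝒩.C e d < 0 := by
  by_contra hcon
  push Not at hcon
  obtain ⟨d₀, hd₀⟩ := 𝒩.has v
  have h1 : 0 < ∑ d with 𝒩.src d = v, 𝒩.C e d := by
    apply Finset.sum_pos
    · intro d hd
      have h2 := hcon d (Finset.mem_filter.mp hd).2
      have h3 := T.C_ne d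
      exact lt_of_le_of_ne h2 (Ne.symm h3)
    · exact ⟨d₀, Finset.mem_filter.mpr ⟨Finset.mem_univ _, hd₀⟩⟩
  rw [sum_C] at h1
  exact lt_irrefl _ h1

lemma abs_pos_sub_le (T : 𝒩.ThinData k ed e) (d : δ) (s t : ℝ) :
    |𝒩.pos e d t - 𝒩.pos e d s| ≤ 2 * Real.sqrt (2 * ed) * |t - s| := by
  rw [pos_sub, abs_mul, mul_comm]
  exact mul_le_mul_of_nonneg_right (T.abs_sl_le d) (abs_nonneg _)

lemma fwd (T : 𝒩.ThinData k ed e) (m : ℕ) : ∀ v : ι,
    (univ.filter fun w => 𝒩.X e v < 𝒩.X e w).card ≤ m → ∀ t, 𝒩.X e v < t →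
    ∃ d ∈ 𝒩.alive e t, |𝒩.pos e d t - 𝒩.Y e v| ≤
      2 * Real.sqrt (2 * ed) * (t - 𝒩.X e v) := by
  have hσ : 0 ≤ 2 * Real.sqrt (2 * ed) := by positivity
  induction m with
  | zero =>
    intro v hv t ht
    obtain ⟨d, hd, hC⟩ := T.exists_right v
    have hr : 𝒩.rev d = d := by
      by_contra hr
      have h1 : 𝒩.X e v < 𝒩.X e (𝒩.src (𝒩.rev d)) := by
        rw [X_rev hr, hd]
        have := mul_pos (𝒩.len_pos d hr) hC
        linarith
      have h2 : 0 < (univ.filter fun w => 𝒩.X e v < 𝒩.X e w).card :=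
        Finset.card_pos.mpr ⟨_, Finset.mem_filter.mpr ⟨Finset.mem_univ _, h1⟩⟩
      omega
    refine ⟨d, ?_, ?_⟩
    · rw [mem_alive, hd]
      exact Or.inl ⟨hC, ht, Or.inl hr⟩
    · have h3 := T.abs_pos_sub_le d (𝒩.X e (𝒩.src d)) t
      rw [pos_src, hd, abs_of_pos (by linarith : 0 < t - 𝒩.X e v)] at h3
      exact h3
  | succ m ih =>
    intro v hv t ht
    obtain ⟨d, hd, hC⟩ := T.exists_right v
    by_cases hal : 𝒩.rev d = d ∨ t ≤ 𝒩.X e (𝒩.src (𝒩.rev d))
    · refine ⟨d, ?_, ?_⟩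
      · rw [mem_alive, hd]
        exact Or.inl ⟨hC, ht, hal⟩
      · have h3 := T.abs_pos_sub_le d (𝒩.X e (𝒩.src d)) t
        rw [pos_src, hd, abs_of_pos (by linarith : 0 < t - 𝒩.X e v)] at h3
        exact h3
    · push Not at hal
      obtain ⟨hr, hw⟩ := hal
      set w := 𝒩.src (𝒩.rev d) with hwdef
      have h1 : 𝒩.X e v < 𝒩.X e w := by
        rw [hwdef, X_rev hr, hd]
        have := mul_pos (𝒩.len_pos d hr) hC
        linarith
      have h2 : (univ.filter fun w' => 𝒩.X e w < 𝒩.X e w').card ≤ m := by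
        have h3 : (univ.filter fun w' => 𝒩.X e w < 𝒩.X e w') ⊂
            (univ.filter fun w' => 𝒩.X e v < 𝒩.X e w') := by
          rw [Finset.ssubset_iff_of_subset]
          · refine ⟨w, Finset.mem_filter.mpr ⟨Finset.mem_univ _, h1⟩, ?_⟩
            intro h4
            exact lt_irrefl _ (Finset.mem_filter.mp h4).2
          · intro w' hw'
            rw [Finset.mem_filter] at hw' ⊢
            exact ⟨hw'.1, h1.trans hw'.2⟩
        have := Finset.card_lt_card h3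
        omega
      obtain ⟨d', hd', hd''⟩ := ih w h2 t hw
      refine ⟨d', hd', ?_⟩
      have h3 := T.abs_pos_sub_le d (𝒩.X e (𝒩.src d)) (𝒩.X e w)
      rw [pos_src, hd, hwdef, pos_tgt hC.ne' hr, ← hwdef,
        abs_of_pos (by linarith : 0 < 𝒩.X e w - 𝒩.X e v)] at h3
      have h4 : 𝒩.pos e d' t - 𝒩.Y e v = (𝒩.pos e d' t - 𝒩.Y e w) + (𝒩.Y e w - 𝒩.Y e v) := by
        ring
      rw [h4]
      refine (abs_add_le _ _).trans ?_
      have h5 : 2 * Real.sqrt (2 * ed) * (t - 𝒩.X e v) =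
          2 * Real.sqrt (2 * ed) * (t - 𝒩.X e w) +
          2 * Real.sqrt (2 * ed) * (𝒩.X e w - 𝒩.X e v) := by ring
      rw [h5]
      exact add_le_add hd'' h3

lemma bwd (T : 𝒩.ThinData k ed e) (m : ℕ) : ∀ v : ι,
    (univ.filter fun w => 𝒩.X e w < 𝒩.X e v).card ≤ m → ∀ t, t ≤ 𝒩.X e v →
    ∃ d ∈ 𝒩.alive e t, |𝒩.pos e d t - 𝒩.Y e v| ≤
      2 * Real.sqrt (2 * ed) * (𝒩.X e v - t) := by
  have hσ : 0 ≤ 2 * Real.sqrt (2 * ed) := by positivity
  induction m with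
  | zero =>
    intro v hv t ht
    obtain ⟨d, hd, hC⟩ := T.exists_left v
    have hr : 𝒩.rev d = d := by
      by_contra hr
      have h1 : 𝒩.X e (𝒩.src (𝒩.rev d)) < 𝒩.X e v := by
        rw [X_rev hr, hd]
        have := mul_pos (𝒩.len_pos d hr) (neg_pos.mpr hC)
        linarith
      have h2 : 0 < (univ.filter fun w => 𝒩.X e w < 𝒩.X e v).card :=
        Finset.card_pos.mpr ⟨_, Finset.mem_filter.mpr ⟨Finset.mem_univ _, h1⟩⟩
      omega
    refine ⟨d, ?_, ?_⟩
    · rw [mem_alive, hd]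
      exact Or.inr ⟨hC, hr, ht⟩
    · have h3 := T.abs_pos_sub_le d (𝒩.X e (𝒩.src d)) t
      rw [pos_src, hd, abs_of_nonpos (by linarith : t - 𝒩.X e v ≤ 0), neg_sub] at h3
      exact h3
  | succ m ih =>
    intro v hv t ht
    obtain ⟨d, hd, hC⟩ := T.exists_left v
    by_cases hr : 𝒩.rev d = d
    · refine ⟨d, ?_, ?_⟩
      · rw [mem_alive, hd]
        exact Or.inr ⟨hC, hr, ht⟩
      · have h3 := T.abs_pos_sub_le d (𝒩.X e (𝒩.src d)) t
        rw [pos_src, hd, abs_of_nonpos (by linarith : t - 𝒩.X e v ≤ 0), neg_sub] at h3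
        exact h3
    · set w := 𝒩.src (𝒩.rev d) with hwdef
      have h1 : 𝒩.X e w < 𝒩.X e v := by
        rw [hwdef, X_rev hr, hd]
        have := mul_pos (𝒩.len_pos d hr) (neg_pos.mpr hC)
        linarith
      have hpv : 𝒩.pos e (𝒩.rev d) (𝒩.X e v) = 𝒩.Y e v := by
        have := pos_rev_src (𝒩 := 𝒩) (e := e) (d := d) hC.ne
        rwa [hd] at this
      by_cases hw : 𝒩.X e w < t
      · refine ⟨𝒩.rev d, ?_, ?_⟩
        · rw [mem_alive]
          left
          rw [C_rev hr, 𝒩.rev_rev, hd]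
          exact ⟨by linarith, hw, Or.inr ht⟩
        · have h3 := T.abs_pos_sub_le (𝒩.rev d) (𝒩.X e v) t
          rw [hpv, abs_of_nonpos (by linarith : t - 𝒩.X e v ≤ 0), neg_sub] at h3
          exact h3
      · push Not at hw
        have h2 : (univ.filter fun w' => 𝒩.X e w' < 𝒩.X e w).card ≤ m := by
          have h3 : (univ.filter fun w' => 𝒩.X e w' < 𝒩.X e w) ⊂
              (univ.filter fun w' => 𝒩.X e w' < 𝒩.X e v) := by
            rw [Finset.ssubset_iff_of_subset]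
            · refine ⟨w, Finset.mem_filter.mpr ⟨Finset.mem_univ _, h1⟩, ?_⟩
              intro h4
              exact lt_irrefl _ (Finset.mem_filter.mp h4).2
            · intro w' hw'
              rw [Finset.mem_filter] at hw' ⊢
              exact ⟨hw'.1, hw'.2.trans h1⟩
          have := Finset.card_lt_card h3
          omega
        obtain ⟨d', hd', hd''⟩ := ih w h2 t hw
        refine ⟨d', hd', ?_⟩
        have h3 := T.abs_pos_sub_le (𝒩.rev d) (𝒩.X e v) (𝒩.X e (𝒩.src (𝒩.rev d)))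
        rw [pos_src, hpv, ← hwdef,
          abs_of_neg (by linarith : 𝒩.X e w - 𝒩.X e v < 0), neg_sub] at h3
        have h4 : 𝒩.pos e d' t - 𝒩.Y e v =
            (𝒩.pos e d' t - 𝒩.Y e w) + (𝒩.Y e w - 𝒩.Y e v) := by
          ring
        rw [h4]
        refine (abs_add_le _ _).trans ?_
        have h5 : 2 * Real.sqrt (2 * ed) * (𝒩.X e v - t) =
            2 * Real.sqrt (2 * ed) * (𝒩.X e w - t) +
            2 * Real.sqrt (2 * ed) * (𝒩.X e v - 𝒩.X e w) := by ring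
        rw [h5]
        exact add_le_add hd'' h3

/-- Every alive track is close to an alive track at any other time. -/
lemma trace (T : 𝒩.ThinData k ed e) {s : ℝ} {d : δ} (hd : d ∈ 𝒩.alive e s) (t : ℝ) :
    ∃ d' ∈ 𝒩.alive e t, |𝒩.pos e d' t - 𝒩.pos e d s| ≤
      2 * Real.sqrt (2 * ed) * |t - s| := by
  by_cases hdt : d ∈ 𝒩.alive e t
  · exact ⟨d, hdt, T.abs_pos_sub_le d s t⟩
  · have hσ : 0 ≤ 2 * Real.sqrt (2 * ed) := by positivity
    -- combine through a vertex at time `r` on the track of `d`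
    have key : ∀ (v : ι) (r : ℝ), 𝒩.X e v = r → 𝒩.pos e d r = 𝒩.Y e v →
        |r - s| + |t - r| = |t - s| →
        (∃ d' ∈ 𝒩.alive e t, |𝒩.pos e d' t - 𝒩.Y e v| ≤
          2 * Real.sqrt (2 * ed) * |t - r|) →
        ∃ d' ∈ 𝒩.alive e t, |𝒩.pos e d' t - 𝒩.pos e d s| ≤
          2 * Real.sqrt (2 * ed) * |t - s| := by
      rintro v r hr hp habs ⟨d', hd', hd''⟩
      refine ⟨d', hd', ?_⟩
      have h1 := T.abs_pos_sub_le d s r
      rw [hp] at h1
      have h2 : 𝒩.pos e d' t - 𝒩.pos e d s =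
          (𝒩.pos e d' t - 𝒩.Y e v) + (𝒩.Y e v - 𝒩.pos e d s) := by ring
      rw [h2, ← habs, mul_add]
      refine (abs_add_le _ _).trans ?_
      linarith
    rw [mem_alive] at hd hdt
    push Not at hdt
    rcases hd with ⟨hC, h1, h2⟩ | ⟨hC, h1, h2⟩
    · by_cases h3 : 𝒩.X e (𝒩.src d) < t
      · have h4 := hdt.1 hC h3
        obtain ⟨hr, h5⟩ := h4
        have h6 : s ≤ 𝒩.X e (𝒩.src (𝒩.rev d)) := by tauto
        apply key (𝒩.src (𝒩.rev d)) _ rfl (pos_tgt hC.ne' hr)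
        · rw [abs_of_nonneg (by linarith), abs_of_nonneg (by linarith),
            abs_of_nonneg (by linarith)]; ring
        · rw [abs_of_nonneg (by linarith : 0 ≤ t - 𝒩.X e (𝒩.src (𝒩.rev d)))]
          exact T.fwd _ _ le_rfl t h5
      · push Not at h3
        apply key (𝒩.src d) _ rfl (pos_src d)
        · rw [abs_of_nonpos (by linarith), abs_of_nonpos (by linarith),
            abs_of_nonpos (by linarith)]; ring
        · rw [abs_of_nonpos (by linarith : t - 𝒩.X e (𝒩.src d) ≤ 0), neg_sub]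
          exact T.bwd _ _ le_rfl t h3
    · have h3 : 𝒩.X e (𝒩.src d) < t := hdt.2 hC h1
      apply key (𝒩.src d) _ rfl (pos_src d)
      · rw [abs_of_nonneg (by linarith), abs_of_nonneg (by linarith),
          abs_of_nonneg (by linarith)]; ring
      · rw [abs_of_nonneg (by linarith : 0 ≤ t - 𝒩.X e (𝒩.src d))]
        exact T.fwd _ _ le_rfl t h3

/-- The spread never drops much below the spread at `t₀`. -/
lemma spread_lower (T : 𝒩.ThinData k ed e) {t₀ t : ℝ} (ht₀ : 𝒩.G e t₀ = 0)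
    {a₀ b₀ a b : δ} (hab₀ : Ext 𝒩 e t₀ a₀ b₀) (hab : Ext 𝒩 e t a b) :
    𝒩.pos e b₀ t₀ - 𝒩.pos e a₀ t₀ ≤ 5 * k * (𝒩.pos e b t - 𝒩.pos e a t) := by
  obtain ⟨b', hb', hb''⟩ := T.trace hab₀.2.1 t
  obtain ⟨a', ha', ha''⟩ := T.trace hab₀.1 t
  have h1 := T.spread_virial ht₀ hab
  have h2 := (hab.2.2 b' hb').2
  have h3 := (hab.2.2 a' ha').1
  have h4 := abs_le.mp hb''
  have h5 := abs_le.mp ha''
  have hk : (1 : ℝ) ≤ k := by exact_mod_cast T.hk
  have h6 : 0 ≤ 𝒩.pos e b t - 𝒩.pos e a t := by linarith [(hab.2.2 a hab.1).2]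
  have h7 : 𝒩.pos e b₀ t₀ - 𝒩.pos e a₀ t₀ ≤ (𝒩.pos e b t - 𝒩.pos e a t) +
      4 * (Real.sqrt (2 * ed) * |t - t₀|) := by linarith
  nlinarith

lemma sgn_bounds {s x c : ℝ} (hs : s = 1 ∨ s = -1) (h : |x| ≤ c) : s * x ≤ c ∧ -c ≤ s * x := by
  have := abs_le.mp h
  rcases hs with rfl | rfl
  · constructor <;> linarith
  · constructor <;> linarith

/-- Upper or lower part of a window has few boundary darts. -/
lemma half_window (T : 𝒩.ThinData k ed e) {t h y γ s : ℝ} (hs : s = 1 ∨ s = -1)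
    (hγ : 0 < γ) (hh : 0 < h) (hσh : 2 * Real.sqrt (2 * ed) * h ≤ γ / 4)
    (hgap : ∀ d ∈ 𝒩.alive e t, γ ≤ |𝒩.pos e d t - y|) {dm : δ} (hdm : dm ∈ 𝒩.alive e t)
    (hdm' : s * (𝒩.pos e dm t - y) ≤ 0) :
    𝒩.N (univ.filter fun v => (t ≤ 𝒩.X e v ∧ 𝒩.X e v < t + h) ∧ 0 < s * (𝒩.Y e v - y)) <
      2 * k := by
  set U : Finset ι :=
    univ.filter fun v => (t ≤ 𝒩.X e v ∧ 𝒩.X e v < t + h) ∧ 0 < s * (𝒩.Y e v - y) with hU
  have mU : ∀ v, v ∈ U ↔ (t ≤ 𝒩.X e v ∧ 𝒩.X e v < t + h) ∧ 0 < s * (𝒩.Y e v - y) := by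
    intro v; simp [hU]
  have hσ : 0 ≤ 2 * Real.sqrt (2 * ed) := by positivity
  have hs1 : |s| = 1 := by rcases hs with rfl | rfl <;> norm_num
  have hslope : ∀ (d : δ) (r r' : ℝ), |r' - r| ≤ h → |𝒩.pos e d r' - 𝒩.pos e d r| ≤ γ / 4 := by
    intro d r r' hr
    refine (T.abs_pos_sub_le d r r').trans (le_trans ?_ hσh)
    exact mul_le_mul_of_nonneg_left hr hσ
  -- window vertices are far from `y`
  have hfar : ∀ v, t ≤ 𝒩.X e v → 𝒩.X e v < t + h → 3 * γ / 4 ≤ |𝒩.Y e v - y| := by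
    intro v h1 h2
    obtain ⟨d, hd, hd'⟩ := T.bwd _ v le_rfl t h1
    have h3 := hgap d hd
    have h4 : 2 * Real.sqrt (2 * ed) * (𝒩.X e v - t) ≤ 2 * Real.sqrt (2 * ed) * h :=
      mul_le_mul_of_nonneg_left (by linarith) hσ
    have h5 : |𝒩.pos e d t - y| ≤ |𝒩.pos e d t - 𝒩.Y e v| + |𝒩.Y e v - y| := by
      have : 𝒩.pos e d t - y = (𝒩.pos e d t - 𝒩.Y e v) + (𝒩.Y e v - y) := by ring
      rw [this]
      exact abs_add_le _ _
    linarith
  have hfarU : ∀ v ∈ U, 3 * γ / 4 ≤ s * (𝒩.Y e v - y) := by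
    intro v hv
    rw [mU] at hv
    have h1 := hfar v hv.1.1 hv.1.2
    rwa [← one_mul |𝒩.Y e v - y|, ← hs1, ← abs_mul, abs_of_pos hv.2] at h1
  have hdmγ : s * (𝒩.pos e dm t - y) ≤ -γ := by
    have h1 := hgap dm hdm
    rw [← one_mul |𝒩.pos e dm t - y|, ← hs1, ← abs_mul, abs_of_nonpos hdm'] at h1
    linarith
  -- window darts do not cross
  have hcross : ∀ d, 𝒩.src d ∈ U → 𝒩.rev d ≠ d → t ≤ 𝒩.X e (𝒩.src (𝒩.rev d)) →
      𝒩.X e (𝒩.src (𝒩.rev d)) < t + h → 𝒩.src (𝒩.rev d) ∈ U := by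
    intro d hd hr h1 h2
    have h3 := hfarU _ hd
    rw [mU] at hd ⊢
    refine ⟨⟨h1, h2⟩, ?_⟩
    by_contra hcon
    push Not at hcon
    have h4 := hfar _ h1 h2
    rw [← one_mul |𝒩.Y e (𝒩.src (𝒩.rev d)) - y|, ← hs1, ← abs_mul, abs_of_nonpos hcon] at h4
    have h5 := hslope d (𝒩.X e (𝒩.src d)) (𝒩.X e (𝒩.src (𝒩.rev d))) (by
      rw [abs_le]; constructor <;> linarith [hd.1.1, hd.1.2])
    rw [pos_src, pos_tgt (T.C_ne d) hr] at h5
    have h6 := (sgn_bounds hs h5).2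
    linarith
  -- forward trace of `dm`
  obtain ⟨dp, hdp, hdp'⟩ := T.trace hdm (t + h)
  rw [add_sub_cancel_left, abs_of_pos hh] at hdp'
  have hdp'' := (sgn_bounds hs (hdp'.trans hσh)).1
  -- two kinds of boundary darts
  set A := (𝒩.bd U).filter fun d => 0 < 𝒩.C e d with hA
  set B := (𝒩.bd U).filter fun d => ¬ 0 < 𝒩.C e d with hB
  have hAB : A.card + B.card = 𝒩.N U := by
    unfold N
    rw [hA, hB]
    exact Finset.card_filter_add_card_filter_not _
  have hAsub : A ⊆ (𝒩.alive e (t + h)).erase dp := by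
    intro d hd
    rw [hA, Finset.mem_filter, mem_bd] at hd
    obtain ⟨⟨hd1, hd2⟩, hC⟩ := hd
    have hd1' := (mU _).mp hd1
    rw [Finset.mem_erase]
    constructor
    · intro heq
      have h1 := hfarU _ hd1
      have h2 := hslope d (𝒩.X e (𝒩.src d)) (t + h) (by
        rw [abs_le]; constructor <;> linarith [hd1'.1.1, hd1'.1.2])
      rw [pos_src] at h2
      have h3 := (sgn_bounds hs h2).2
      rw [← heq] at hdp''
      linarith
    · rw [mem_alive]
      left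
      refine ⟨hC, hd1'.1.2, ?_⟩
      by_cases hr : 𝒩.rev d = d
      · exact Or.inl hr
      · right
        have h1 : 𝒩.X e (𝒩.src d) < 𝒩.X e (𝒩.src (𝒩.rev d)) := by
          rw [X_rev hr]
          have := mul_pos (𝒩.len_pos d hr) hC
          linarith
        by_contra h2
        push Not at h2
        have := hcross d hd1 hr (by linarith [hd1'.1.1]) h2
        tauto
  have hBsub : B.image 𝒩.rev ⊆ (𝒩.alive e t).erase dm := by
    intro d' hd'
    rw [Finset.mem_image] at hd'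
    obtain ⟨d, hd, rfl⟩ := hd'
    rw [hB, Finset.mem_filter, mem_bd] at hd
    obtain ⟨⟨hd1, hd2⟩, hC⟩ := hd
    have hC' : 𝒩.C e d < 0 := lt_of_le_of_ne (not_lt.mp hC) (T.C_ne d)
    have hd1' := (mU _).mp hd1
    rw [Finset.mem_erase]
    constructor
    · intro heq
      have h1 := hfarU _ hd1
      have h2 := hslope dm t (𝒩.X e (𝒩.src d)) (by
        rw [abs_le]; constructor <;> linarith [hd1'.1.1, hd1'.1.2])
      rw [← heq, pos_rev_src hC'.ne, heq] at h2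
      have h3 := (sgn_bounds hs h2).1
      linarith
    · rw [mem_alive]
      by_cases hr : 𝒩.rev d = d
      · right
        rw [hr]
        exact ⟨hC', hr, hd1'.1.1⟩
      · left
        rw [C_rev hr, 𝒩.rev_rev]
        have h1 : 𝒩.X e (𝒩.src (𝒩.rev d)) < 𝒩.X e (𝒩.src d) := by
          rw [X_rev hr]
          have := mul_pos (𝒩.len_pos d hr) (neg_pos.mpr hC')
          linarith
        refine ⟨by linarith, ?_, Or.inr hd1'.1.1⟩
        by_contra h2
        push Not at h2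
        have := hcross d hd1 hr h2 (by linarith [hd1'.1.2])
        tauto
  have h1 := Finset.card_le_card hAsub
  have h2 := Finset.card_le_card hBsub
  rw [Finset.card_erase_of_mem hdp, T.card_alive] at h1
  rw [Finset.card_image_of_injective _ 𝒩.rev_inj, Finset.card_erase_of_mem hdm,
    T.card_alive] at h2
  have h3 := T.hk
  omega

/-- Windows have few genuine vertices. -/
lemma window (T : 𝒩.ThinData k ed e) {F : ℕ} (hIH : ∀ S, 𝒩.N S < 2 * k → 𝒩.g S ≤ F)
    {t h D : ℝ} (hD : 0 < D) (hh : 0 < h)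
    (hσh : 2 * Real.sqrt (2 * ed) * h ≤ D / (2 * k) / 4)
    {a b : δ} (hab : Ext 𝒩 e t a b) (hDab : D ≤ 𝒩.pos e b t - 𝒩.pos e a t) :
    𝒩.g (univ.filter fun v => t ≤ 𝒩.X e v ∧ 𝒩.X e v < t + h) ≤ 2 * F := by
  have hk : (1 : ℝ) ≤ k := by exact_mod_cast T.hk
  obtain ⟨y, hy1, hy2, hy3⟩ := exists_gap (𝒩.alive e t) (fun d => 𝒩.pos e d t) k
    (T.card_alive t).le hab.1 hD hDab
  have hγ : 0 < D / (2 * k) := by positivity
  have h1 := T.half_window (s := 1) (Or.inl rfl) hγ hh hσh hy1 hab.1 (by linarith)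
  have h2 := T.half_window (s := -1) (Or.inr rfl) hγ hh hσh hy1 hab.2.1 (by linarith)
  have h3 : (univ.filter fun v => t ≤ 𝒩.X e v ∧ 𝒩.X e v < t + h) ⊆
      (univ.filter fun v => (t ≤ 𝒩.X e v ∧ 𝒩.X e v < t + h) ∧ 0 < (1 : ℝ) * (𝒩.Y e v - y)) ∪
      (univ.filter fun v => (t ≤ 𝒩.X e v ∧ 𝒩.X e v < t + h) ∧
        0 < (-1 : ℝ) * (𝒩.Y e v - y)) := by
    intro v hv
    rw [Finset.mem_filter] at hv
    rw [Finset.mem_union, Finset.mem_filter, Finset.mem_filter]
    have hne : 𝒩.Y e v - y ≠ 0 := by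
      intro h0
      obtain ⟨d, hd, hd'⟩ := T.bwd _ v le_rfl t hv.2.1
      have h4 := hy1 d hd
      have h5 : 𝒩.Y e v = y := by linarith
      rw [h5] at hd'
      have h6 : 2 * Real.sqrt (2 * ed) * (𝒩.X e v - t) ≤ 2 * Real.sqrt (2 * ed) * h :=
        mul_le_mul_of_nonneg_left (by linarith [hv.2.2]) (by positivity)
      linarith
    rcases lt_or_gt_of_ne hne with h | h
    · right
      exact ⟨Finset.mem_univ _, hv.2, by linarith⟩
    · left
      exact ⟨Finset.mem_univ _, hv.2, by linarith⟩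
  calc 𝒩.g (univ.filter fun v => t ≤ 𝒩.X e v ∧ 𝒩.X e v < t + h) ≤ _ := 𝒩.g_mono h3
    _ ≤ _ := 𝒩.g_union_le _ _
    _ ≤ F + F := add_le_add (hIH _ h1) (hIH _ h2)
    _ = 2 * F := by ring

/-- The middle region. -/
lemma middle (T : 𝒩.ThinData k ed e) {F : ℕ} (hIH : ∀ S, 𝒩.N S < 2 * k → 𝒩.g S ≤ F)
    (hed : 0 < ed) {t₀ : ℝ} (ht₀ : 𝒩.G e t₀ = 0) {a₀ b₀ : δ} (hab₀ : Ext 𝒩 e t₀ a₀ b₀)
    {D₀ : ℝ} (hD₀ : D₀ = 𝒩.pos e b₀ t₀ - 𝒩.pos e a₀ t₀) (hD₀p : 0 < D₀)
    {Λ : ℝ} {M : ℕ} (hM : 80 * (k : ℝ) ^ 2 * Λ ≤ M) :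
    𝒩.g (univ.filter fun v => |𝒩.X e v - t₀| ≤ Λ * D₀ / Real.sqrt (2 * ed)) ≤
      (2 * M + 1) * (2 * F) := by
  have hk : (1 : ℝ) ≤ k := by exact_mod_cast T.hk
  set σ := Real.sqrt (2 * ed) with hσ
  have hσ0 : 0 < σ := Real.sqrt_pos.mpr (by linarith)
  set h : ℝ := D₀ / (80 * (k : ℝ) ^ 2 * σ) with hh
  have hh0 : 0 < h := by rw [hh]; positivity
  have hcond : 2 * σ * h ≤ D₀ / (5 * k) / (2 * k) / 4 := by
    have : 2 * σ * h = D₀ / (5 * k) / (2 * k) / 4 := by rw [hh]; field_simp; norm_num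
    rw [this]
  set T' : Finset ℤ := Finset.Icc (-(M : ℤ)) M with hT'
  have hTcard : T'.card = 2 * M + 1 := by
    rw [hT', Int.card_Icc]
    omega
  rw [← hTcard]
  apply 𝒩.g_fiber _ T' (fun v => ⌊(𝒩.X e v - t₀) / h⌋) (2 * F)
  · intro v hv
    rw [Finset.mem_filter] at hv
    have h1 := abs_le.mp hv.2
    have h2 : Λ * D₀ / σ / h = 80 * (k : ℝ) ^ 2 * Λ := by
      rw [hh]; field_simp
    have h3 : (𝒩.X e v - t₀) / h ≤ M := by
      have : (𝒩.X e v - t₀) / h ≤ Λ * D₀ / σ / h := div_le_div_of_nonneg_right h1.2 hh0.le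
      rw [h2] at this
      linarith
    have h4 : -(M : ℝ) ≤ (𝒩.X e v - t₀) / h := by
      have : -(Λ * D₀ / σ) / h ≤ (𝒩.X e v - t₀) / h := div_le_div_of_nonneg_right h1.1 hh0.le
      rw [neg_div, h2] at this
      linarith
    rw [hT', Finset.mem_Icc]
    constructor
    · rw [Int.le_floor]; push_cast; exact h4
    · have := Int.floor_le ((𝒩.X e v - t₀) / h)
      have h5 : ((⌊(𝒩.X e v - t₀) / h⌋ : ℤ) : ℝ) ≤ (M : ℤ) := by push_cast; linarith
      exact_mod_cast h5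
  · intro v _
    set j : ℤ := ⌊(𝒩.X e v - t₀) / h⌋ with hj
    obtain ⟨a, b, hab⟩ := T.exists_ext (t₀ + j * h)
    have hDab : D₀ / (5 * k) ≤ 𝒩.pos e b (t₀ + j * h) - 𝒩.pos e a (t₀ + j * h) := by
      have h1 := T.spread_lower ht₀ hab₀ hab
      rw [div_le_iff₀ (by positivity), hD₀]
      linarith
    have hDpos : 0 < D₀ / (5 * k) := by positivity
    refine le_trans (𝒩.g_mono ?_) (T.window hIH hDpos hh0 hcond hab hDab)
    intro w hw
    rw [Finset.mem_filter] at hw ⊢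
    refine ⟨Finset.mem_univ _, ?_⟩
    have h1 : (j : ℝ) ≤ (𝒩.X e w - t₀) / h := by
      rw [← hw.2]; exact Int.floor_le _
    have h2 : (𝒩.X e w - t₀) / h < j + 1 := by
      rw [← hw.2]; exact Int.lt_floor_add_one _
    rw [le_div_iff₀ hh0] at h1
    rw [div_lt_iff₀ hh0] at h2
    constructor
    · linarith
    · linarith

end ThinData

end DartNet

end

end Pool.Agent.Lib.Pb48dd4
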